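import Pool.Agent.MP_46786a_al.FreeAlg

universe u

namespace Pool.Agent.MP_46786a_al

variable {R : Type u} [Ring R]

/-- Modules in which maps extend along all cells. -/
def CellFam.Perp (𝒞 : CellFam R) (E : Type u) [AddCommGroup E] [Module R E] : Prop :=
  ∀ c (ψ : 𝒞.U c →ₗ[R] E), ∃ τ : 𝒞.V c →ₗ[R] E, τ ∘ₗ 𝒞.u c = ψ

theorem CellFam.perp_of_injective (𝒞 : CellFam R) (E : Type u) [AddCommGroup E] [Module R E]
    [hE : Module.Injective R E] : 𝒞.Perp E := fun c ψ => by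
  obtain ⟨τ, hτ⟩ := hE.out (𝒞.u c) (𝒞.inj c) ψ
  exact ⟨τ, LinearMap.ext hτ⟩

/-- A cell structure on a module. -/
structure CellCx (𝒞 : CellFam R) (X : Type u) [AddCommGroup X] [Module R X] where
  Λ : Type u
  c : Λ → 𝒞.C
  γ : ∀ s, 𝒞.V (c s) →ₗ[R] X
  lev : Λ → ℕ
  r : Λ → Finset Λ
  r_lev : ∀ s t, t ∈ r s → lev t < lev s
  att : ∀ s, LinearMap.range (γ s ∘ₗ 𝒞.u (c s)) ≤ ⨆ t ∈ r s, LinearMap.range (γ t)
  top : ⨆ s, LinearMap.range (γ s) = ⊤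
  recur : ∀ (Q : Type u) [AddCommGroup Q] [Module R Q]
    (ρ : ∀ s, (𝒞.U (c s) →ₗ[R] Q) → (𝒞.V (c s) →ₗ[R] Q)),
    (∀ s ψ', ρ s ψ' ∘ₗ 𝒞.u (c s) = ψ') →
    ∃ φ : X →ₗ[R] Q, ∀ s, φ ∘ₗ γ s = ρ s (φ ∘ₗ γ s ∘ₗ 𝒞.u (c s))

theorem exists_finset_of_fg_le_biSup {P : Type u} [AddCommGroup P] [Module R P]
    {L : Submodule R P} (hL : L.FG) {Λ : Type u} {I : Set Λ} {N : Λ → Submodule R P}
    (h : L ≤ ⨆ s ∈ I, N s) : ∃ G : Finset Λ, (G : Set Λ) ⊆ I ∧ L ≤ ⨆ s ∈ G, N s := by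
  classical
  rw [iSup_subtype'] at h
  obtain ⟨G, hG⟩ := CompleteLattice.IsCompactElement.exists_finset_of_le_iSup _
    ((Submodule.fg_iff_compact L).1 hL) _ h
  refine ⟨G.image Subtype.val, ?_, hG.trans (iSup₂_le fun s hs => ?_)⟩
  · intro s hs
    obtain ⟨t, -, rfl⟩ := Finset.mem_image.1 hs
    exact t.2
  · exact le_iSup₂_of_le s.1 (Finset.mem_image_of_mem _ hs) le_rfl

theorem exists_cellCx (𝒞 : CellFam R) (K : Type u) [AddCommGroup K] [Module R K] :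
    ∃ (X : ModuleCat.{u} R) (_ : CellCx 𝒞 X) (p : X →ₗ[R] K),
      ∀ c (ψ : 𝒞.U c →ₗ[R] X) (τ : 𝒞.V c →ₗ[R] K), p ∘ₗ ψ = τ ∘ₗ 𝒞.u c →
        ∃ σ : 𝒞.V c →ₗ[R] X, σ ∘ₗ 𝒞.u c = ψ ∧ p ∘ₗ σ = τ := by
  classical
  have hD : Good (0 : PUnit.{u + 1} →ₗ[R] K) (∅ : PD 𝒞 PUnit.{u + 1}) :=
    fun _ _ _ h => h.elim
  obtain ⟨Z, η, hZ⟩ := exists_free hD
  have htop : ⨆ l, Z.stage ⊥ l = ⊤ := hZ.gen _ (by
    rintro _ ⟨x, rfl⟩
    rw [Subsingleton.elim x 0, map_zero]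
    exact zero_mem _) (Z.closed_iSup_stage _)
  let Λ := {s : Σ c : 𝒞.C, (𝒞.U c →ₗ[R] Z.car) × (𝒞.V c →ₗ[R] K) //
    Z.q ∘ₗ s.2.1 = s.2.2 ∘ₗ 𝒞.u s.1}
  have hex : ∀ s : Λ, ∃ l, LinearMap.range s.1.2.1 ≤ Z.stage ⊥ l := fun s =>
    exists_le_of_fg_le_iSup (Submodule.fg_range _) (Z.stage_mono _) (htop ▸ le_top)
  let lev : Λ → ℕ := fun s => Nat.find (hex s)
  let γ : ∀ s : Λ, 𝒞.V s.1.1 →ₗ[R] Z.car := fun s => Z.fill s.1.1 s.1.2.1 s.1.2.2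
  have hst : ∀ l, Z.stage ⊥ l ≤ ⨆ t ∈ {t | lev t < l}, LinearMap.range (γ t) := by
    intro l
    induction l with
    | zero => exact bot_le
    | succ l ih =>
      refine sup_le (ih.trans (iSup₂_le fun t ht => le_iSup₂_of_le t
        (Nat.lt_succ_of_lt ht) le_rfl)) (iSup_le fun s => ?_)
      refine le_iSup₂_of_le (f := fun t (_ : t ∈ {t | lev t < l + 1}) => LinearMap.range (γ t))
        ⟨⟨s.1.1, (Z.stage ⊥ l).subtype ∘ₗ s.1.2.1, s.1.2.2⟩, s.2⟩ ?_ le_rfl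
      refine Nat.lt_succ_of_le (Nat.find_min' _ ?_)
      rintro _ ⟨x, rfl⟩
      exact (s.1.2.1 x).2
  choose r hr hr' using fun s : Λ => exists_finset_of_fg_le_biSup (Submodule.fg_range s.1.2.1)
    ((Nat.find_spec (hex s)).trans (hst _))
  refine ⟨Z.car, ⟨Λ, fun s => s.1.1, γ, lev, r, fun s t ht => hr s ht, fun s => ?_, ?_, ?_⟩,
    Z.q, fun c ψ τ hc => ⟨_, Z.fill_u c ψ τ hc, Z.fill_q c ψ τ hc⟩⟩
  · rw [show γ s ∘ₗ 𝒞.u s.1.1 = s.1.2.1 from Z.fill_u _ _ _ s.2]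
    exact hr' s
  · rw [eq_top_iff, ← htop]
    exact iSup_le fun l => (hst l).trans (iSup₂_le fun t _ => le_iSup_of_le t le_rfl)
  · intro Q _ _ ρ hρ
    obtain ⟨φ, -, hφ⟩ := hZ.recursion hD Q 0
      (fun c ψ τ ψ' => if h : Z.q ∘ₗ ψ = τ ∘ₗ 𝒞.u c then ρ ⟨⟨c, ψ, τ⟩, h⟩ ψ' else 0)
      (fun c ψ τ ψ' h => by rw [dif_pos h]; exact hρ ⟨⟨c, ψ, τ⟩, h⟩ ψ')
    refine ⟨φ, fun s => ?_⟩
    rcases hφ _ _ _ s.2 with ⟨σ, hσ, -⟩ | h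
    · exact hσ.elim
    · rw [show γ s ∘ₗ 𝒞.u s.1.1 = s.1.2.1 from Z.fill_u _ _ _ s.2]
      exact h.trans (dif_pos s.2)

namespace CellCx

variable {𝒞 : CellFam R} {X : Type u} [AddCommGroup X] [Module R X] (𝒳 : CellCx 𝒞 X)

/-- The submodule spanned by a set of cells. -/
def sub (I : Set 𝒳.Λ) : Submodule R X := ⨆ s ∈ I, LinearMap.range (𝒳.γ s)

/-- Sets of cells closed under dependence. -/
def RC (I : Set 𝒳.Λ) : Prop := ∀ s ∈ I, ∀ t ∈ 𝒳.r s, t ∈ I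

variable {𝒳}

theorem range_le_sub {I : Set 𝒳.Λ} {s : 𝒳.Λ} (hs : s ∈ I) :
    LinearMap.range (𝒳.γ s) ≤ 𝒳.sub I :=
  le_iSup₂_of_le (f := fun s (_ : s ∈ I) => LinearMap.range (𝒳.γ s)) s hs le_rfl

theorem sub_le {I : Set 𝒳.Λ} {N : Submodule R X}
    (h : ∀ s ∈ I, LinearMap.range (𝒳.γ s) ≤ N) : 𝒳.sub I ≤ N := iSup₂_le h

theorem sub_mono {I J : Set 𝒳.Λ} (h : I ⊆ J) : 𝒳.sub I ≤ 𝒳.sub J :=
  sub_le fun _ hs => range_le_sub (h hs)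

theorem sub_univ : 𝒳.sub Set.univ = ⊤ := by
  rw [eq_top_iff, ← 𝒳.top]
  exact iSup_le fun s => range_le_sub (Set.mem_univ s)

theorem att_le (s : 𝒳.Λ) {N : Submodule R X}
    (h : ∀ t ∈ 𝒳.r s, LinearMap.range (𝒳.γ t) ≤ N) :
    LinearMap.range (𝒳.γ s ∘ₗ 𝒞.u (𝒳.c s)) ≤ N :=
  (𝒳.att s).trans (iSup₂_le h)

theorem ind {P : 𝒳.Λ → Prop} (h : ∀ s, (∀ t ∈ 𝒳.r s, P t) → P s) (s : 𝒳.Λ) : P s := by
  induction hl : 𝒳.lev s using Nat.strong_induction_on generalizing s with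
  | _ l ih => exact h s fun t ht => ih _ (hl ▸ 𝒳.r_lev s t ht) t rfl

theorem eq_on_att {Q : Type u} [AddCommGroup Q] [Module R Q] {φ φ' : X →ₗ[R] Q} (s : 𝒳.Λ)
    (h : ∀ t ∈ 𝒳.r s, φ ∘ₗ 𝒳.γ t = φ' ∘ₗ 𝒳.γ t) :
    φ ∘ₗ 𝒳.γ s ∘ₗ 𝒞.u (𝒳.c s) = φ' ∘ₗ 𝒳.γ s ∘ₗ 𝒞.u (𝒳.c s) := by
  have : LinearMap.range (𝒳.γ s ∘ₗ 𝒞.u (𝒳.c s)) ≤ LinearMap.eqLocus φ φ' := att_le s (by
    rintro t ht _ ⟨x, rfl⟩
    exact congr($(h t ht) x))
  exact LinearMap.ext fun x => this ⟨x, rfl⟩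

theorem eq_on_sub {Q : Type u} [AddCommGroup Q] [Module R Q] {φ φ' : X →ₗ[R] Q} {I : Set 𝒳.Λ}
    (h : ∀ t ∈ I, φ ∘ₗ 𝒳.γ t = φ' ∘ₗ 𝒳.γ t) {x : X} (hx : x ∈ 𝒳.sub I) : φ x = φ' x := by
  have : 𝒳.sub I ≤ LinearMap.eqLocus φ φ' := sub_le (by
    rintro t ht _ ⟨x, rfl⟩
    exact congr($(h t ht) x))
  exact this hx

theorem hom_ext {Q : Type u} [AddCommGroup Q] [Module R Q] {φ φ' : X →ₗ[R] Q}
    (h : ∀ t, φ ∘ₗ 𝒳.γ t = φ' ∘ₗ 𝒳.γ t) : φ = φ' :=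
  LinearMap.ext fun _ => eq_on_sub (I := Set.univ) (fun t _ => h t) (by simp [sub_univ])

theorem exists_closed (G : Finset 𝒳.Λ) : ∃ G' : Finset 𝒳.Λ, G ⊆ G' ∧ 𝒳.RC G' := by
  classical
  have h1 : ∀ s, ∃ G' : Finset 𝒳.Λ, s ∈ G' ∧ 𝒳.RC G' := by
    refine ind fun s hs => ?_
    choose! F hF hF' using hs
    refine ⟨insert s ((𝒳.r s).biUnion F), Finset.mem_insert_self _ _, fun t ht t' ht' => ?_⟩
    simp only [Finset.coe_insert, Finset.coe_biUnion, Set.mem_insert_iff, Set.mem_iUnion,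
      Finset.mem_coe] at ht ⊢
    rcases ht with rfl | ⟨a, ha, ht⟩
    · exact Or.inr ⟨t', ht', hF t' ht'⟩
    · exact Or.inr ⟨a, ha, hF' a ha t ht t' ht'⟩
  choose F hF hF' using h1
  refine ⟨G.biUnion F, fun s hs => Finset.mem_biUnion.2 ⟨s, hs, hF s⟩, fun t ht t' ht' => ?_⟩
  simp only [Finset.coe_biUnion, Set.mem_iUnion, Finset.mem_coe] at ht ⊢
  obtain ⟨a, ha, ht⟩ := ht
  exact ⟨a, ha, hF' a t ht t' ht'⟩

theorem exists_closed_of_fg {L : Submodule R X} (hL : L.FG) :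
    ∃ G : Finset 𝒳.Λ, 𝒳.RC G ∧ L ≤ 𝒳.sub G := by
  obtain ⟨G, -, hG⟩ := exists_finset_of_fg_le_biSup hL (I := Set.univ)
    (N := fun s => LinearMap.range (𝒳.γ s)) (le_top.trans (sub_univ (𝒳 := 𝒳)).ge)
  obtain ⟨G', h1, h2⟩ := exists_closed G
  exact ⟨G', h2, hG.trans (sub_mono (I := (G : Set 𝒳.Λ)) h1)⟩

theorem prescribe {Q : Type u} [AddCommGroup Q] [Module R Q] (hQ : 𝒞.Perp Q)
    (τ₀ : ∀ t, 𝒞.V (𝒳.c t) →ₗ[R] Q) (h₀ : ∀ t, τ₀ t ∘ₗ 𝒞.u (𝒳.c t) = 0) :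
    ∃ φ : X →ₗ[R] Q, ∀ t, φ ∘ₗ 𝒳.γ t ∘ₗ 𝒞.u (𝒳.c t) = 0 → φ ∘ₗ 𝒳.γ t = τ₀ t := by
  classical
  choose ρ hρ using hQ
  obtain ⟨φ, hφ⟩ := 𝒳.recur Q (fun t ψ' => if ψ' = 0 then τ₀ t else ρ _ ψ') (fun t ψ' => by
    split_ifs with h
    · rw [h₀, h]
    · exact hρ _ _)
  exact ⟨φ, fun t ht => (hφ t).trans (if_pos ht)⟩

instance (c : 𝒞.C) : Module.FinitePresentation R (𝒞.V c ⧸ LinearMap.range (𝒞.u c)) :=
  Module.finitePresentation_of_surjective (LinearMap.range (𝒞.u c)).mkQ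
    (LinearMap.range (𝒞.u c)).mkQ_surjective
    (by rw [Submodule.ker_mkQ]; exact Submodule.fg_range _)

theorem finitePresentation_sub (G : Finset 𝒳.Λ) :
    𝒳.RC G → Module.FinitePresentation R (𝒳.sub G) := by
  classical
  induction G using Finset.induction_on_max_value 𝒳.lev with
  | empty =>
    intro _
    have : 𝒳.sub ((∅ : Finset 𝒳.Λ) : Set 𝒳.Λ) = ⊥ := by simp [sub]
    rw [this]
    infer_instance
  | insert a G ha hmax ih =>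
    intro hcl
    have hr : ∀ t ∈ insert a G, ∀ t' ∈ 𝒳.r t, t' ∈ G := by
      intro t ht t' ht'
      have h1 := hcl t (by simpa using ht) t' ht'
      have h2 := 𝒳.r_lev t t' ht'
      have h3 : 𝒳.lev t ≤ 𝒳.lev a := by
        rcases Finset.mem_insert.1 ht with rfl | ht
        · exact le_rfl
        · exact hmax t ht
      rcases (by simpa using h1 : t' = a ∨ t' ∈ G) with rfl | h4
      · omega
      · exact h4
    have ih' := ih fun t ht t' ht' => hr t (Finset.mem_insert_of_mem ht) t' ht'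
    obtain ⟨I, hI, f, hf⟩ :=
      exists_injective_embedding R (𝒞.V (𝒳.c a) ⧸ LinearMap.range (𝒞.u (𝒳.c a)))
    obtain ⟨κ, hκ⟩ := prescribe (𝒳 := 𝒳) (𝒞.perp_of_injective I)
      (Pi.single (M := fun t => 𝒞.V (𝒳.c t) →ₗ[R] I) a (f ∘ₗ Submodule.mkQ _)) (fun t => by
        by_cases h : t = a
        · subst h
          rw [Pi.single_eq_same]
          ext x
          have : (Submodule.Quotient.mk (𝒞.u _ x) : _ ⧸ LinearMap.range (𝒞.u (𝒳.c t))) = 0 :=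
            (Submodule.Quotient.mk_eq_zero _).2 ⟨x, rfl⟩
          simp [this]
        · rw [Pi.single_eq_of_ne h, LinearMap.zero_comp])
    have hG : ∀ t, t ∈ G → κ ∘ₗ 𝒳.γ t = (0 : X →ₗ[R] I) ∘ₗ 𝒳.γ t := by
      refine ind fun t iht ht => ?_
      rw [hκ t (eq_on_att (φ' := 0) t fun t' ht' =>
        iht t' ht' (hr t (Finset.mem_insert_of_mem ht) t' ht')),
        Pi.single_eq_of_ne (fun h : t = a => ha (h ▸ ht)), LinearMap.zero_comp]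
    have hA : κ ∘ₗ 𝒳.γ a = f ∘ₗ Submodule.mkQ _ := by
      rw [hκ a (eq_on_att (φ' := 0) a fun t' ht' =>
        hG t' (hr a (Finset.mem_insert_self _ _) t' ht')), Pi.single_eq_same]
    have hsub : 𝒳.sub (insert a G : Finset 𝒳.Λ) = LinearMap.range (𝒳.γ a) ⊔ 𝒳.sub G := by
      simp only [sub, Finset.coe_insert]
      exact iSup_insert
    have hle : 𝒳.sub G ≤ 𝒳.sub (insert a G : Finset 𝒳.Λ) := hsub ▸ le_sup_right
    let l := κ ∘ₗ (𝒳.sub (insert a G : Finset 𝒳.Λ)).subtype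
    have hdec : ∀ x ∈ 𝒳.sub (insert a G : Finset 𝒳.Λ), ∃ v, ∃ y ∈ 𝒳.sub G,
        x = 𝒳.γ a v + y ∧ κ x = f (Submodule.Quotient.mk v) := by
      intro x hx
      rw [hsub, Submodule.mem_sup] at hx
      obtain ⟨_, ⟨v, rfl⟩, y, hy, rfl⟩ := hx
      refine ⟨v, y, hy, rfl, ?_⟩
      rw [map_add, eq_on_sub (φ' := 0) hG hy, LinearMap.zero_apply, add_zero]
      exact congr($hA v)
    have hrange : LinearMap.range l = LinearMap.range f := by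
      apply le_antisymm
      · rintro _ ⟨x, rfl⟩
        obtain ⟨v, y, -, -, h⟩ := hdec x.1 x.2
        exact ⟨_, h.symm⟩
      · rintro _ ⟨w, rfl⟩
        obtain ⟨v, rfl⟩ := Submodule.Quotient.mk_surjective _ w
        exact ⟨⟨𝒳.γ a v, range_le_sub (by simp) ⟨v, rfl⟩⟩, congr($hA v)⟩
    have hker : LinearMap.ker l.rangeRestrict =
        (𝒳.sub G).comap (𝒳.sub (insert a G : Finset 𝒳.Λ)).subtype := by
      rw [LinearMap.ker_rangeRestrict]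
      ext x
      constructor
      · intro hx
        obtain ⟨v, y, hy, h1, h2⟩ := hdec x.1 x.2
        have h3 : f (Submodule.Quotient.mk v) = 0 := h2.symm.trans hx
        rw [map_eq_zero_iff f hf, Submodule.Quotient.mk_eq_zero] at h3
        obtain ⟨w, rfl⟩ := h3
        change x.1 ∈ 𝒳.sub G
        rw [h1]
        refine add_mem (att_le a (fun t ht => range_le_sub ?_) ⟨w, rfl⟩) hy
        exact hr a (Finset.mem_insert_self _ _) t ht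
      · intro hx
        exact eq_on_sub (φ' := 0) hG hx
    have h1 : Module.FinitePresentation R (LinearMap.range l) := by
      rw [hrange]
      exact Module.FinitePresentation.of_equiv (LinearEquiv.ofInjective f hf)
    have h2 : Module.FinitePresentation R (LinearMap.ker l.rangeRestrict) := by
      rw [hker]
      exact Module.FinitePresentation.of_equiv (Submodule.comapSubtypeEquivOfLe hle).symm
    exact Module.finitePresentation_of_ker l.rangeRestrict l.surjective_rangeRestrict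

end CellCx

theorem lift_along {U V E I C : Type u} [AddCommGroup U] [Module R U] [AddCommGroup V] [Module R V]
    [AddCommGroup E] [Module R E] [AddCommGroup I] [Module R I] [AddCommGroup C] [Module R C]
    [hI : Module.Injective R I] {u : U →ₗ[R] V} (hu : Function.Injective u)
    {f : E →ₗ[R] I} {p : I →ₗ[R] C} (hs : SE f p) (hA : EZ R (V ⧸ LinearMap.range u) E 1)
    (ψ : U →ₗ[R] I) (χ : V →ₗ[R] C) (h : p ∘ₗ ψ = χ ∘ₗ u) :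
    ∃ τ : V →ₗ[R] I, τ ∘ₗ u = ψ ∧ p ∘ₗ τ = χ := by
  obtain ⟨τ₀, hτ₀⟩ := hI.out u hu ψ
  obtain ⟨l, hl⟩ := hs.lift hA ((LinearMap.range u).liftQ (χ - p ∘ₗ τ₀) (by
    rintro _ ⟨x, rfl⟩
    have := congr($h x)
    simp only [LinearMap.comp_apply] at this
    simp [hτ₀, this]))
  refine ⟨τ₀ + l ∘ₗ (LinearMap.range u).mkQ, ?_, ?_⟩
  · ext x
    have : (Submodule.Quotient.mk (u x) : V ⧸ LinearMap.range u) = 0 :=
      (Submodule.Quotient.mk_eq_zero _).2 ⟨x, rfl⟩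
    simp [hτ₀, this]
  · ext x
    have := congr($hl (Submodule.Quotient.mk x))
    simp only [LinearMap.comp_apply, Submodule.liftQ_apply] at this
    simp [this]

theorem CellCx.ez_quot {𝒞 : CellFam R} {X : Type u} [AddCommGroup X] [Module R X]
    (𝒳 : CellCx 𝒞 X) {G : Set 𝒳.Λ} (hG : 𝒳.RC G) {E : Type u} [AddCommGroup E] [Module R E]
    (hE : ∀ c, EZ R (𝒞.V c ⧸ LinearMap.range (𝒞.u c)) E 1) : EZ R (X ⧸ 𝒳.sub G) E 1 := by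
  obtain ⟨I, hI, f, hf⟩ := exists_injective_embedding R E
  have hs := SE.coker f hf
  refine hs.of_lift (fun φ₁ => ?_) (EZ.of_injective _)
  let p := (LinearMap.range f).mkQ
  let χ := φ₁ ∘ₗ (𝒳.sub G).mkQ
  have key : ∀ s (ψ' : 𝒞.U (𝒳.c s) →ₗ[R] I), ∃ τ : 𝒞.V (𝒳.c s) →ₗ[R] I,
      τ ∘ₗ 𝒞.u (𝒳.c s) = ψ' ∧ (s ∈ G → ψ' = 0 → τ = 0) ∧
      (p ∘ₗ ψ' = χ ∘ₗ 𝒳.γ s ∘ₗ 𝒞.u (𝒳.c s) → p ∘ₗ τ = χ ∘ₗ 𝒳.γ s) := by
    intro s ψ'
    by_cases h1 : s ∈ G ∧ ψ' = 0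
    · refine ⟨0, by simp [h1.2], fun _ _ => rfl, fun _ => ?_⟩
      ext x
      have : (Submodule.Quotient.mk (𝒳.γ s x) : X ⧸ 𝒳.sub G) = 0 :=
        (Submodule.Quotient.mk_eq_zero _).2 (CellCx.range_le_sub h1.1 ⟨x, rfl⟩)
      simp [χ, this]
    · by_cases h2 : p ∘ₗ ψ' = χ ∘ₗ 𝒳.γ s ∘ₗ 𝒞.u (𝒳.c s)
      · obtain ⟨τ, hτ, hτ'⟩ := lift_along (𝒞.inj _) hs (hE _) ψ' (χ ∘ₗ 𝒳.γ s) h2
        exact ⟨τ, hτ, fun a b => (h1 ⟨a, b⟩).elim, fun _ => hτ'⟩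
      · obtain ⟨τ, hτ⟩ := 𝒞.perp_of_injective I _ ψ'
        exact ⟨τ, hτ, fun a b => (h1 ⟨a, b⟩).elim, fun h => (h2 h).elim⟩
  choose ρ hρ h0 hp using key
  obtain ⟨φ, hφ⟩ := 𝒳.recur I ρ hρ
  have c1 : ∀ s, s ∈ G → φ ∘ₗ 𝒳.γ s = (0 : X →ₗ[R] I) ∘ₗ 𝒳.γ s := by
    refine CellCx.ind fun s ih hs => ?_
    rw [hφ s, h0 s _ hs (CellCx.eq_on_att (φ' := 0) s fun t ht => ih t ht (hG s hs t ht)),
      LinearMap.zero_comp]
  have c2 : ∀ s, (p ∘ₗ φ) ∘ₗ 𝒳.γ s = χ ∘ₗ 𝒳.γ s := by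
    refine CellCx.ind fun s ih => ?_
    rw [LinearMap.comp_assoc, hφ s]
    exact hp s _ (CellCx.eq_on_att s ih)
  refine ⟨(𝒳.sub G).liftQ φ (fun x hx => CellCx.eq_on_sub (φ' := 0) c1 hx), ?_⟩
  ext x
  exact congr($(CellCx.hom_ext c2) x)

end Pool.Agent.MP_46786a_al
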