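import Mathlib

universe u

namespace Pool.Agent.MP_46786a_al

theorem exists_limit {Λ J M : Type u} [Inhabited M] (supp : J → Finset Λ) {ι : Type*}
    (I : ι → Set Λ) (y : ι → J → M)
    (h : ∀ a b, ∃ c, (∀ j, ↑(supp j) ⊆ I a → y c j = y a j) ∧
      (∀ j, ↑(supp j) ⊆ I b → y c j = y b j)) :
    ∃ z : J → M, ∀ a j, ↑(supp j) ⊆ I a → z j = y a j := by
  classical
  refine ⟨fun j => if h : ∃ a, ↑(supp j) ⊆ I a then y h.choose j else default, fun a j hj => ?_⟩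
  have h1 : ∃ a, ↑(supp j) ⊆ I a := ⟨a, hj⟩
  obtain ⟨c, h2, h3⟩ := h a h1.choose
  simp only [dif_pos h1]
  rw [← h3 j h1.choose_spec, h2 j hj]

theorem solve {Λ J M : Type u} [Inhabited M]
    (Sat : Λ → (J → M) → Prop) (var : Λ → Finset J) (supp : J → Finset Λ) (nxt : Λ → Finset Λ)
    (hSat : ∀ s y y', (∀ j ∈ var s, y' j = y j) → Sat s y → Sat s y')
    (hnxt : ∀ s, ∀ j ∈ var s, supp j ⊆ nxt s)
    (RC : Finset Λ → Prop) (hRC0 : RC ∅) (hfin : ∀ G : Finset Λ, ∃ G', G ⊆ G' ∧ RC G')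
    (hstep : ∀ I : Set Λ, (∀ s ∈ I, ↑(nxt s) ⊆ I) → ∀ G G' : Finset Λ, RC G → RC G' → G ⊆ G' →
      ∀ y, (∀ s ∈ I ∪ G, Sat s y) →
        ∃ y', (∀ s ∈ I ∪ G', Sat s y') ∧ ∀ j, ↑(supp j) ⊆ I ∪ G → y' j = y j) :
    ∃ y, ∀ s, Sat s y := by
  classical
  let P := {p : Set Λ × (J → M) // (∀ s ∈ p.1, ↑(nxt s) ⊆ p.1) ∧ ∀ s ∈ p.1, Sat s p.2}
  let r : P → P → Prop := fun p q => p.1.1 ⊆ q.1.1 ∧ ∀ j, ↑(supp j) ⊆ p.1.1 → q.1.2 j = p.1.2 j
  have hchain : ∀ c, IsChain r c → ∃ ub, ∀ a ∈ c, r a ub := by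
    intro c hc
    obtain ⟨z, hz⟩ := exists_limit supp (fun a : c => a.1.1.1) (fun a : c => a.1.1.2) (by
      intro a b
      by_cases hab : a.1 = b.1
      · exact ⟨a, fun _ _ => rfl, fun _ _ => by rw [hab]⟩
      · rcases hc a.2 b.2 hab with h | h
        · exact ⟨b, h.2, fun _ _ => rfl⟩
        · exact ⟨a, fun _ _ => rfl, h.2⟩)
    refine ⟨⟨⟨⋃ a : c, a.1.1.1, z⟩, fun s hs => ?_, fun s hs => ?_⟩, fun a ha =>
      ⟨Set.subset_iUnion (fun a : c => a.1.1.1) ⟨a, ha⟩, hz ⟨a, ha⟩⟩⟩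
    · obtain ⟨a, ha⟩ := Set.mem_iUnion.1 hs
      exact (a.1.2.1 s ha).trans (Set.subset_iUnion (fun a : c => a.1.1.1) a)
    · obtain ⟨a, ha⟩ := Set.mem_iUnion.1 hs
      exact hSat s _ _ (fun j hj => hz a j
        ((Finset.coe_subset.2 (hnxt s j hj)).trans (a.1.2.1 s ha))) (a.1.2.2 s ha)
  obtain ⟨⟨⟨I, y⟩, hI, hy⟩, hm⟩ := exists_maximal_of_chains_bounded hchain
    (fun {a b c} hab hbc => ⟨hab.1.trans hbc.1, fun j hj =>
      (hbc.2 j (hj.trans hab.1)).trans (hab.2 j hj)⟩)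
  refine ⟨y, fun s₀ => ?_⟩
  let St := {p : Finset Λ × (J → M) // RC p.1 ∧ ∀ s ∈ I ∪ p.1, Sat s p.2}
  have hnext : ∀ p : St, ∃ q : St, p.1.1 ⊆ q.1.1 ∧ s₀ ∈ q.1.1 ∧ (∀ s ∈ p.1.1, nxt s ⊆ q.1.1) ∧
      ∀ j, ↑(supp j) ⊆ I ∪ p.1.1 → q.1.2 j = p.1.2 j := by
    rintro ⟨⟨G, z⟩, hG, hz⟩
    obtain ⟨G', h1, h2⟩ := hfin (insert s₀ (G ∪ G.biUnion nxt))
    have h3 : G ⊆ G' := (Finset.subset_union_left.trans (Finset.subset_insert _ _)).trans h1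
    obtain ⟨z', h4, h5⟩ := hstep I hI G G' hG h2 h3 z hz
    refine ⟨⟨⟨G', z'⟩, h2, h4⟩, h3, h1 (Finset.mem_insert_self _ _), fun s hs => ?_, h5⟩
    exact ((Finset.subset_biUnion_of_mem nxt hs).trans
      (Finset.subset_union_right.trans (Finset.subset_insert _ _))).trans h1
  choose next h1 h2 h3 h4 using hnext
  let p₀ : St := ⟨⟨∅, y⟩, hRC0, by simpa using hy⟩
  let seq : ℕ → St := fun m => next^[m] p₀
  have hs : ∀ m, seq (m + 1) = next (seq m) := fun m => Function.iterate_succ_apply' _ _ _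
  have hmono : ∀ a b, a ≤ b → (seq a).1.1 ⊆ (seq b).1.1 ∧
      ∀ j, ↑(supp j) ⊆ I ∪ (seq a).1.1 → (seq b).1.2 j = (seq a).1.2 j := by
    intro a b hab
    induction hab with
    | refl => exact ⟨subset_rfl, fun _ _ => rfl⟩
    | step _ ih =>
      rw [hs]
      exact ⟨ih.1.trans (h1 _), fun j hj => (h4 _ j (hj.trans
        (Set.union_subset_union_right _ (Finset.coe_subset.2 ih.1)))).trans (ih.2 j hj)⟩
  obtain ⟨z, hz⟩ := exists_limit supp (fun m => I ∪ (seq m).1.1) (fun m => (seq m).1.2)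
    (fun a b => ⟨max a b, (hmono _ _ (le_max_left _ _)).2, (hmono _ _ (le_max_right _ _)).2⟩)
  have hn : ∀ m, ∀ s ∈ I ∪ (seq m).1.1, ↑(nxt s) ⊆ I ∪ (seq (m + 1)).1.1 := by
    rintro m s (hs' | hs')
    · exact (hI s hs').trans Set.subset_union_left
    · rw [hs]
      exact (Finset.coe_subset.2 (h3 _ s hs')).trans Set.subset_union_right
  let q : P := ⟨⟨⋃ m, I ∪ (seq m).1.1, z⟩, fun s hs' => by
      obtain ⟨m, hm⟩ := Set.mem_iUnion.1 hs'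
      exact (hn m s hm).trans (Set.subset_iUnion (fun m => I ∪ (seq m).1.1) (m + 1)),
    fun s hs' => by
      obtain ⟨m, hm⟩ := Set.mem_iUnion.1 hs'
      exact hSat s _ _ (fun j hj => hz (m + 1) j
        ((Finset.coe_subset.2 (hnxt s j hj)).trans (hn m s hm))) ((seq (m + 1)).2.2 s
          (Set.union_subset_union_right _ (Finset.coe_subset.2 (hmono m _ (Nat.le_succ m)).1) hm))⟩
  have hq := hm q ⟨Set.subset_union_left.trans (Set.subset_iUnion (fun m => I ∪ (seq m).1.1) 0),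
    fun j hj => hz 0 j (hj.trans Set.subset_union_left)⟩
  refine hy s₀ (hq.1 (Set.mem_iUnion.2 ⟨1, Or.inr ?_⟩))
  rw [hs]
  exact h2 _

end Pool.Agent.MP_46786a_al
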