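import Pool.Agent.MP_46786a_al.CellCx
import Pool.Agent.MP_46786a_al.Solve

universe u

namespace Pool.Agent.MP_46786a_al

variable {R : Type u} [Ring R] {𝒞 : CellFam R}

theorem exists_support_dfinsupp {V : Type u} [AddCommGroup V] [Module R V] [Module.Finite R V]
    {ι : Type u} {M : ι → Type u} [∀ a, AddCommGroup (M a)] [∀ a, Module R (M a)]
    (f : V →ₗ[R] Π₀ a, M a) : ∃ S : Finset ι, ∀ a ∉ S, ∀ v, f v a = 0 := by
  classical
  obtain ⟨s, hs⟩ := Module.Finite.fg_top (R := R) (M := V)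
  refine ⟨s.biUnion fun v => (f v).support, fun a ha v => ?_⟩
  have : Submodule.span R (s : Set V) ≤ LinearMap.ker (DFinsupp.lapply a ∘ₗ f) := by
    rw [Submodule.span_le]
    intro w hw
    by_contra h
    exact ha (Finset.mem_biUnion.2 ⟨w, hw, DFinsupp.mem_support_iff.2 h⟩)
  exact this (hs ▸ Submodule.mem_top)

theorem exists_support_finsupp {V : Type u} [AddCommGroup V] [Module R V] [Module.Finite R V]
    {J : Type u} (f : V →ₗ[R] J →₀ R) : ∃ S : Finset J, ∀ v, (f v).support ⊆ S := by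
  classical
  obtain ⟨s, hs⟩ := Module.Finite.fg_top (R := R) (M := V)
  refine ⟨s.biUnion fun v => (f v).support, fun v a ha => ?_⟩
  by_contra ha'
  have : Submodule.span R (s : Set V) ≤ LinearMap.ker (Finsupp.lapply a ∘ₗ f) := by
    rw [Submodule.span_le]
    intro w hw
    by_contra h
    exact ha' (Finset.mem_biUnion.2 ⟨w, hw, Finsupp.mem_support_iff.2 h⟩)
  exact Finsupp.mem_support_iff.1 ha (this (hs ▸ Submodule.mem_top))

theorem CellFam.perp_dfinsupp_ext {ι : Type u} {M : ι → Type u} [∀ a, AddCommGroup (M a)]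
    [∀ a, Module R (M a)] (h : ∀ a, 𝒞.Perp (M a)) (c : 𝒞.C) (ψ : 𝒞.U c →ₗ[R] Π₀ a, M a) :
    ∃ τ : 𝒞.V c →ₗ[R] Π₀ a, M a, τ ∘ₗ 𝒞.u c = ψ ∧
      ∀ a, (∀ x, ψ x a = 0) → ∀ v, τ v a = 0 := by
  classical
  obtain ⟨S, hS⟩ := exists_support_dfinsupp ψ
  have key : ∀ a, ∃ τ : 𝒞.V c →ₗ[R] M a, τ ∘ₗ 𝒞.u c = DFinsupp.lapply a ∘ₗ ψ ∧
      ((∀ x, ψ x a = 0) → τ = 0) := by
    intro a
    by_cases ha : ∀ x, ψ x a = 0
    · exact ⟨0, LinearMap.ext fun x => (ha x).symm, fun _ => rfl⟩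
    · obtain ⟨τ, hτ⟩ := h a c (DFinsupp.lapply a ∘ₗ ψ)
      exact ⟨τ, hτ, fun h' => (ha h').elim⟩
  choose τ hτ hτ' using key
  have hval : ∀ v a, (∑ b ∈ S, DFinsupp.lsingle b ∘ₗ τ b : 𝒞.V c →ₗ[R] Π₀ a, M a) v a =
      τ a v := by
    intro v a
    rw [LinearMap.sum_apply, DFinsupp.finsetSum_apply, Finset.sum_eq_single a]
    · simp
    · intro b _ hb
      simp [hb]
    · intro ha
      simp [hτ' a (hS a ha)]
  refine ⟨∑ b ∈ S, DFinsupp.lsingle b ∘ₗ τ b, ?_, fun a ha v => ?_⟩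
  · ext x a
    rw [LinearMap.comp_apply, hval]
    exact congr($(hτ a) x)
  · rw [hval, hτ' a ha, LinearMap.zero_apply]

theorem CellFam.perp_dfinsupp {ι : Type u} {M : ι → Type u} [∀ a, AddCommGroup (M a)]
    [∀ a, Module R (M a)] (h : ∀ a, 𝒞.Perp (M a)) : 𝒞.Perp (Π₀ a, M a) := fun c ψ =>
  let ⟨τ, hτ, _⟩ := CellFam.perp_dfinsupp_ext h c ψ
  ⟨τ, hτ⟩

theorem CellFam.Perp.pi {E : Type u} [AddCommGroup E] [Module R E] (h : 𝒞.Perp E) (Y : Type u) :
    𝒞.Perp (Y → E) := by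
  intro c ψ
  choose τ hτ using fun y : Y => h c (LinearMap.proj y ∘ₗ ψ)
  exact ⟨LinearMap.pi τ, LinearMap.ext fun x => funext fun y => congr($(hτ y) x)⟩

namespace CellCx

variable {X : Type u} [AddCommGroup X] [Module R X] (𝒳 : CellCx 𝒞 X)
  (E : Type u) [AddCommGroup E] [Module R E]

/-- Maps from a cell that vanish on its boundary. -/
abbrev H (s : 𝒳.Λ) : Type u := {f : 𝒞.V (𝒳.c s) →ₗ[R] E // f ∘ₗ 𝒞.u (𝒳.c s) = 0}

/-- The universal target. -/
abbrev W : Type u := Π₀ s : 𝒳.Λ, (𝒳.H E s → E)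

theorem RC.union {I J : Set 𝒳.Λ} (hI : 𝒳.RC I) (hJ : 𝒳.RC J) : 𝒳.RC (I ∪ J) := by
  rintro s (hs | hs) t ht
  · exact Or.inl (hI s hs t ht)
  · exact Or.inr (hJ s hs t ht)

variable {E}

theorem exists_universal (hE : 𝒞.Perp E) : ∃ Ψ : X →ₗ[R] 𝒳.W E,
    (∀ I, 𝒳.RC I → ∀ s ∈ I, ∀ t ∉ I, ∀ v, Ψ (𝒳.γ s v) t = 0) ∧
    ∀ s v (f : 𝒳.H E s), Ψ (𝒳.γ s v) s f = f.1 v := by
  classical
  choose ex hex hex' using fun s : 𝒳.Λ => CellFam.perp_dfinsupp_ext
    (M := fun s : 𝒳.Λ => 𝒳.H E s → E) (fun _ => hE.pi _) (𝒳.c s)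
  let η : ∀ s, 𝒞.V (𝒳.c s) →ₗ[R] (𝒳.H E s → E) := fun s => LinearMap.pi fun f => f.1
  obtain ⟨Ψ, hΨ⟩ := 𝒳.recur (𝒳.W E) (fun s ψ' => ex s ψ' + DFinsupp.lsingle s ∘ₗ η s)
    (fun s ψ' => by
      have : η s ∘ₗ 𝒞.u (𝒳.c s) = 0 := LinearMap.ext fun x => funext fun f => congr($(f.2) x)
      rw [LinearMap.add_comp, hex, LinearMap.comp_assoc, this, LinearMap.comp_zero, add_zero])
  have hatt : ∀ s t, (∀ s' ∈ 𝒳.r s, ∀ v, Ψ (𝒳.γ s' v) t = 0) →
      ∀ v, ex s (Ψ ∘ₗ 𝒳.γ s ∘ₗ 𝒞.u (𝒳.c s)) v t = 0 := by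
    intro s t h
    refine hex' s _ t fun x => ?_
    have : LinearMap.range (𝒳.γ s ∘ₗ 𝒞.u (𝒳.c s)) ≤ LinearMap.ker (DFinsupp.lapply t ∘ₗ Ψ) :=
      att_le s (by
        rintro s' hs' _ ⟨v, rfl⟩
        exact h s' hs' v)
    exact this ⟨x, rfl⟩
  have h1 : ∀ I, 𝒳.RC I → ∀ s ∈ I, ∀ t ∉ I, ∀ v, Ψ (𝒳.γ s v) t = 0 := by
    intro I hI
    refine ind fun s ih hs t ht v => ?_
    have hne : s ≠ t := fun h => ht (h ▸ hs)
    have h2 := congr($(hΨ s) v t)
    rw [LinearMap.comp_apply] at h2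
    rw [h2, LinearMap.add_apply, DFinsupp.add_apply,
      hatt s t (fun s' hs' => ih s' hs' (hI s hs s' hs') t ht)]
    simp [hne]
  refine ⟨Ψ, h1, fun s v f => ?_⟩
  have hcl : 𝒳.RC {t | 𝒳.lev t < 𝒳.lev s} := fun t ht t' ht' => (𝒳.r_lev t t' ht').trans ht
  have h2 := congr($(hΨ s) v s)
  rw [LinearMap.comp_apply] at h2
  rw [h2, LinearMap.add_apply, DFinsupp.add_apply,
    hatt s s (fun s' hs' => h1 _ hcl s' (𝒳.r_lev s s' hs') s (lt_irrefl (𝒳.lev s)))]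
  simp [η]

theorem exists_factor {Ψ : X →ₗ[R] 𝒳.W E}
    (h1 : ∀ I, 𝒳.RC I → ∀ s ∈ I, ∀ t ∉ I, ∀ v, Ψ (𝒳.γ s v) t = 0)
    (h2 : ∀ s v (f : 𝒳.H E s), Ψ (𝒳.γ s v) s f = f.1 v) {I : Set 𝒳.Λ} (hI : 𝒳.RC I)
    (ε : X →ₗ[R] E) (hε : ∀ t ∈ I, ε ∘ₗ 𝒳.γ t = 0) (G : Finset 𝒳.Λ) :
    𝒳.RC (I ∪ G) → ∃ g : 𝒳.W E →ₗ[R] E, (∀ w : 𝒳.W E, (∀ t ∉ I, w t = 0) → g w = 0) ∧
      ∀ t ∈ I ∪ G, (g ∘ₗ Ψ) ∘ₗ 𝒳.γ t = ε ∘ₗ 𝒳.γ t := by
  classical
  induction G using Finset.induction_on_max_value 𝒳.lev with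
  | empty =>
    intro _
    exact ⟨0, fun _ _ => rfl, fun t ht => (hε t (by simpa using ht)).symm⟩
  | insert a G ha hmax ih =>
    intro hcl
    have hr : ∀ t ∈ I ∪ ↑(insert a G), ∀ t' ∈ 𝒳.r t, t' ∈ I ∪ G := by
      intro t ht t' ht'
      rcases ht with ht | ht
      · exact Or.inl (hI t ht t' ht')
      have h3 : 𝒳.lev t ≤ 𝒳.lev a := by
        rcases Finset.mem_insert.1 ht with rfl | ht
        · exact le_rfl
        · exact hmax t ht
      have h4 := 𝒳.r_lev t t' ht'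
      rcases hcl t (Or.inr ht) t' ht' with h5 | h5
      · exact Or.inl h5
      · rcases Finset.mem_insert.1 h5 with rfl | h5
        · omega
        · exact Or.inr h5
    have hsub : I ∪ G ⊆ I ∪ ↑(insert a G) :=
      Set.union_subset_union_right _ (Finset.coe_subset.2 (Finset.subset_insert _ _))
    have hcl' : 𝒳.RC (I ∪ G) := fun t ht t' ht' => hr t (hsub ht) t' ht'
    obtain ⟨g, hg, hg'⟩ := ih hcl'
    by_cases haI : a ∈ I
    · refine ⟨g, hg, fun t ht => hg' t ?_⟩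
      rcases ht with ht | ht
      · exact Or.inl ht
      · rcases Finset.mem_insert.1 ht with rfl | ht
        · exact Or.inl haI
        · exact Or.inr ht
    have h5 := eq_on_att a fun t ht => hg' t (hr a (Or.inr (Finset.mem_insert_self _ _)) t ht)
    let f : 𝒳.H E a := ⟨(ε - g ∘ₗ Ψ) ∘ₗ 𝒳.γ a, by
      rw [LinearMap.comp_assoc, LinearMap.sub_comp, h5, sub_self]⟩
    refine ⟨g + (LinearMap.proj f : (𝒳.H E a → E) →ₗ[R] E) ∘ₗ
      (DFinsupp.lapply a : 𝒳.W E →ₗ[R] (𝒳.H E a → E)), fun w hw => ?_, fun t ht => ?_⟩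
    · simp [hg w hw, hw a haI]
    · by_cases hta : t = a
      · subst hta
        ext v
        simp [h2, f]
      · have ht' : t ∈ I ∪ G := by
          rcases ht with ht | ht
          · exact Or.inl ht
          · exact Or.inr ((Finset.mem_insert.1 ht).resolve_left hta)
        ext v
        have h6 := h1 _ hcl' t ht' a (fun h => h.elim haI ha) v
        have h7 := congr($(hg' t ht') v)
        simp only [LinearMap.comp_apply] at h7
        simp [h6, h7]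

theorem extend_of_pure {K : Type u} [AddCommGroup K] [Module R K] (i : K →ₗ[R] X)
    (π : X →ₗ[R] K) (hπ : π ∘ₗ i = LinearMap.id) {J : Type u} (ι : K →ₗ[R] J →₀ R)
    {M : Type u} [AddCommGroup M] [Module R M] (j : M →ₗ[R] E)
    (hpure : ∀ (κ : Type u) (s : Finset κ) (g : κ → J →₀ R) (b : κ → M)
      (y : (J →₀ R) →ₗ[R] E), (∀ k ∈ s, y (g k) = j (b k)) →
        ∃ z : (J →₀ R) →ₗ[R] M, ∀ k ∈ s, z (g k) = b k)
    (hE : 𝒞.Perp E) (hW : ∀ φ : K →ₗ[R] 𝒳.W E, ∃ x : (J →₀ R) →ₗ[R] 𝒳.W E, x ∘ₗ ι = φ)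
    (ψ : K →ₗ[R] M) : ∃ y : (J →₀ R) →ₗ[R] M, y ∘ₗ ι = ψ := by
  classical
  obtain ⟨Ψ, h1, h2⟩ := 𝒳.exists_universal hE
  obtain ⟨x, hx⟩ := hW (Ψ ∘ₗ i)
  choose var hvar using fun s => exists_support_finsupp (ι ∘ₗ π ∘ₗ 𝒳.γ s)
  choose es _ hes using fun s => exists_closed_of_fg (𝒳 := 𝒳)
    (Submodule.fg_range (i ∘ₗ π ∘ₗ 𝒳.γ s))
  choose gens hgens using fun s => Module.Finite.fg_top (R := R) (M := 𝒞.V (𝒳.c s))
  let supp : J → Finset 𝒳.Λ := fun a => (x (Finsupp.single a 1)).support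
  let lc : (J → M) → (J →₀ R) →ₗ[R] M := fun y => Finsupp.linearCombination R y
  have hlc : ∀ y y' (w : J →₀ R), (∀ a ∈ w.support, y' a = y a) → lc y' w = lc y w := by
    intro y y' w h
    simp only [lc, Finsupp.linearCombination_apply]
    exact Finsupp.sum_congr fun a ha => by rw [h a ha]
  have hM : Inhabited M := ⟨0⟩
  obtain ⟨y, hy⟩ := solve (M := M)
    (fun s y => (lc y ∘ₗ ι ∘ₗ π) ∘ₗ 𝒳.γ s = (ψ ∘ₗ π) ∘ₗ 𝒳.γ s) var supp
    (fun s => 𝒳.r s ∪ (var s).biUnion supp)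
    (fun s y y' h hs => by
      rw [← hs]
      ext v
      exact hlc y y' _ fun a ha => h a (hvar s v ha))
    (fun s a ha => (Finset.subset_biUnion_of_mem supp ha).trans Finset.subset_union_right)
    (fun G => 𝒳.RC G) (fun _ h => by simp at h) exists_closed (by
      intro I hI G G' hG hG' hGG' y hy
      have hIc : 𝒳.RC I := fun s hs t ht => hI s hs (by simp [ht])
      let ε : X →ₗ[R] M := ψ ∘ₗ π - lc y ∘ₗ ι ∘ₗ π
      have hε : ∀ t ∈ I ∪ G, ε ∘ₗ 𝒳.γ t = 0 := fun t ht => by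
        rw [LinearMap.sub_comp, hy t ht, sub_self]
      obtain ⟨G₃, hG₃, hG₃'⟩ := exists_closed (𝒳 := 𝒳) (G'.biUnion es)
      obtain ⟨g, hg, hg'⟩ := 𝒳.exists_factor h1 h2 (hIc.union _ hG) (j ∘ₗ ε)
        (fun t ht => by rw [LinearMap.comp_assoc, hε t ht, LinearMap.comp_zero]) G₃
        ((hIc.union _ hG).union _ hG₃')
      obtain ⟨z, hz⟩ := hpure ((Σ s, 𝒞.V (𝒳.c s)) ⊕ J)
        ((G'.sigma gens).disjSum ((G'.biUnion var).filter fun a => ↑(supp a) ⊆ I ∪ G))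
        (Sum.elim (fun p => ι (π (𝒳.γ p.1 p.2))) fun a => Finsupp.single a 1)
        (Sum.elim (fun p => ε (𝒳.γ p.1 p.2)) fun _ => 0) (g ∘ₗ x) (by
          rintro (⟨s, v⟩ | a) hk
          · have hs : s ∈ G' := (Finset.mem_sigma.1 (Finset.inl_mem_disjSum.1 hk)).1
            have h3 : i (π (𝒳.γ s v)) ∈ 𝒳.sub (I ∪ G ∪ G₃) :=
              sub_mono ((Finset.coe_subset.2
                ((Finset.subset_biUnion_of_mem es hs).trans hG₃)).trans
                Set.subset_union_right) (hes s ⟨v, rfl⟩)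
            have h4 := eq_on_sub hg' h3
            have h5 : x (ι (π (𝒳.γ s v))) = Ψ (i (π (𝒳.γ s v))) := congr($hx _)
            have h6 : π (i (π (𝒳.γ s v))) = π (𝒳.γ s v) := congr($hπ _)
            simp only [Sum.elim_inl, LinearMap.comp_apply, h5]
            refine h4.trans ?_
            simp [ε, h6]
          · have ha := (Finset.mem_filter.1 (Finset.inr_mem_disjSum.1 hk)).2
            simp only [Sum.elim_inr, LinearMap.comp_apply, map_zero]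
            refine hg _ fun t ht => ?_
            by_contra h
            exact ht (ha (DFinsupp.mem_support_iff.2 h)))
      let z' : J → M := fun a => if ↑(supp a) ⊆ I ∪ G then 0 else z (Finsupp.single a 1)
      have hz' : ∀ s ∈ I ∪ G', (lc z' ∘ₗ ι ∘ₗ π) ∘ₗ 𝒳.γ s = ε ∘ₗ 𝒳.γ s := by
        rintro s (hs | hs)
        · rw [hε s (Or.inl hs)]
          ext v
          have := hlc 0 z' (ι (π (𝒳.γ s v))) fun a ha => if_pos
            ((Finset.coe_subset.2 ((Finset.subset_biUnion_of_mem supp (hvar s v ha)).trans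
              Finset.subset_union_right)).trans ((hI s hs).trans Set.subset_union_left))
          simpa [lc] using this
        · refine LinearMap.ext_on (hgens s) fun v hv => ?_
          have h3 := hz (Sum.inl ⟨s, v⟩)
            (Finset.inl_mem_disjSum.2 (Finset.mem_sigma.2 ⟨hs, hv⟩))
          have h4 := hlc (fun a => z (Finsupp.single a 1)) z' (ι (π (𝒳.γ s v))) fun a ha => by
            simp only [z']
            split_ifs with h
            · exact (hz (Sum.inr a) (Finset.inr_mem_disjSum.2 (Finset.mem_filter.2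
                ⟨Finset.mem_biUnion.2 ⟨s, hs, hvar s v ha⟩, h⟩))).symm
            · rfl
          have h5 : lc (fun a => z (Finsupp.single a 1)) = z := by
            ext a
            simp [lc]
          rw [h5] at h4
          exact h4.trans h3
      refine ⟨y + z', fun s hs => ?_, fun a ha => ?_⟩
      · have h3 : lc (y + z') = lc y + lc z' := by
          ext a
          simp [lc]
        rw [h3, LinearMap.add_comp, LinearMap.add_comp, hz' s hs, LinearMap.sub_comp,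
          add_sub_cancel]
      · simp [z', ha])
  refine ⟨lc y, ?_⟩
  have := congrArg (· ∘ₗ i) (hom_ext hy)
  simpa only [LinearMap.comp_assoc, hπ, LinearMap.comp_id] using this

end CellCx

end Pool.Agent.MP_46786a_al
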