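import Mathlib

open CategoryTheory CategoryTheory.Limits CategoryTheory.Abelian

universe u

namespace Pool.Agent.MP_46786a_al

variable {R : Type u} [Ring R]

/-- `N` lies in `Add M`: it is a direct summand of a direct sum of copies of `M`. -/
def InAdd (M N : ModuleCat.{u} R) : Prop :=
  ∃ (X : Type u) (i : N →ₗ[R] (X →₀ M)) (p : (X →₀ M) →ₗ[R] N), p ∘ₗ i = LinearMap.id

/-- `K` is a pure submodule of `M`: every finite system of linear equations with constants
in `K` that is solvable in `M` is solvable in `K`. -/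
def IsPureSubmodule {M : Type u} [AddCommGroup M] [Module R M] (K : Submodule R M) : Prop :=
  ∀ (m n : ℕ) (a : Fin m → Fin n → R) (k : Fin m → M), (∀ i, k i ∈ K) →
    (∃ x : Fin n → M, ∀ i, ∑ j, a i j • x j = k i) →
    ∃ y : Fin n → M, (∀ j, y j ∈ K) ∧ ∀ i, ∑ j, a i j • y j = k i

/-- `N` is a direct limit of a direct system, over a directed poset, of modules in `Add M`. -/
def InDirectLimitAdd (M N : ModuleCat.{u} R) : Prop :=
  ∃ (I : Type u) (_ : PartialOrder I) (_ : IsDirected I (· ≤ ·)) (_ : Nonempty I)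
    (F : I ⥤ ModuleCat.{u} R) (c : Cocone F),
    (∀ i, InAdd M (F.obj i)) ∧ Nonempty (IsColimit c) ∧ Nonempty (c.pt ≅ N)

/-- `N` is a pure epimorphic image of a direct sum of copies of `M`. -/
def InPureImageAdd (M N : ModuleCat.{u} R) : Prop :=
  ∃ (X : Type u) (p : (X →₀ M) →ₗ[R] N),
    Function.Surjective p ∧ IsPureSubmodule (LinearMap.ker p)

/-- `T` is an `n`-tilting module. The exact sequence `0 → R → T₀ → ⋯ → Tₙ → 0` is written as a
sequence indexed by the natural numbers whose terms vanish past `n`. -/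
structure IsTilting (n : ℕ) (T : ModuleCat.{u} R) : Prop where
  projDim : HasProjectiveDimensionLE T n
  selfOrthogonal : ∀ (X : Type u) (i : ℕ), 1 ≤ i →
    Subsingleton (Ext T (ModuleCat.of R (X →₀ T)) i)
  coresolution : ∃ (C : ℕ → ModuleCat.{u} R) (ι : R →ₗ[R] C 0)
    (d : ∀ i, C i →ₗ[R] C (i + 1)),
    (∀ i, i ≤ n → InAdd T (C i)) ∧ (∀ i, n < i → Subsingleton (C i)) ∧
    Function.Injective ι ∧ Function.Exact ι (d 0) ∧ ∀ i, Function.Exact (d i) (d (i + 1))

end Pool.Agent.MP_46786a_al
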