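import Mathlib

set_option linter.unusedSectionVars false

universe u

namespace Pool.Agent.MP_46786a_al

/-- The rational circle. -/
abbrev Dq : Type := AddCircle (1 : ℚ)

theorem exists_extend_through {A B : Type*} [AddCommGroup A] [AddCommGroup B] (θ : A →+ B)
    (ω : A →+ Dq) (h : ∀ a, θ a = 0 → ω a = 0) : ∃ β : B →+ Dq, ∀ a, β (θ a) = ω a := by
  obtain ⟨β, hβ⟩ := (Module.Baer.of_divisible Dq).extension_property_addMonoidHom
    (QuotientAddGroup.kerLift θ) (QuotientAddGroup.kerLift_injective θ)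
    (QuotientAddGroup.lift θ.ker ω h)
  exact ⟨β, fun a => congr($hβ (QuotientAddGroup.mk a))⟩

theorem exists_separating {A B : Type*} [AddCommGroup A] [AddCommGroup B] (θ : A →+ B)
    (b : B) (hb : ∀ a, θ a ≠ b) : ∃ χ : B →+ Dq, (∀ a, χ (θ a) = 0) ∧ χ b ≠ 0 := by
  have h1 : (QuotientAddGroup.mk b : B ⧸ θ.range) ≠ 0 := by
    rw [Ne, QuotientAddGroup.eq_zero_iff]
    rintro ⟨a, ha⟩
    exact hb a ha
  obtain ⟨c, hc⟩ := CharacterModule.exists_character_apply_ne_zero_of_ne_zero h1
  refine ⟨AddMonoidHom.comp c (QuotientAddGroup.mk' θ.range), fun a => ?_, hc⟩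
  have : (QuotientAddGroup.mk (θ a) : B ⧸ θ.range) = 0 :=
    (QuotientAddGroup.eq_zero_iff _).2 ⟨a, rfl⟩
  change c (QuotientAddGroup.mk (θ a)) = 0
  rw [this, map_zero]

variable (R : Type u) [Ring R] (M : Type u) [AddCommGroup M] [Module R M]

/-- The double character dual. -/
def DD (_R : Type u) (M : Type u) [AddCommGroup M] : Type u := (M →+ Dq) →+ Dq

instance : AddCommGroup (DD R M) := inferInstanceAs (AddCommGroup ((M →+ Dq) →+ Dq))

variable {R M}

/-- The underlying homomorphism. -/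
def DD.val (ξ : DD R M) : (M →+ Dq) →+ Dq := ξ

theorem DD.ext {ξ ξ' : DD R M} (h : ∀ χ, ξ.val χ = ξ'.val χ) : ξ = ξ' := AddMonoidHom.ext h

@[simp] theorem DD.val_add (ξ ξ' : DD R M) (χ) : (ξ + ξ').val χ = ξ.val χ + ξ'.val χ := rfl

@[simp] theorem DD.val_zero (χ) : (0 : DD R M).val χ = 0 := rfl

/-- The right action on characters. -/
def actr (M : Type u) [AddCommGroup M] [Module R M] (r : R) : (M →+ Dq) →+ (M →+ Dq) where
  toFun χ := χ.comp (DistribSMul.toAddMonoidHom M r)
  map_zero' := rfl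
  map_add' _ _ := rfl

@[simp] theorem actr_apply (r : R) (χ : M →+ Dq) (m : M) : actr M r χ m = χ (r • m) := rfl

instance : Module R (DD R M) where
  smul r ξ := ξ.val.comp (actr M r)
  one_smul ξ := DD.ext fun χ => congrArg ξ.val (by ext m; simp)
  mul_smul r s ξ := DD.ext fun χ => congrArg ξ.val (by
    ext m
    change χ ((r * s) • m) = χ (r • s • m)
    rw [mul_smul])
  smul_zero _ := rfl
  smul_add _ _ _ := rfl
  add_smul r s ξ := DD.ext fun χ => by
    change ξ.val (actr M (r + s) χ) = ξ.val (actr M r χ) + ξ.val (actr M s χ)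
    rw [← map_add]
    congr 1
    ext m
    simp [add_smul]
  zero_smul ξ := DD.ext fun χ => by
    change ξ.val (actr M (0 : R) χ) = 0
    rw [← map_zero ξ.val]
    congr 1
    ext m
    simp

@[simp] theorem DD.val_smul (r : R) (ξ : DD R M) (χ) : (r • ξ).val χ = ξ.val (actr M r χ) := rfl

variable (R M) in
/-- The evaluation map into the double dual. -/
def ev : M →ₗ[R] DD R M where
  toFun m := (AddMonoidHom.eval m : (M →+ Dq) →+ Dq)
  map_add' m m' := DD.ext fun χ => map_add χ m m'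
  map_smul' _ _ := rfl

@[simp] theorem ev_val (m : M) (χ) : (ev R M m).val χ = χ m := rfl

theorem ev_injective : Function.Injective (ev R M) := by
  rw [injective_iff_map_eq_zero]
  intro m hm
  by_contra h
  obtain ⟨c, hc⟩ := CharacterModule.exists_character_apply_ne_zero_of_ne_zero h
  exact hc (congrArg (fun ξ : DD R M => ξ.val c) hm)

theorem dd_crit {F κ : Type u} [AddCommGroup F] [Module R F] (g : κ → F) (b : κ → DD R M)
    (h : ∀ (s : Finset κ) (w : κ → (M →+ Dq)),
      (∀ z : F →ₗ[R] M, ∑ k ∈ s, w k (z (g k)) = 0) → ∑ k ∈ s, (b k).val (w k) = 0) :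
    ∃ y : F →ₗ[R] DD R M, ∀ k, y (g k) = b k := by
  let pull : F → (M →+ Dq) →+ ((F →ₗ[R] M) →+ Dq) := fun x =>
    { toFun := fun χ => χ.comp (LinearMap.evalAddMonoidHom x)
      map_zero' := rfl
      map_add' := fun _ _ => rfl }
  let Θ : (κ →₀ (M →+ Dq)) →+ ((F →ₗ[R] M) →+ Dq) := Finsupp.liftAddHom fun k => pull (g k)
  let ω : (κ →₀ (M →+ Dq)) →+ Dq := Finsupp.liftAddHom fun k => (b k).val
  obtain ⟨β, hβ⟩ := exists_extend_through Θ ω (fun (w : κ →₀ (M →+ Dq)) (hw : Θ w = 0) => by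
    refine h w.support w fun z => ?_
    have := DFunLike.congr_fun hw z
    simpa [Θ, Finsupp.sum, AddMonoidHom.finsetSum_apply, pull] using this)
  refine ⟨⟨⟨fun x => β.comp (pull x), fun x x' => DD.ext fun χ => ?_⟩,
    fun r x => DD.ext fun χ => ?_⟩, fun k => DD.ext fun χ => ?_⟩
  · change β (pull (x + x') χ) = β (pull x χ) + β (pull x' χ)
    rw [← map_add]
    congr 1
    ext z
    simp [pull]
  · change β (pull (r • x) χ) = β (pull x (actr M r χ))
    congr 1
    ext z
    simp [pull]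
  · have := hβ (Finsupp.single k χ)
    change β (pull (g k) χ) = _
    simpa [Θ, ω] using this

variable (R M) in
/-- Relations that hold for all maps into `M` hold for all maps into the double dual. -/
def Nec (F : Type u) [AddCommGroup F] [Module R F] : Prop :=
  ∀ (y : F →ₗ[R] DD R M) (κ : Type u) (s : Finset κ) (w : κ → (M →+ Dq)) (g : κ → F),
    (∀ z : F →ₗ[R] M, ∑ k ∈ s, w k (z (g k)) = 0) → ∑ k ∈ s, (y (g k)).val (w k) = 0

theorem nec_finsupp (J : Type u) : Nec R M (J →₀ R) := by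
  intro y κ s w g h
  let B : (J →₀ (M →+ Dq)) →+ Dq := Finsupp.liftAddHom fun j => (y (Finsupp.single j 1)).val
  let θ : (M →+ Dq) → (J →₀ R) →+ (J →₀ (M →+ Dq)) := fun χ => Finsupp.mapRange.addMonoidHom
    { toFun := fun r => actr M r χ
      map_zero' := by ext m; simp
      map_add' := fun r r' => by ext m; simp [add_smul] }
  have h1 : ∀ χ x, (y x).val χ = B (θ χ x) := by
    intro χ x
    induction x using Finsupp.induction_linear with
    | zero => simp
    | add a b ha hb => simp [ha, hb]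
    | single j r =>
      rw [← Finsupp.smul_single_one, map_smul]
      simp [B, θ]
  simp only [h1]
  rw [← map_sum]
  convert map_zero B
  ext j m
  have := h ((Finsupp.lapply j).smulRight m)
  simpa [θ, Finsupp.finsetSum_apply, AddMonoidHom.finsetSum_apply] using this

theorem Nec.of_presentation {F₀ U : Type u} [AddCommGroup F₀] [Module R F₀] [AddCommGroup U]
    [Module R U] (h₀ : Nec R M F₀) {m : ℕ} (f : F₀ →ₗ[R] U) (a : (Fin m → R) →ₗ[R] F₀)
    (hf : Function.Surjective f) (ha : Function.Exact a f) : Nec R M U := by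
  classical
  intro y κ s w g h
  choose g' hg' using fun k => hf (g k)
  let μ : (F₀ →ₗ[R] M) →+ Dq := ∑ k ∈ s, (w k).comp (LinearMap.evalAddMonoidHom (g' k))
  have hμ : ∀ z, μ z = ∑ k ∈ s, w k (z (g' k)) := fun z => by
    simp [μ, AddMonoidHom.finsetSum_apply]
  let A : (F₀ →ₗ[R] M) →+ (Fin m → M) :=
    { toFun := fun z i => z (a (Pi.single i 1))
      map_zero' := rfl
      map_add' := fun _ _ => rfl }
  obtain ⟨ν, hν⟩ := exists_extend_through A μ (fun z hz => by
    have h1 : z ∘ₗ a = 0 := by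
      ext i
      exact congrFun hz i
    have h2 : LinearMap.ker f ≤ LinearMap.ker z := by
      rw [LinearMap.exact_iff.1 ha]
      exact LinearMap.range_le_ker_iff.2 h1
    have := h ((LinearMap.ker f).liftQ z h2 ∘ₗ (f.quotKerEquivOfSurjective hf).symm.toLinearMap)
    rw [hμ, ← this]
    refine Finset.sum_congr rfl fun k _ => ?_
    rw [← hg' k]
    simp)
  have := h₀ (y ∘ₗ f) (κ ⊕ ULift.{u} (Fin m)) (s.disjSum Finset.univ)
    (Sum.elim w fun i => -(ν.comp (AddMonoidHom.single (fun _ => M) i.down)))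
    (Sum.elim g' fun i => a (Pi.single i.down 1)) (fun z => by
      rw [Finset.sum_disjSum]
      simp only [Sum.elim_inl, Sum.elim_inr, AddMonoidHom.neg_apply, AddMonoidHom.comp_apply,
        Finset.sum_neg_distrib]
      rw [← hμ, ← hν, ← map_sum, add_neg_eq_zero]
      congr 1
      ext i
      rw [Finset.sum_apply, Finset.sum_eq_single (ULift.up i)]
      · simp [A]
      · intro j _ hj
        exact Pi.single_eq_of_ne' (fun h => hj (ULift.ext _ _ h)) _
      · simp)
  rw [Finset.sum_disjSum] at this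
  have h3 : ∀ v, f (a v) = 0 := fun v => (ha _).2 ⟨v, rfl⟩
  simpa [hg', h3] using this

theorem nec_fp (U : Type u) [AddCommGroup U] [Module R U] [Module.FinitePresentation R U] :
    Nec R M U := by
  obtain ⟨n, m, f, a, hf, ha⟩ := Module.FinitePresentation.exists_fin' R U
  let e : (ULift.{u} (Fin n) →₀ R) ≃ₗ[R] (Fin n → R) :=
    (Finsupp.domLCongr Equiv.ulift).trans (Finsupp.linearEquivFunOnFinite R R _)
  refine (nec_finsupp (ULift.{u} (Fin n))).of_presentation (f ∘ₗ e.toLinearMap)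
    (e.symm.toLinearMap ∘ₗ a) (hf.comp e.surjective) ?_
  intro x
  rw [LinearMap.comp_apply, ha]
  constructor
  · rintro ⟨v, hv⟩
    exact ⟨v, by simp [hv]⟩
  · rintro ⟨v, rfl⟩
    exact ⟨v, by simp⟩

theorem dd_pure {J κ : Type u} (s : Finset κ) (g : κ → (J →₀ R)) (b : κ → M)
    (y : (J →₀ R) →ₗ[R] DD R M) (hy : ∀ k ∈ s, y (g k) = ev R M (b k)) :
    ∃ z : (J →₀ R) →ₗ[R] M, ∀ k ∈ s, z (g k) = b k := by
  classical
  by_contra hcon
  let A : ((J →₀ R) →ₗ[R] M) →+ (s → M) :=
    { toFun := fun z k => z (g k)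
      map_zero' := rfl
      map_add' := fun _ _ => rfl }
  obtain ⟨χ, hχ, hχ'⟩ := exists_separating A (fun k => b k)
    (fun z hz => hcon ⟨z, fun k hk => congrFun hz ⟨k, hk⟩⟩)
  have hsum : ∀ v : s → M, χ v = ∑ k, χ (Pi.single k (v k)) := fun v => by
    rw [← map_sum, Finset.univ_sum_single]
  have := nec_finsupp J y s Finset.univ
    (fun k => χ.comp (AddMonoidHom.single (fun _ => M) k)) (fun k => g k)
    (fun z => (hsum (A z)).symm.trans (hχ z))
  apply hχ'
  rw [hsum, ← this]
  refine Finset.sum_congr rfl fun k _ => ?_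
  rw [hy k k.2]
  rfl

theorem dd_extend {U V : Type u} [AddCommGroup U] [Module R U] [AddCommGroup V] [Module R V]
    [Module.FinitePresentation R U] (u : U →ₗ[R] V)
    (h : ∀ ψ : U →ₗ[R] M, ∃ τ : V →ₗ[R] M, τ ∘ₗ u = ψ) (ψ : U →ₗ[R] DD R M) :
    ∃ τ : V →ₗ[R] DD R M, τ ∘ₗ u = ψ := by
  obtain ⟨y, hy⟩ := dd_crit (u : U → V) (ψ : U → DD R M) (fun s w hw => by
    refine nec_fp U ψ U s w id fun z => ?_
    obtain ⟨τ, rfl⟩ := h z
    exact hw τ)
  exact ⟨y, LinearMap.ext hy⟩

end Pool.Agent.MP_46786a_al
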