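import Pool.Agent.MP_46786a_al.Defs

open CategoryTheory CategoryTheory.Limits

universe u

namespace Pool.Agent.MP_46786a_al

variable {R : Type u} [Ring R] {M N : ModuleCat.{u} R}

theorem InDirectLimitAdd.inPureImageAdd (h : InDirectLimitAdd M N) : InPureImageAdd M N := by
  classical
  obtain ⟨I, _, _, _, F, c, hF, ⟨hc⟩, ⟨e⟩⟩ := h
  choose X i p hip using hF
  let g : ∀ a, F.obj a →ₗ[R] N := fun a => e.hom.hom ∘ₗ (c.ι.app a).hom
  have hg : ∀ {a b} (h : a ≤ b) (x : F.obj a), g b (F.map (homOfLE h) x) = g a x :=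
    fun h x => congrArg e.hom.hom (ConcreteCategory.congr_hom (c.w (homOfLE h)) x)
  have hsurj : ∀ y : N, ∃ a x, g a x = y := fun y => by
    obtain ⟨a, x, hx⟩ := Concrete.isColimit_exists_rep F hc (e.inv y)
    refine ⟨a, x, ?_⟩
    change e.hom (c.ι.app a x) = y
    rw [hx]
    simp
  have hinj : ∀ a (x : F.obj a), g a x = 0 → ∃ b, ∃ h : a ≤ b, F.map (homOfLE h) x = 0 := by
    intro a x hx
    have h1 : c.ι.app a x = c.ι.app a (0 : F.obj a) := by
      rw [map_zero]
      exact e.toLinearEquiv.injective (hx.trans (map_zero _).symm)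
    obtain ⟨b, f, f', h2⟩ := Concrete.isColimit_exists_of_rep_eq F hc x 0 h1
    exact ⟨b, leOfHom f, by rw [map_zero] at h2; exact h2⟩
  let q : ((Σ a, X a) →₀ M) →ₗ[R] N :=
    Finsupp.lsum ℕ fun s => g s.1 ∘ₗ p s.1 ∘ₗ Finsupp.lsingle s.2
  let j : ∀ a, F.obj a →ₗ[R] ((Σ a, X a) →₀ M) := fun a =>
    Finsupp.lmapDomain M R (Sigma.mk a) ∘ₗ i a
  have hq : ∀ a x, q (j a x) = g a x := by
    intro a x
    have h1 : q ∘ₗ Finsupp.lmapDomain M R (Sigma.mk a) = g a ∘ₗ p a := by
      ext y m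
      simp [q]
    have h2 := congr($h1 (i a x))
    have h3 : p a (i a x) = x := congr($(hip a) x)
    simpa [h3, j] using h2
  refine ⟨Σ a, X a, q, fun y => ?_, fun m n r k hk ⟨x, hx⟩ => ?_⟩
  · obtain ⟨a, x, rfl⟩ := hsurj y
    exact ⟨_, hq a x⟩
  · choose a y hy using fun t => hsurj (q (x t))
    obtain ⟨b, hb⟩ := Finite.exists_le a
    let y₁ : Fin n → F.obj b := fun t => F.map (homOfLE (hb t)) (y t)
    have hy₁ : ∀ t, g b (y₁ t) = q (x t) := fun t => (hg (hb t) _).trans (hy t)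
    choose b' hb' h0 using fun s => hinj b (∑ t, r s t • y₁ t) (by
      simp only [map_sum, map_smul, hy₁]
      have := hk s
      rw [← hx s] at this
      simpa using this)
    obtain ⟨d, hd'⟩ := Finite.exists_le (fun o : Option (Fin m) => o.elim b b')
    have hd : b ≤ d := hd' none
    have hd₂ : ∀ s, b' s ≤ d := fun s => hd' (some s)
    let y₂ : Fin n → F.obj d := fun t => F.map (homOfLE hd) (y₁ t)
    have hy₂ : ∀ s, ∑ t, r s t • y₂ t = 0 := fun s => by
      have h1 : F.map (homOfLE hd) =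
          F.map (homOfLE (hb' s)) ≫ F.map (homOfLE (hd₂ s)) := by
        rw [← F.map_comp]
        rfl
      have h2 : F.map (homOfLE hd) (∑ t, r s t • y₁ t) = 0 := by
        rw [h1, ConcreteCategory.comp_apply, h0 s, map_zero]
      simpa only [map_sum, map_smul] using h2
    refine ⟨fun t => x t - j d (y₂ t), fun t => ?_, fun s => ?_⟩
    · rw [LinearMap.mem_ker, map_sub, hq, sub_eq_zero]
      exact ((hg hd _).trans (hy₁ t)).symm
    · have h3 := congrArg (j d) (hy₂ s)
      simp only [map_sum, map_smul, map_zero] at h3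
      simp only [smul_sub, Finset.sum_sub_distrib, hx, h3, sub_zero]

end Pool.Agent.MP_46786a_al
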