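import Mathlib

open CategoryTheory CategoryTheory.Limits CategoryTheory.Abelian

universe u

namespace Pool.Agent.MP_46786a_al

variable (R : Type u) [Ring R]

/-- Vanishing of an Ext group between unbundled modules. -/
def EZ (U E : Type u) [AddCommGroup U] [Module R U] [AddCommGroup E] [Module R E] (i : ℕ) : Prop :=
  ∀ e : Ext (ModuleCat.of R U) (ModuleCat.of R E) i, e = 0

variable {R}

/-- Short exact sequences of unbundled modules. -/
structure SE {A B C : Type u} [AddCommGroup A] [Module R A] [AddCommGroup B] [Module R B]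
    [AddCommGroup C] [Module R C] (f : A →ₗ[R] B) (g : B →ₗ[R] C) : Prop where
  inj : Function.Injective f
  ex : Function.Exact f g
  surj : Function.Surjective g

section

variable {A B C U E : Type u} [AddCommGroup A] [Module R A] [AddCommGroup B] [Module R B]
    [AddCommGroup C] [Module R C] [AddCommGroup U] [Module R U] [AddCommGroup E] [Module R E]
    {f : A →ₗ[R] B} {g : B →ₗ[R] C}

theorem SE.ker (g : B →ₗ[R] C) (hg : Function.Surjective g) :
    SE (LinearMap.ker g).subtype g :=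
  ⟨(LinearMap.ker g).injective_subtype, LinearMap.exact_subtype_ker_map g, hg⟩

theorem SE.coker (f : A →ₗ[R] B) (hf : Function.Injective f) :
    SE f (LinearMap.range f).mkQ :=
  ⟨hf, LinearMap.exact_map_mkQ_range f, (LinearMap.range f).mkQ_surjective⟩

theorem SE.sub (N : Submodule R B) : SE N.subtype N.mkQ :=
  ⟨N.injective_subtype, LinearMap.exact_subtype_mkQ N, N.mkQ_surjective⟩

/-- The short complex attached to a short exact sequence. -/
abbrev SE.sc (h : SE f g) : ShortComplex (ModuleCat.{u} R) :=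
  ModuleCat.shortComplexOfCompEqZero f g h.ex.linearMap_comp_eq_zero

theorem SE.shortExact (h : SE f g) : h.sc.ShortExact :=
  ModuleCat.shortComplex_shortExact _ h.ex h.inj h.surj

theorem SE.cov₁ (h : SE f g) {i : ℕ} (hC : EZ R U C i) (hB : EZ R U B (i + 1)) :
    EZ R U A (i + 1) := by
  intro e
  obtain ⟨x, rfl⟩ := Ext.covariant_sequence_exact₁ _ h.shortExact e (hB _) rfl
  rw [hC x, Ext.zero_comp]

theorem SE.cov₂ (h : SE f g) {i : ℕ} (hA : EZ R U A i) (hC : EZ R U C i) :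
    EZ R U B i := by
  intro e
  obtain ⟨x, rfl⟩ := Ext.covariant_sequence_exact₂ _ h.shortExact e (hC _)
  rw [hA x, Ext.zero_comp]

theorem SE.cov₃ (h : SE f g) {i : ℕ} (hB : EZ R U B i) (hA : EZ R U A (i + 1)) :
    EZ R U C i := by
  intro e
  obtain ⟨x, rfl⟩ := Ext.covariant_sequence_exact₃ _ h.shortExact e rfl (hA _)
  rw [hB x, Ext.zero_comp]

theorem SE.con₁ (h : SE f g) {i : ℕ} (hB : EZ R B E i) (hC : EZ R C E (i + 1)) :
    EZ R A E i := by
  intro e
  obtain ⟨x, rfl⟩ := Ext.contravariant_sequence_exact₁ h.shortExact _ e (add_comm 1 i) (hC _)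
  rw [hB x, Ext.comp_zero]

theorem SE.con₂ (h : SE f g) {i : ℕ} (hA : EZ R A E i) (hC : EZ R C E i) :
    EZ R B E i := by
  intro e
  obtain ⟨x, rfl⟩ := Ext.contravariant_sequence_exact₂ h.shortExact _ e (hA _)
  rw [hC x, Ext.comp_zero]

theorem SE.con₃ (h : SE f g) {i : ℕ} (hA : EZ R A E i) (hB : EZ R B E (i + 1)) :
    EZ R C E (i + 1) := by
  intro e
  obtain ⟨x, rfl⟩ := Ext.contravariant_sequence_exact₃ h.shortExact _ e (hB _) (add_comm 1 i)
  rw [hA x, Ext.comp_zero]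

theorem SE.lift (h : SE f g) (hA : EZ R U A 1) (φ : U →ₗ[R] C) :
    ∃ ψ : U →ₗ[R] B, g ∘ₗ ψ = φ := by
  obtain ⟨x, hx⟩ := Ext.covariant_sequence_exact₃ _ h.shortExact
    (Ext.mk₀ (ModuleCat.ofHom φ)) rfl (hA _)
  obtain ⟨y, rfl⟩ := (Ext.mk₀_bijective _ _).2 x
  rw [Ext.mk₀_comp_mk₀] at hx
  exact ⟨y.hom, ModuleCat.hom_ext_iff.mp ((Ext.mk₀_bijective _ _).1 hx)⟩

theorem SE.of_lift (h : SE f g) (hl : ∀ φ : U →ₗ[R] C, ∃ ψ : U →ₗ[R] B, g ∘ₗ ψ = φ)
    (hB : EZ R U B 1) : EZ R U A 1 := by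
  intro e
  obtain ⟨x, rfl⟩ := Ext.covariant_sequence_exact₁ _ h.shortExact e (hB _) rfl
  obtain ⟨y, rfl⟩ := (Ext.mk₀_bijective _ _).2 x
  obtain ⟨ψ, hψ⟩ := hl y.hom
  have : y = ModuleCat.ofHom ψ ≫ h.sc.g := ModuleCat.hom_ext hψ.symm
  rw [this, ← Ext.mk₀_comp_mk₀, Ext.comp_assoc_of_second_deg_zero,
    h.shortExact.comp_extClass, Ext.comp_zero]

theorem SE.extend (h : SE f g) (hC : EZ R C E 1) (φ : A →ₗ[R] E) :
    ∃ ψ : B →ₗ[R] E, ψ ∘ₗ f = φ := by
  obtain ⟨x, hx⟩ := Ext.contravariant_sequence_exact₁ h.shortExact _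
    (Ext.mk₀ (ModuleCat.ofHom φ)) rfl (hC _)
  obtain ⟨y, rfl⟩ := (Ext.mk₀_bijective _ _).2 x
  rw [Ext.mk₀_comp_mk₀] at hx
  exact ⟨y.hom, ModuleCat.hom_ext_iff.mp ((Ext.mk₀_bijective _ _).1 hx)⟩

theorem SE.of_extend (h : SE f g) (hl : ∀ φ : A →ₗ[R] E, ∃ ψ : B →ₗ[R] E, ψ ∘ₗ f = φ)
    (hB : EZ R B E 1) : EZ R C E 1 := by
  intro e
  obtain ⟨x, rfl⟩ := Ext.contravariant_sequence_exact₃ h.shortExact _ e (hB _) (n₀ := 0) rfl
  obtain ⟨y, rfl⟩ := (Ext.mk₀_bijective _ _).2 x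
  obtain ⟨ψ, hψ⟩ := hl y.hom
  have : y = h.sc.f ≫ ModuleCat.ofHom ψ := ModuleCat.hom_ext hψ.symm
  rw [this, ← Ext.mk₀_comp_mk₀]
  exact h.shortExact.extClass_comp_assoc _

theorem EZ.of_projective [Module.Projective R U] (i : ℕ) : EZ R U E (i + 1) := by
  intro e
  have : Projective (ModuleCat.of R U) := (IsProjective.iff_projective U).1 inferInstance
  exact Ext.eq_zero_of_projective e

theorem EZ.of_injective [Module.Injective R E] (i : ℕ) : EZ R U E (i + 1) := by
  intro e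
  have : Injective (ModuleCat.of R E) := Module.injective_object_of_injective_module R E
  exact Ext.eq_zero_of_injective e

theorem EZ.retract_left {i : ℕ} (h : EZ R B E i) (a : A →ₗ[R] B) (b : B →ₗ[R] A)
    (hab : b ∘ₗ a = LinearMap.id) : EZ R A E i := by
  intro e
  have h1 : (ModuleCat.ofHom a ≫ ModuleCat.ofHom b) = 𝟙 (ModuleCat.of R A) :=
    ModuleCat.hom_ext hab
  rw [← Ext.mk₀_id_comp e, ← h1, ← Ext.mk₀_comp_mk₀_assoc, h ((Ext.mk₀ _).comp e _),
    Ext.comp_zero]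

theorem EZ.retract_right {i : ℕ} (h : EZ R U B i) (a : A →ₗ[R] B) (b : B →ₗ[R] A)
    (hab : b ∘ₗ a = LinearMap.id) : EZ R U A i := by
  intro e
  have h1 : (ModuleCat.ofHom a ≫ ModuleCat.ofHom b) = 𝟙 (ModuleCat.of R A) :=
    ModuleCat.hom_ext hab
  rw [← Ext.comp_mk₀_id e, ← h1, ← Ext.mk₀_comp_mk₀, ← Ext.comp_assoc_of_third_deg_zero,
    h (e.comp (Ext.mk₀ _) _), Ext.zero_comp]

theorem EZ.equiv_left {i : ℕ} (h : EZ R B E i) (a : A ≃ₗ[R] B) : EZ R A E i :=
  h.retract_left a.toLinearMap a.symm.toLinearMap (by ext; simp)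

theorem EZ.equiv_right {i : ℕ} (h : EZ R U B i) (a : A ≃ₗ[R] B) : EZ R U A i :=
  h.retract_right a.toLinearMap a.symm.toLinearMap (by ext; simp)

theorem EZ.of_subsingleton_left [Subsingleton U] (i : ℕ) : EZ R U E i := by
  intro e
  have h1 : 𝟙 (ModuleCat.of R U) = 0 := ModuleCat.hom_ext (Subsingleton.elim _ _)
  rw [← Ext.mk₀_id_comp e, h1, Ext.mk₀_zero, Ext.zero_comp]

variable (R) in
theorem exists_injective_embedding (E : Type u) [AddCommGroup E] [Module R E] :
    ∃ (I : ModuleCat.{u} R) (_ : Module.Injective R I) (f : E →ₗ[R] I),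
      Function.Injective f := by
  obtain ⟨p⟩ := EnoughInjectives.presentation (ModuleCat.of R E)
  have := p.injective
  have := p.mono
  exact ⟨p.J, Module.injective_module_of_injective_object R p.J, p.f.hom,
    (ModuleCat.mono_iff_injective p.f).1 inferInstance⟩

/-- The canonical free cover. -/
noncomputable abbrev cover (R : Type u) [Ring R] (U : Type u) [AddCommGroup U] [Module R U] :
    (U →₀ R) →ₗ[R] U := Finsupp.linearCombination R (id : U → U)

theorem cover_surjective : Function.Surjective (cover R U) := fun x =>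
  ⟨Finsupp.single x 1, by simp [cover]⟩

theorem EZ.syz_iff {F K : Type u} [AddCommGroup F] [Module R F] [AddCommGroup K] [Module R K]
    [Module.Projective R F] {a : K →ₗ[R] F} {b : F →ₗ[R] U} (h : SE a b) (i : ℕ) :
    EZ R K E (i + 1) ↔ EZ R U E (i + 2) :=
  ⟨fun hK => h.con₃ hK (EZ.of_projective _), fun hU => h.con₁ (EZ.of_projective _) hU⟩

theorem EZ.cosyz_iff {I K : Type u} [AddCommGroup I] [Module R I] [AddCommGroup K] [Module R K]
    [Module.Injective R I] {a : E →ₗ[R] I} {b : I →ₗ[R] K} (h : SE a b) (i : ℕ) :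
    EZ R U K (i + 1) ↔ EZ R U E (i + 2) :=
  ⟨fun hK => h.cov₁ hK (EZ.of_injective _), fun hE => h.cov₃ (EZ.of_injective _) hE⟩

end

theorem EZ.pi {ι : Type u} {E : ι → Type u} [∀ a, AddCommGroup (E a)] [∀ a, Module R (E a)]
    (i : ℕ) : ∀ (U : Type u) [AddCommGroup U] [Module R U],
      (∀ a, EZ R U (E a) (i + 1)) → EZ R U (∀ a, E a) (i + 1) := by
  induction i with
  | zero =>
    intro U _ _ h
    have hs := SE.ker (cover R U) cover_surjective
    refine hs.of_extend (fun φ => ?_) (EZ.of_projective _)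
    choose ψ hψ using fun a => hs.extend (h a) (LinearMap.proj a ∘ₗ φ)
    refine ⟨LinearMap.pi ψ, ?_⟩
    ext x a
    exact congr($(hψ a) x)
  | succ i ih =>
    intro U _ _ h
    have hs := SE.ker (cover R U) cover_surjective
    exact (EZ.syz_iff hs i).1 (ih _ fun a => (EZ.syz_iff hs i).2 (h a))

theorem EZ.finsupp_left {U E : Type u} [AddCommGroup U] [Module R U] [AddCommGroup E] [Module R E]
    (h : EZ R U E 1) (X : Type u) : EZ R (X →₀ U) E 1 := by
  obtain ⟨I, _, f, hf⟩ := exists_injective_embedding R E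
  have hs := SE.coker f hf
  refine hs.of_lift (fun φ => ?_) (EZ.of_injective _)
  choose ψ hψ using fun x : X => hs.lift h (φ ∘ₗ Finsupp.lsingle x)
  refine ⟨Finsupp.lsum ℕ ψ, ?_⟩
  ext x y
  simpa using congr($(hψ x) y)

end Pool.Agent.MP_46786a_al
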