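import Pool.Agent.MP_46786a_al.Tilting
import Pool.Agent.MP_46786a_al.Decon
import Pool.Agent.MP_46786a_al.Dual

universe u

namespace Pool.Agent.MP_46786a_al

/-- Codes for finitely presented modules. -/
structure FPM (R : Type u) [Ring R] where
  n : ℕ
  K : Submodule R (Fin n → R)
  fg : K.FG

variable {R : Type u} [Ring R]

/-- The module with a given code. -/
abbrev FPM.car (P : FPM R) : Type u := (Fin P.n → R) ⧸ P.K

instance (P : FPM R) : Module.FinitePresentation R P.car :=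
  Module.finitePresentation_of_surjective P.K.mkQ P.K.mkQ_surjective
    (by rw [Submodule.ker_mkQ]; exact P.fg)

theorem exists_fpm (M : Type u) [AddCommGroup M] [Module R M] [Module.FinitePresentation R M] :
    ∃ P : FPM R, Nonempty (M ≃ₗ[R] P.car) := by
  obtain ⟨n, K, e, h⟩ := Module.FinitePresentation.exists_fin R M
  exact ⟨⟨n, K, h⟩, ⟨e⟩⟩

variable (T : ModuleCat.{u} R)

/-- Injective maps with cokernel in the left class. -/
structure Cof {A B : Type u} [AddCommGroup A] [Module R A] [AddCommGroup B] [Module R B]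
    (f : A →ₗ[R] B) : Prop where
  inj : Function.Injective f
  inA : InA T (B ⧸ LinearMap.range f)

/-- Cells attached to `T`. -/
structure Cell where
  U : FPM R
  V : FPM R
  u : U.car →ₗ[R] V.car
  cof : Cof T u

/-- The family of all cells attached to `T`. -/
abbrev cells : CellFam R where
  C := Cell T
  U c := ModuleCat.of R c.U.car
  V c := ModuleCat.of R c.V.car
  u c := c.u
  inj c := c.cof.inj
  fpU _ := inferInstance
  fpV _ := inferInstance

variable {T}

section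

variable {A B C E : Type u} [AddCommGroup A] [Module R A] [AddCommGroup B] [Module R B]
    [AddCommGroup C] [Module R C] [AddCommGroup E] [Module R E]
    {f : A →ₗ[R] B} {g : B →ₗ[R] C}

theorem SE.cof (h : SE f g) (hC : InA T C) : Cof T f :=
  ⟨h.inj, hC.equiv ((Submodule.quotEquivOfEq _ _ (LinearMap.exact_iff.1 h.ex).symm).trans
    (g.quotKerEquivOfSurjective h.surj))⟩

theorem SE.quot_comp (f : A →ₗ[R] B) (hg : Function.Injective g) :
    SE ((LinearMap.range f).mapQ (LinearMap.range (g ∘ₗ f)) g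
        (by rintro _ ⟨x, rfl⟩; exact ⟨x, rfl⟩))
      (Submodule.factor (LinearMap.range_comp_le_range f g)) := by
  refine ⟨?_, ?_, Submodule.factor_surjective _⟩
  · rw [injective_iff_map_eq_zero]
    intro x hx
    obtain ⟨x, rfl⟩ := Submodule.Quotient.mk_surjective _ x
    rw [Submodule.mapQ_apply, Submodule.Quotient.mk_eq_zero] at hx
    obtain ⟨y, hy⟩ := hx
    exact (Submodule.Quotient.mk_eq_zero _).2 ⟨y, hg hy⟩
  · intro x
    obtain ⟨x, rfl⟩ := Submodule.Quotient.mk_surjective _ x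
    constructor
    · intro hx
      obtain ⟨y, rfl⟩ := (Submodule.Quotient.mk_eq_zero _).1 hx
      exact ⟨Submodule.Quotient.mk y, rfl⟩
    · rintro ⟨y, hy⟩
      obtain ⟨y, rfl⟩ := Submodule.Quotient.mk_surjective _ y
      rw [← hy]
      exact (Submodule.Quotient.mk_eq_zero _).2 ⟨y, rfl⟩

theorem Cof.comp (hg : Cof T g) (hf : Cof T f) : Cof T (g ∘ₗ f) :=
  ⟨hg.inj.comp hf.inj, (SE.quot_comp f hg.inj).inA₂ hf.inA hg.inA⟩

theorem Cof.cancel (hgf : Cof T (g ∘ₗ f)) (hg : Cof T g) : Cof T f :=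
  ⟨Function.Injective.of_comp (f := g) hgf.inj, (SE.quot_comp f hg.inj).inA₁ hgf.inA hg.inA⟩

theorem Cof.of_equiv (e : A ≃ₗ[R] B) : Cof T e.toLinearMap := by
  refine ⟨e.injective, ?_⟩
  have : Subsingleton (B ⧸ LinearMap.range e.toLinearMap) := by
    rw [LinearEquiv.range]
    infer_instance
  exact InA.of_subsingleton

theorem Cof.exists_cell [Module.FinitePresentation R A] [Module.FinitePresentation R B]
    (hf : Cof T f) : ∃ (c : Cell T) (a : A ≃ₗ[R] c.U.car) (b : B ≃ₗ[R] c.V.car),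
      c.u = b.toLinearMap ∘ₗ f ∘ₗ a.symm.toLinearMap := by
  obtain ⟨P, ⟨a⟩⟩ := exists_fpm (R := R) A
  obtain ⟨Q, ⟨b⟩⟩ := exists_fpm (R := R) B
  exact ⟨⟨P, Q, _, (Cof.of_equiv b).comp (hf.comp (Cof.of_equiv a.symm))⟩, a, b, rfl⟩

theorem Cof.extend [Module.FinitePresentation R A] [Module.FinitePresentation R B]
    (hf : Cof T f) (hE : (cells T).Perp E) (ψ : A →ₗ[R] E) : ∃ τ : B →ₗ[R] E, τ ∘ₗ f = ψ := by
  obtain ⟨c, a, b, h⟩ := hf.exists_cell
  obtain ⟨τ, hτ⟩ := hE c (ψ ∘ₗ a.symm.toLinearMap)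
  refine ⟨τ ∘ₗ b.toLinearMap, ?_⟩
  ext x
  have := congr($hτ (a x))
  simpa [h] using this

theorem InB.perp (hE : InB T 0 E) : (cells T).Perp E := fun c ψ =>
  (SE.coker c.u c.cof.inj).extend (c.cof.inA E hE) ψ

theorem SE.prodMap {A' B' C' : Type u} [AddCommGroup A'] [Module R A'] [AddCommGroup B']
    [Module R B'] [AddCommGroup C'] [Module R C'] {f' : A' →ₗ[R] B'} {g' : B' →ₗ[R] C'}
    (h : SE f g) (h' : SE f' g') : SE (f.prodMap f') (g.prodMap g') := by
  refine ⟨h.inj.prodMap h'.inj, fun x => ?_, h.surj.prodMap h'.surj⟩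
  constructor
  · intro hx
    obtain ⟨a, ha⟩ := (h.ex x.1).1 (congrArg Prod.fst hx)
    obtain ⟨a', ha'⟩ := (h'.ex x.2).1 (congrArg Prod.snd hx)
    exact ⟨(a, a'), Prod.ext ha ha'⟩
  · rintro ⟨a, rfl⟩
    exact Prod.ext (h.ex.apply_apply_eq_zero _) (h'.ex.apply_apply_eq_zero _)

end

theorem CellCx.inA_quot {X : Type u} [AddCommGroup X] [Module R X] (𝒳 : CellCx (cells T) X)
    {G : Set 𝒳.Λ} (hG : 𝒳.RC G) : InA T (X ⧸ 𝒳.sub G) :=
  fun E _ _ hE => 𝒳.ez_quot hG fun c => c.cof.inA E hE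

theorem CellCx.inA {X : Type u} [AddCommGroup X] [Module R X] (𝒳 : CellCx (cells T) X) :
    InA T X :=
  (𝒳.inA_quot (G := ∅) (fun _ h => h.elim)).equiv
    (Submodule.quotEquivOfEqBot _ (by simp [CellCx.sub])).symm

theorem exists_cell_retract (K : Type u) [AddCommGroup K] [Module R K]
    (hK : ∀ (M : Type u) [AddCommGroup M] [Module R M], (cells T).Perp M → EZ R K M 1) :
    ∃ (X : ModuleCat.{u} R) (_ : CellCx (cells T) X) (i : K →ₗ[R] X) (π : X →ₗ[R] K),
      π ∘ₗ i = LinearMap.id := by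
  obtain ⟨X, 𝒳, p, hp⟩ := exists_cellCx (cells T) K
  have hsurj : Function.Surjective p := by
    intro k
    have hc : Cof T (0 : PUnit.{u + 1} →ₗ[R] R) :=
      (SE.mk (fun _ _ _ => Subsingleton.elim _ _)
        (by rw [LinearMap.exact_iff]; simp) Function.surjective_id :
        SE (0 : PUnit.{u + 1} →ₗ[R] R) LinearMap.id).cof InA.of_projective
    obtain ⟨c, a, b, h⟩ := hc.exists_cell
    obtain ⟨σ, -, hσ⟩ := hp c 0 (LinearMap.toSpanSingleton R K k ∘ₗ b.symm.toLinearMap)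
      (by simp [h])
    exact ⟨σ (b 1), by simpa using congr($hσ (b 1))⟩
  have hker : (cells T).Perp (LinearMap.ker p) := by
    intro c ψ
    obtain ⟨σ, h1, h2⟩ := hp c ((LinearMap.ker p).subtype ∘ₗ ψ) 0
      (LinearMap.ext fun x => (ψ x).2)
    exact ⟨σ.codRestrict _ fun v => congr($h2 v), LinearMap.ext fun x => Subtype.ext congr($h1 x)⟩
  obtain ⟨i, hi⟩ := (SE.ker p hsurj).lift (hK _ hker) LinearMap.id
  exact ⟨X, 𝒳, i, p, hi⟩

theorem dd_extend_free {X K U J M : Type u} [AddCommGroup X] [Module R X] [AddCommGroup K]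
    [Module R K] [AddCommGroup U] [Module R U] [AddCommGroup M] [Module R M]
    (𝒳 : CellCx (cells T) X) (i : K →ₗ[R] X) (π : X →ₗ[R] K) (hπ : π ∘ₗ i = LinearMap.id)
    {ι : K →ₗ[R] J →₀ R} {p : (J →₀ R) →ₗ[R] U} (hs : SE ι p) (hU : InA T U)
    (hM : (cells T).Perp M) (ψ : K →ₗ[R] DD R M) :
    ∃ y : (J →₀ R) →ₗ[R] DD R M, y ∘ₗ ι = ψ := by
  classical
  have hπ' : ∀ k, π (i k) = k := fun k => congr($hπ k)
  have hK : InA T K := hs.inA₁ InA.of_projective hU
  let σ : X →ₗ[R] (J →₀ R) × X := LinearMap.prod (ι ∘ₗ π) (LinearMap.id - i ∘ₗ π)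
  have hσ : Cof T σ := by
    refine SE.cof (g := p.prodMap π) ⟨?_, fun x => ?_, ?_⟩ (hU.prod hK)
    · rw [injective_iff_map_eq_zero]
      intro x hx
      have h1 : π x = 0 := hs.inj ((congrArg Prod.fst hx).trans (map_zero ι).symm)
      have h2 : x - i (π x) = 0 := congrArg Prod.snd hx
      simpa [h1] using h2
    · constructor
      · intro hx
        obtain ⟨k, hk⟩ := (hs.ex x.1).1 (congrArg Prod.fst hx)
        have h2 : π x.2 = 0 := congrArg Prod.snd hx
        exact ⟨i k + x.2, Prod.ext (by simp [σ, hπ', h2, hk]) (by simp [σ, hπ', h2])⟩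
      · rintro ⟨x, rfl⟩
        exact Prod.ext (hs.ex.apply_apply_eq_zero _) (by simp [σ, hπ'])
    · exact hs.surj.prodMap fun k => ⟨i k, hπ' k⟩
  obtain ⟨y, hy⟩ := dd_crit (ι : K → J →₀ R) (ψ : K → DD R M) (fun s w hw => by
    obtain ⟨G, hG, hG'⟩ := CellCx.exists_closed_of_fg (𝒳 := 𝒳)
      (Submodule.fg_span (s.finite_toSet.image i))
    have hfp := CellCx.finitePresentation_sub G hG
    obtain ⟨H, hH, hH'⟩ := CellCx.exists_closed_of_fg (𝒳 := 𝒳)
      (Submodule.fg_range ((LinearMap.id - i ∘ₗ π) ∘ₗ (𝒳.sub G).subtype))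
    have hfp' := CellCx.finitePresentation_sub H hH
    obtain ⟨J₀, hJ₀⟩ := exists_support_finsupp (ι ∘ₗ π ∘ₗ (𝒳.sub G).subtype)
    let F₀ := Finsupp.supported R R (J₀ : Set J)
    have hfp'' : Module.FinitePresentation R F₀ :=
      Module.FinitePresentation.of_equiv (M := (J₀ : Set J) →₀ R) (N := F₀)
        (Finsupp.supportedEquivFinsupp (J₀ : Set J)).symm
    let σ₀ : 𝒳.sub G →ₗ[R] F₀ × 𝒳.sub H := LinearMap.prod
      ((ι ∘ₗ π ∘ₗ (𝒳.sub G).subtype).codRestrict F₀ fun x => Finset.coe_subset.2 (hJ₀ x))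
      (((LinearMap.id - i ∘ₗ π) ∘ₗ (𝒳.sub G).subtype).codRestrict _ fun x => hH' ⟨x, rfl⟩)
    have hF₀ : SE (A := F₀) F₀.subtype (Finsupp.lsubtypeDomain (R := R) (M := R) (J₀ : Set J)ᶜ) := by
      refine ⟨F₀.injective_subtype, fun x => ?_, fun x => ⟨x.extendDomain, ?_⟩⟩
      · constructor
        · intro hx
          refine ⟨⟨x, fun a ha => ?_⟩, rfl⟩
          by_contra h
          exact Finsupp.mem_support_iff.1 ha congr($hx ⟨a, h⟩)
        · rintro ⟨x, rfl⟩
          ext a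
          exact (Finsupp.notMem_support_iff (f := x.1)).1 fun h => a.2 (x.2 h)
      · exact Finsupp.subtypeDomain_extendDomain x
    have hinc := (hF₀.prodMap (SE.sub _)).cof (InA.of_projective.prod (𝒳.inA_quot hH))
    have hcomp := hσ.comp ((SE.sub _).cof (𝒳.inA_quot hG))
    have hσ₀ := Cof.cancel (A := 𝒳.sub G) (f := σ₀) (by exact hcomp) hinc
    have hmem : ∀ k ∈ s, i k ∈ 𝒳.sub G := fun k hk =>
      hG' (Submodule.subset_span ⟨k, hk, rfl⟩)
    have := nec_fp (M := M) (𝒳.sub G) (ψ ∘ₗ π ∘ₗ (𝒳.sub G).subtype) s Finset.univ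
      (fun k => w k) (fun k => ⟨i k, hmem k k.2⟩) (fun z' => by
        obtain ⟨z'', hz''⟩ := hσ₀.extend hM z'
        rw [← hw (z'' ∘ₗ LinearMap.inl R _ _ ∘ₗ Finsupp.restrictDom R R (J₀ : Set J)),
          ← Finset.sum_coe_sort s]
        refine Finset.sum_congr rfl fun k _ => ?_
        rw [← hz'']
        simp only [LinearMap.comp_apply]
        congr 2
        refine Prod.ext (Subtype.ext ?_) (Subtype.ext ?_)
        · have h1 := hJ₀ ⟨i k, hmem k k.2⟩
          simp only [LinearMap.comp_apply, Submodule.subtype_apply, hπ'] at h1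
          change ι (π (i k)) = (Finsupp.restrictDom R R (J₀ : Set J) (ι k) : J →₀ R)
          rw [hπ', Finsupp.restrictDom_apply]
          ext a
          by_cases ha : a ∈ J₀
          · simp [ha]
          · simp [ha, Finsupp.notMem_support_iff.1 fun h => ha (h1 h)]
        · simp [σ₀, hπ'])
    rw [← Finset.sum_coe_sort s]
    simpa [hπ'] using this)
  exact ⟨y, LinearMap.ext hy⟩

theorem CellFam.Perp.dd {𝒞 : CellFam R} {M : Type u} [AddCommGroup M] [Module R M]
    (h : 𝒞.Perp M) : 𝒞.Perp (DD R M) := fun c ψ => dd_extend (𝒞.u c) (h c) ψ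

variable {n : ℕ}

theorem IsTilting.inB_of_perp_aux (hT : IsTilting n T) (m : ℕ) :
    ∀ k, n ≤ k + m → ∀ (M : Type u) [AddCommGroup M] [Module R M],
      (cells T).Perp M → InB T k M := by
  induction m with
  | zero => intro k hk M _ _ _; exact (hT.inB_top _).mono (by omega)
  | succ m ih =>
    intro k hk
    have ih' := ih (k + 1) (by omega)
    obtain ⟨U, hU, hU'⟩ := exists_syzygy T k
    have hs := SE.ker (cover R U) cover_surjective
    obtain ⟨X, 𝒳, i, π, hπ⟩ := exists_cell_retract (T := T) (LinearMap.ker (cover R U))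
      (fun M _ _ hM => (EZ.syz_iff hs 0).2 ((hU' M 1).2 (ih' M hM (1 + k) (by omega))))
    have key : ∀ (M : Type u) [AddCommGroup M] [Module R M], (cells T).Perp M →
        (∀ ψ : LinearMap.ker (cover R U) →ₗ[R] M, ∃ y : (U →₀ R) →ₗ[R] M,
          y ∘ₗ (LinearMap.ker (cover R U)).subtype = ψ) → InB T k M := by
      intro M _ _ hM h j hj
      rcases hj.eq_or_lt with rfl | hj
      · have := (hU' M 0).1 (hs.of_extend h (EZ.of_projective _))
        rwa [zero_add] at this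
      · exact ih' M hM j hj
    intro M _ _ hM
    have hE : InB T k (DD R M) := key _ hM.dd (dd_extend_free 𝒳 i π hπ hs hU hM)
    have hW : InB T k (𝒳.W (DD R M)) := hT.inB_dfinsupp k _ fun _ => InB.pi fun _ => hE
    have hW' : EZ R U (𝒳.W (DD R M)) 1 := (hU' _ 0).2 (by rw [zero_add]; exact hW k le_rfl)
    exact key M hM (𝒳.extend_of_pure (K := LinearMap.ker (cover R U)) i π hπ _ (ev R M)
      (fun κ s g b y => dd_pure s g b y) hM.dd (hs.extend hW'))

theorem IsTilting.inB_of_perp (hT : IsTilting n T) {M : Type u} [AddCommGroup M] [Module R M]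
    (hM : (cells T).Perp M) : InB T 0 M :=
  hT.inB_of_perp_aux n 0 (by omega) M hM

theorem IsTilting.factor_fp (hT : IsTilting n T) {U P : Type u} [AddCommGroup U] [Module R U]
    [AddCommGroup P] [Module R P] [Module.Finite R P] (hU : InA T U) (φ : P →ₗ[R] U) :
    ∃ (S : FPM R) (a : P →ₗ[R] S.car) (b : S.car →ₗ[R] U), InA T S.car ∧ b ∘ₗ a = φ := by
  obtain ⟨X, 𝒳, i, π, hπ⟩ := exists_cell_retract (T := T) U
    (fun M _ _ hM => hU M (hT.inB_of_perp hM))
  obtain ⟨G, hG, hG'⟩ := CellCx.exists_closed_of_fg (𝒳 := 𝒳) (Submodule.fg_range (i ∘ₗ φ))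
  have hfp := CellCx.finitePresentation_sub G hG
  obtain ⟨S, ⟨e⟩⟩ := exists_fpm (R := R) (𝒳.sub G)
  refine ⟨S, e.toLinearMap ∘ₗ (i ∘ₗ φ).codRestrict _ fun x => hG' ⟨x, rfl⟩,
    π ∘ₗ (𝒳.sub G).subtype ∘ₗ e.symm.toLinearMap,
    ((SE.sub _).inA₁ 𝒳.inA (𝒳.inA_quot hG)).equiv e.symm, ?_⟩
  ext x
  simpa using congr($hπ (φ x))

end Pool.Agent.MP_46786a_al
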