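import Pool.Agent.MP_46786a_al.ExtBasic

universe v v' u

namespace Pool.Agent.MP_46786a_al

/-- A small family of cells: injective maps between finitely presented modules. -/
structure CellFam (R : Type u) [Ring R] where
  C : Type u
  U : C → ModuleCat.{u} R
  V : C → ModuleCat.{u} R
  u : ∀ c, U c →ₗ[R] V c
  inj : ∀ c, Function.Injective (u c)
  fpU : ∀ c, Module.FinitePresentation R (U c)
  fpV : ∀ c, Module.FinitePresentation R (V c)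

attribute [instance] CellFam.fpU CellFam.fpV

variable {R : Type u} [Ring R] (𝒞 : CellFam R) (Q₀ : Type u) [AddCommGroup Q₀] [Module R Q₀]

/-- A module over the base `Q₀` with chosen fillers for all squares from cells. -/
structure Alg where
  car : ModuleCat.{v} R
  q : car →ₗ[R] Q₀
  fill : ∀ c, (𝒞.U c →ₗ[R] car) → (𝒞.V c →ₗ[R] Q₀) → (𝒞.V c →ₗ[R] car)
  fill_u : ∀ c ψ τ, q ∘ₗ ψ = τ ∘ₗ 𝒞.u c → fill c ψ τ ∘ₗ 𝒞.u c = ψ
  fill_q : ∀ c ψ τ, q ∘ₗ ψ = τ ∘ₗ 𝒞.u c → q ∘ₗ fill c ψ τ = τ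

variable {𝒞 Q₀}

/-- Morphisms of algebras. -/
structure IsHom (A : Alg.{v} 𝒞 Q₀) (B : Alg.{v'} 𝒞 Q₀) (φ : A.car →ₗ[R] B.car) : Prop where
  q : B.q ∘ₗ φ = A.q
  fill : ∀ c ψ τ, A.q ∘ₗ ψ = τ ∘ₗ 𝒞.u c → φ ∘ₗ A.fill c ψ τ = B.fill c (φ ∘ₗ ψ) τ

theorem IsHom.id (A : Alg.{v} 𝒞 Q₀) : IsHom A A LinearMap.id :=
  ⟨rfl, fun _ _ _ _ => rfl⟩

theorem IsHom.comp {A : Alg.{u} 𝒞 Q₀} {B : Alg.{v} 𝒞 Q₀} {C : Alg.{v'} 𝒞 Q₀}
    {φ : A.car →ₗ[R] B.car} {χ : B.car →ₗ[R] C.car}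
    (hχ : IsHom B C χ) (hφ : IsHom A B φ) : IsHom A C (χ ∘ₗ φ) := by
  refine ⟨by rw [← LinearMap.comp_assoc, hχ.q, hφ.q], fun c ψ τ h => ?_⟩
  rw [LinearMap.comp_assoc, hφ.fill c ψ τ h, hχ.fill, LinearMap.comp_assoc]
  rw [← LinearMap.comp_assoc, hφ.q, h]

variable {M : Type u} [AddCommGroup M] [Module R M]

variable (𝒞 M) in
/-- Prescribed fillers on a module. -/
abbrev PD := Set (Σ c : 𝒞.C, (𝒞.V c →ₗ[R] M))

/-- Prescribed fillers are determined by their image in the base. -/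
def Good (q : M →ₗ[R] Q₀) (D : PD 𝒞 M) : Prop :=
  ∀ c (σ σ' : 𝒞.V c →ₗ[R] M), ⟨c, σ⟩ ∈ D → ⟨c, σ'⟩ ∈ D → q ∘ₗ σ = q ∘ₗ σ' → σ = σ'

/-- Maps from a module with prescribed fillers to an algebra that respect the fillers. -/
structure Compat (q : M →ₗ[R] Q₀) (D : PD 𝒞 M) (A : Alg.{v} 𝒞 Q₀) (h : M →ₗ[R] A.car) :
    Prop where
  base : A.q ∘ₗ h = q
  fill : ∀ c σ, ⟨c, σ⟩ ∈ D → A.fill c (h ∘ₗ σ ∘ₗ 𝒞.u c) (q ∘ₗ σ) = h ∘ₗ σ

theorem Compat.comp {q : M →ₗ[R] Q₀} {D : PD 𝒞 M} {A : Alg.{v} 𝒞 Q₀} {B : Alg.{v'} 𝒞 Q₀}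
    {h : M →ₗ[R] A.car} (hh : Compat q D A h) {φ : A.car →ₗ[R] B.car} (hφ : IsHom A B φ) :
    Compat q D B (φ ∘ₗ h) := by
  refine ⟨by rw [← LinearMap.comp_assoc, hφ.q, hh.base], fun c σ hσ => ?_⟩
  rw [LinearMap.comp_assoc, ← hφ.fill, hh.fill c σ hσ, LinearMap.comp_assoc]
  rw [← LinearMap.comp_assoc, hh.base, LinearMap.comp_assoc]

/-- A submodule of an algebra closed under the fillers. -/
def Alg.Closed (A : Alg.{v} 𝒞 Q₀) (N : Submodule R A.car) : Prop :=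
  ∀ c ψ τ, A.q ∘ₗ ψ = τ ∘ₗ 𝒞.u c → LinearMap.range ψ ≤ N → LinearMap.range (A.fill c ψ τ) ≤ N

/-- The free algebra on a module with prescribed fillers. -/
structure IsFree (q : M →ₗ[R] Q₀) (D : PD 𝒞 M) (Z : Alg.{u} 𝒞 Q₀) (η : M →ₗ[R] Z.car) :
    Prop where
  compat : Compat q D Z η
  inj : Function.Injective η
  univ : ∀ (A : Alg.{u} 𝒞 Q₀) (h : M →ₗ[R] A.car), Compat q D A h →
    ∃ φ, IsHom Z A φ ∧ φ ∘ₗ η = h
  gen : ∀ N : Submodule R Z.car, LinearMap.range η ≤ N → Z.Closed N → N = ⊤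

theorem IsFree.hom_ext {q : M →ₗ[R] Q₀} {D : PD 𝒞 M} {Z : Alg.{u} 𝒞 Q₀} {η : M →ₗ[R] Z.car}
    (hZ : IsFree q D Z η) {A : Alg.{v} 𝒞 Q₀} {φ φ' : Z.car →ₗ[R] A.car} (hφ : IsHom Z A φ)
    (hφ' : IsHom Z A φ') (h : φ ∘ₗ η = φ' ∘ₗ η) : φ = φ' := by
  have := hZ.gen (LinearMap.eqLocus φ φ') (by
    rintro _ ⟨x, rfl⟩
    exact congr($h x)) (by
    intro c ψ τ hc hψ
    have h1 : φ ∘ₗ ψ = φ' ∘ₗ ψ := LinearMap.ext fun x => hψ ⟨x, rfl⟩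
    rintro _ ⟨x, rfl⟩
    have h2 : φ ∘ₗ Z.fill c ψ τ = φ' ∘ₗ Z.fill c ψ τ := by
      rw [hφ.fill c ψ τ hc, hφ'.fill c ψ τ hc, h1]
    exact congr($h2 x))
  exact LinearMap.eqLocus_eq_top.1 this

section adjust

open Classical in
/-- Change the fillers of an algebra so that they respect prescribed fillers. -/
noncomputable def Alg.adjust (A : Alg.{v} 𝒞 Q₀) (q : M →ₗ[R] Q₀) (D : PD 𝒞 M)
    (h : M →ₗ[R] A.car) (hq : A.q ∘ₗ h = q) : Alg.{v} 𝒞 Q₀ where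
  car := A.car
  q := A.q
  fill c ψ τ :=
    if H : ∃ σ, ⟨c, σ⟩ ∈ D ∧ ψ = h ∘ₗ σ ∘ₗ 𝒞.u c ∧ τ = q ∘ₗ σ then h ∘ₗ H.choose
    else A.fill c ψ τ
  fill_u c ψ τ hc := by
    split_ifs with H
    · exact H.choose_spec.2.1.symm
    · exact A.fill_u c ψ τ hc
  fill_q c ψ τ hc := by
    split_ifs with H
    · rw [← LinearMap.comp_assoc, hq]; exact H.choose_spec.2.2.symm
    · exact A.fill_q c ψ τ hc

theorem Alg.adjust_compat (A : Alg.{v} 𝒞 Q₀) {q : M →ₗ[R] Q₀} {D : PD 𝒞 M} (hD : Good q D)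
    (h : M →ₗ[R] A.car) (hq : A.q ∘ₗ h = q) : Compat q D (A.adjust q D h hq) h := by
  refine ⟨hq, fun c σ hσ => ?_⟩
  have H : ∃ σ', ⟨c, σ'⟩ ∈ D ∧ h ∘ₗ σ ∘ₗ 𝒞.u c = h ∘ₗ σ' ∘ₗ 𝒞.u c ∧ q ∘ₗ σ = q ∘ₗ σ' :=
    ⟨σ, hσ, rfl, rfl⟩
  refine (dif_pos H : (A.adjust q D h hq).fill c _ _ = _).trans ?_
  exact congrArg (h ∘ₗ ·) (hD c σ _ hσ H.choose_spec.1 H.choose_spec.2.2).symm

theorem Alg.adjust_fill (A : Alg.{v} 𝒞 Q₀) (q : M →ₗ[R] Q₀) (D : PD 𝒞 M)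
    (h : M →ₗ[R] A.car) (hq : A.q ∘ₗ h = q) (c : 𝒞.C) (ψ : 𝒞.U c →ₗ[R] A.car)
    (τ : 𝒞.V c →ₗ[R] Q₀) :
    (∃ σ, ⟨c, σ⟩ ∈ D ∧ ψ = h ∘ₗ σ ∘ₗ 𝒞.u c ∧ τ = q ∘ₗ σ ∧
      (A.adjust q D h hq).fill c ψ τ = h ∘ₗ σ) ∨
    (A.adjust q D h hq).fill c ψ τ = A.fill c ψ τ := by
  by_cases H : ∃ σ, ⟨c, σ⟩ ∈ D ∧ ψ = h ∘ₗ σ ∘ₗ 𝒞.u c ∧ τ = q ∘ₗ σ
  · exact Or.inl ⟨H.choose, H.choose_spec.1, H.choose_spec.2.1, H.choose_spec.2.2, dif_pos H⟩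
  · exact Or.inr (dif_neg H)

end adjust

/-- The product of an algebra with a module having chosen extensions along cells. -/
noncomputable def Alg.prodWith (A : Alg.{u} 𝒞 Q₀) (Q : Type u) [AddCommGroup Q] [Module R Q]
    (ρ : ∀ c, (𝒞.U c →ₗ[R] A.car) → (𝒞.V c →ₗ[R] Q₀) → (𝒞.U c →ₗ[R] Q) → (𝒞.V c →ₗ[R] Q))
    (hρ : ∀ c ψ τ ψ', A.q ∘ₗ ψ = τ ∘ₗ 𝒞.u c → ρ c ψ τ ψ' ∘ₗ 𝒞.u c = ψ') : Alg.{u} 𝒞 Q₀ where
  car := ModuleCat.of R (A.car × Q)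
  q := A.q ∘ₗ LinearMap.fst R _ _
  fill c ψ τ := LinearMap.prod (A.fill c (LinearMap.fst R _ _ ∘ₗ ψ) τ)
    (ρ c (LinearMap.fst R _ _ ∘ₗ ψ) τ (LinearMap.snd R _ _ ∘ₗ ψ))
  fill_u c ψ τ hc := by
    rw [LinearMap.prod_comp, A.fill_u c _ τ hc, hρ c _ τ _ hc]
    rfl
  fill_q c ψ τ hc := A.fill_q c _ τ hc

/-- The base as an algebra over itself. -/
def Alg.base (𝒞 : CellFam R) (Q₀ : Type u) [AddCommGroup Q₀] [Module R Q₀] : Alg.{u} 𝒞 Q₀ where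
  car := ModuleCat.of R Q₀
  q := LinearMap.id
  fill _ _ τ := τ
  fill_u _ _ _ hc := hc.symm
  fill_q _ _ _ _ := rfl

theorem exists_injective_compat {q : M →ₗ[R] Q₀} {D : PD 𝒞 M} (hD : Good q D) :
    ∃ (A : Alg.{u} 𝒞 Q₀) (h : M →ₗ[R] A.car), Compat q D A h ∧ Function.Injective h := by
  obtain ⟨I, hI, f, hf⟩ := exists_injective_embedding R M
  choose ρ hρ using fun (c : 𝒞.C) (ψ' : 𝒞.U c →ₗ[R] I) => hI.out (𝒞.u c) (𝒞.inj c) ψ'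
  let A := (Alg.base 𝒞 Q₀).prodWith I (fun c _ _ ψ' => ρ c ψ')
    (fun c _ _ ψ' _ => LinearMap.ext (hρ c ψ'))
  refine ⟨_, _, A.adjust_compat hD (LinearMap.prod q f) rfl, fun x y hxy => hf ?_⟩
  exact congrArg Prod.snd hxy

/-- Pull an algebra structure back along an injective map with closed range. -/
theorem Alg.exists_restrict (P : Alg.{v} 𝒞 Q₀) (Z : Type u) [AddCommGroup Z] [Module R Z]
    (ι : Z →ₗ[R] P.car) (hι : Function.Injective ι) (hcl : P.Closed (LinearMap.range ι)) :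
    ∃ (A : Alg.{u} 𝒞 Q₀) (e : A.car ≃ₗ[R] Z), IsHom A P (ι ∘ₗ e.toLinearMap) := by
  classical
  have key : ∀ c (ψ : 𝒞.U c →ₗ[R] Z) (τ : 𝒞.V c →ₗ[R] Q₀), ∃ σ : 𝒞.V c →ₗ[R] Z,
      (P.q ∘ₗ ι) ∘ₗ ψ = τ ∘ₗ 𝒞.u c → ι ∘ₗ σ = P.fill c (ι ∘ₗ ψ) τ := by
    intro c ψ τ
    by_cases hc : (P.q ∘ₗ ι) ∘ₗ ψ = τ ∘ₗ 𝒞.u c
    · have h1 := hcl c (ι ∘ₗ ψ) τ hc (LinearMap.range_comp_le_range _ _)
      refine ⟨(LinearEquiv.ofInjective ι hι).symm.toLinearMap ∘ₗ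
        (P.fill c (ι ∘ₗ ψ) τ).codRestrict _ (fun x => h1 ⟨x, rfl⟩), fun _ => ?_⟩
      ext x
      simp
    · exact ⟨0, fun h => (hc h).elim⟩
  choose fl hfl using key
  refine ⟨⟨ModuleCat.of R Z, P.q ∘ₗ ι, fl, fun c ψ τ hc => ?_, fun c ψ τ hc => ?_⟩,
    LinearEquiv.refl R Z, rfl, fun c ψ τ hc => hfl c ψ τ hc⟩
  · ext x
    apply hι
    have := congr($(hfl c ψ τ hc) (𝒞.u c x))
    exact this.trans congr($(P.fill_u c (ι ∘ₗ ψ) τ hc) x)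
  · rw [LinearMap.comp_assoc, hfl c ψ τ hc, P.fill_q c _ τ hc]

/-- The fibred product over the base of a family of algebras. -/
noncomputable def Alg.bigProd {J : Type v'} (A : J → Alg.{u} 𝒞 Q₀) : Alg.{max u v'} 𝒞 Q₀ := by
  classical
  exact
  { car := ModuleCat.of R (LinearMap.eqLocus
      (LinearMap.pi fun j => (A j).q ∘ₗ LinearMap.proj j ∘ₗ LinearMap.fst R (∀ j, (A j).car) Q₀)
      (LinearMap.pi fun _ : J => LinearMap.snd R (∀ j, (A j).car) Q₀))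
    q := LinearMap.snd R _ _ ∘ₗ Submodule.subtype _
    fill := fun c ψ τ =>
      if hc : (LinearMap.snd R _ _ ∘ₗ Submodule.subtype _) ∘ₗ ψ = τ ∘ₗ 𝒞.u c then
        LinearMap.codRestrict _ (LinearMap.prod (LinearMap.pi fun j => (A j).fill c
          (LinearMap.proj j ∘ₗ LinearMap.fst R _ _ ∘ₗ Submodule.subtype _ ∘ₗ ψ) τ) τ)
          (fun x => by
            funext j
            refine congr($((A j).fill_q c _ τ ?_) x)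
            rw [← hc]
            ext y
            exact congrFun (ψ y).2 j)
      else 0
    fill_u := fun c ψ τ hc => by
      rw [dif_pos hc]
      ext x : 1
      apply Subtype.ext
      refine Prod.ext (funext fun j => ?_) congr($hc x).symm
      refine LinearMap.congr_fun ((A j).fill_u c
        (LinearMap.proj j ∘ₗ LinearMap.fst R _ _ ∘ₗ Submodule.subtype _ ∘ₗ ψ) τ ?_) x
      rw [← hc]
      ext y
      exact congrFun (ψ y).2 j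
    fill_q := fun c ψ τ hc => by
      rw [dif_pos hc]
      rfl }

/-- Projection from the fibred product. -/
noncomputable def Alg.bigProj {J : Type v'} (A : J → Alg.{u} 𝒞 Q₀) (j : J) :
    (Alg.bigProd A).car →ₗ[R] (A j).car :=
  LinearMap.proj j ∘ₗ LinearMap.fst R _ _ ∘ₗ Submodule.subtype _

theorem Alg.isHom_bigProj {J : Type v'} (A : J → Alg.{u} 𝒞 Q₀) (j : J) :
    IsHom (Alg.bigProd A) (A j) (Alg.bigProj A j) := by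
  refine ⟨?_, fun c ψ τ hc => ?_⟩
  · ext y
    exact congrFun y.2 j
  · exact congrArg (Alg.bigProj A j ∘ₗ ·) (dif_pos hc : (Alg.bigProd A).fill c ψ τ = _)

theorem Alg.bigProd_ext {J : Type v'} (A : J → Alg.{u} 𝒞 Q₀) {x y : (Alg.bigProd A).car}
    (h : ∀ j, Alg.bigProj A j x = Alg.bigProj A j y)
    (hq : (Alg.bigProd A).q x = (Alg.bigProd A).q y) : x = y :=
  Subtype.ext (Prod.ext (funext h) hq)

theorem Alg.exists_bigLift {J : Type v'} (A : J → Alg.{u} 𝒞 Q₀) (q : M →ₗ[R] Q₀)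
    (h : ∀ j, M →ₗ[R] (A j).car) (hh : ∀ j, (A j).q ∘ₗ h j = q) :
    ∃ η : M →ₗ[R] (Alg.bigProd A).car, (∀ j, Alg.bigProj A j ∘ₗ η = h j) ∧
      (Alg.bigProd A).q ∘ₗ η = q :=
  ⟨LinearMap.codRestrict _ (LinearMap.prod (LinearMap.pi h) q)
    (fun x => funext fun j => congr($(hh j) x)), fun _ => rfl, rfl⟩

/-- The stages of the subalgebra generated by a submodule. -/
noncomputable def Alg.stage (P : Alg.{v} 𝒞 Q₀) (N : Submodule R P.car) : ℕ → Submodule R P.car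
  | 0 => N
  | l + 1 => stage P N l ⊔
      ⨆ s : {s : Σ c : 𝒞.C, (𝒞.U c →ₗ[R] stage P N l) × (𝒞.V c →ₗ[R] Q₀) //
          P.q ∘ₗ (stage P N l).subtype ∘ₗ s.2.1 = s.2.2 ∘ₗ 𝒞.u s.1},
        LinearMap.range (P.fill s.1.1 ((stage P N l).subtype ∘ₗ s.1.2.1) s.1.2.2)

theorem Alg.stage_mono (P : Alg.{v} 𝒞 Q₀) (N : Submodule R P.car) : Monotone (P.stage N) :=
  monotone_nat_of_le_succ fun _ => le_sup_left

theorem Alg.fill_le_stage (P : Alg.{v} 𝒞 Q₀) (N : Submodule R P.car) (l : ℕ) (c : 𝒞.C)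
    (ψ : 𝒞.U c →ₗ[R] P.car) (τ : 𝒞.V c →ₗ[R] Q₀) (hc : P.q ∘ₗ ψ = τ ∘ₗ 𝒞.u c)
    (hψ : LinearMap.range ψ ≤ P.stage N l) :
    LinearMap.range (P.fill c ψ τ) ≤ P.stage N (l + 1) :=
  le_sup_of_le_right (le_iSup_of_le
    ⟨⟨c, ψ.codRestrict _ (fun x => hψ ⟨x, rfl⟩), τ⟩, hc⟩ le_rfl)

theorem Alg.stage_le (P : Alg.{v} 𝒞 Q₀) {N N' : Submodule R P.car} (h : N ≤ N')
    (hN' : P.Closed N') (l : ℕ) : P.stage N l ≤ N' := by
  induction l with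
  | zero => exact h
  | succ l ih =>
    refine sup_le ih (iSup_le fun s => hN' _ _ _ s.2 ?_)
    rintro _ ⟨x, rfl⟩
    exact ih (s.1.2.1 x).2

theorem exists_le_of_fg_le_iSup {P : Type v} [AddCommGroup P] [Module R P] {L : Submodule R P}
    (hL : L.FG) {N : ℕ → Submodule R P} (hN : Monotone N) (h : L ≤ ⨆ l, N l) :
    ∃ l, L ≤ N l := by
  obtain ⟨s, hs⟩ := CompleteLattice.IsCompactElement.exists_finset_of_le_iSup _
    ((Submodule.fg_iff_compact L).1 hL) N h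
  exact ⟨s.sup id, hs.trans (iSup₂_le fun i hi => hN (Finset.le_sup (f := id) hi))⟩

theorem Alg.closed_iSup_stage (P : Alg.{v} 𝒞 Q₀) (N : Submodule R P.car) :
    P.Closed (⨆ l, P.stage N l) := by
  intro c ψ τ hc hψ
  obtain ⟨l, hl⟩ := exists_le_of_fg_le_iSup (Submodule.fg_range ψ) (P.stage_mono N) hψ
  exact (P.fill_le_stage N l c ψ τ hc hl).trans (le_iSup (P.stage N) (l + 1))

theorem Alg.small_stage (P : Alg.{v} 𝒞 Q₀) (N : Submodule R P.car) [Small.{u} N] (l : ℕ) :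
    Small.{u} (P.stage N l) := by
  induction l with
  | zero => exact inferInstanceAs (Small.{u} N)
  | succ l ih =>
    have h1 : ∀ c, Small.{u} (𝒞.U c →ₗ[R] P.stage N l) := fun c =>
      small_of_injective (f := fun ψ : 𝒞.U c →ₗ[R] P.stage N l => (ψ : _ → _))
        DFunLike.coe_injective
    have h2 : ∀ (c : 𝒞.C) (f : 𝒞.V c →ₗ[R] P.car), Small.{u} (LinearMap.range f) :=
      fun c f => small_range _
    unfold Alg.stage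
    infer_instance

theorem exists_free {q : M →ₗ[R] Q₀} {D : PD 𝒞 M} (hD : Good q D) :
    ∃ (Z : Alg.{u} 𝒞 Q₀) (η : M →ₗ[R] Z.car), IsFree q D Z η := by
  let J := Σ A : Alg.{u} 𝒞 Q₀, {h : M →ₗ[R] A.car // Compat q D A h}
  let A : J → Alg.{u} 𝒞 Q₀ := fun j => j.1
  let P := Alg.bigProd A
  obtain ⟨η, hη, hηq⟩ := Alg.exists_bigLift A q (fun j => j.2.1) (fun j => j.2.2.base)
  have hηc : Compat q D P η := by
    refine ⟨hηq, fun c σ hσ => ?_⟩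
    have hc : P.q ∘ₗ η ∘ₗ σ ∘ₗ 𝒞.u c = (q ∘ₗ σ) ∘ₗ 𝒞.u c := by
      rw [← LinearMap.comp_assoc, hηq, LinearMap.comp_assoc]
    ext x
    refine Alg.bigProd_ext A (fun j => ?_) ?_
    · have h1 := (Alg.isHom_bigProj A j).fill c _ _ hc
      rw [← LinearMap.comp_assoc _ η, hη j, j.2.2.fill c σ hσ, ← hη j] at h1
      exact congr($h1 x)
    · have h1 := P.fill_q c _ _ hc
      rw [← hηq] at h1
      rw [← hηq]
      exact congr($h1 x)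
  have hs0 : Small.{u} (LinearMap.range η) := small_range _
  have hs1 := P.small_stage (LinearMap.range η)
  let Z' : Submodule R P.car := ⨆ l, P.stage (LinearMap.range η) l
  have hs : Small.{u} Z' := inferInstance
  let ι : Shrink.{u} Z' →ₗ[R] P.car := Z'.subtype ∘ₗ (Shrink.linearEquiv R Z').toLinearMap
  have hι : Function.Injective ι := Z'.injective_subtype.comp (Shrink.linearEquiv R Z').injective
  have hr : LinearMap.range ι = Z' := by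
    simp only [ι, LinearMap.range_comp, LinearEquiv.range, Submodule.map_top,
      Submodule.range_subtype]
  obtain ⟨Z, e, hZ⟩ := P.exists_restrict _ ι hι (by rw [hr]; exact P.closed_iSup_stage _)
  set κ := ι ∘ₗ e.toLinearMap with hκ
  have hκi : Function.Injective κ := hι.comp e.injective
  have hκr : LinearMap.range κ = Z' := by
    rw [hκ, LinearMap.range_comp, LinearEquiv.range, Submodule.map_top, hr]
  have hle : LinearMap.range η ≤ LinearMap.range κ :=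
    hκr ▸ le_iSup (P.stage (LinearMap.range η)) 0
  let η' : M →ₗ[R] Z.car := (LinearEquiv.ofInjective κ hκi).symm.toLinearMap ∘ₗ
    η.codRestrict _ (fun x => hle ⟨x, rfl⟩)
  have hη' : κ ∘ₗ η' = η := by
    ext x
    simp [η']
  refine ⟨Z, η', ⟨?_, fun c σ hσ => ?_⟩, ?_, fun B h hh => ?_, fun N hN hcl => ?_⟩
  · rw [← hZ.q, LinearMap.comp_assoc, hη', hηq]
  · have hc : Z.q ∘ₗ η' ∘ₗ σ ∘ₗ 𝒞.u c = (q ∘ₗ σ) ∘ₗ 𝒞.u c := by
      rw [← LinearMap.comp_assoc, ← hZ.q, LinearMap.comp_assoc _ κ, hη', hηq, LinearMap.comp_assoc]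
    have h1 := hZ.fill c _ _ hc
    rw [← LinearMap.comp_assoc _ η', hη', hηc.fill c σ hσ, ← hη'] at h1
    ext x
    exact hκi congr($h1 x)
  · obtain ⟨B, h, hh, hi⟩ := exists_injective_compat hD
    have h1 := hη ⟨B, h, hh⟩
    rw [← hη'] at h1
    intro x y hxy
    apply hi
    have h2 := congr($h1 x)
    have h3 := congr($h1 y)
    simp only [LinearMap.comp_apply] at h2 h3
    rw [← h2, ← h3, hxy]
  · refine ⟨Alg.bigProj A ⟨B, h, hh⟩ ∘ₗ κ, (Alg.isHom_bigProj A ⟨B, h, hh⟩).comp hZ, ?_⟩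
    rw [LinearMap.comp_assoc, hη', hη]
  · have h1 : P.Closed (N.map κ) := by
      intro c ψ τ hc hψ
      have h2 : ∀ x, ψ x ∈ LinearMap.range κ := fun x =>
        LinearMap.map_le_range (hψ ⟨x, rfl⟩)
      let ψ' : 𝒞.U c →ₗ[R] Z.car := (LinearEquiv.ofInjective κ hκi).symm.toLinearMap ∘ₗ
        ψ.codRestrict _ h2
      have hψ' : κ ∘ₗ ψ' = ψ := by
        ext x
        simp [ψ']
      have hc' : Z.q ∘ₗ ψ' = τ ∘ₗ 𝒞.u c := by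
        rw [← hZ.q, LinearMap.comp_assoc, hψ', hc]
      rw [← hψ', ← hZ.fill c ψ' τ hc', LinearMap.range_comp]
      refine Submodule.map_mono (hcl c ψ' τ hc' ?_)
      rintro _ ⟨x, rfl⟩
      obtain ⟨y, hy, hy'⟩ := hψ ⟨x, rfl⟩
      have : y = ψ' x := hκi (hy'.trans congr($hψ' x).symm)
      exact this ▸ hy
    have h3 : Z' ≤ N.map κ := iSup_le fun l => P.stage_le (by
      rw [← hη', LinearMap.range_comp]
      exact Submodule.map_mono hN) h1 l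
    rw [eq_top_iff]
    intro z _
    obtain ⟨y, hy, hy'⟩ := h3 (hκr ▸ ⟨z, rfl⟩ : κ z ∈ Z')
    exact hκi hy' ▸ hy

/-- Recursion principle for free algebras. -/
theorem IsFree.recursion {q : M →ₗ[R] Q₀} {D : PD 𝒞 M} (hD : Good q D) {Z : Alg.{u} 𝒞 Q₀}
    {η : M →ₗ[R] Z.car} (hZ : IsFree q D Z η) (Q : Type u) [AddCommGroup Q] [Module R Q]
    (φ₀ : M →ₗ[R] Q)
    (ρ : ∀ c, (𝒞.U c →ₗ[R] Z.car) → (𝒞.V c →ₗ[R] Q₀) → (𝒞.U c →ₗ[R] Q) → (𝒞.V c →ₗ[R] Q))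
    (hρ : ∀ c ψ τ ψ', Z.q ∘ₗ ψ = τ ∘ₗ 𝒞.u c → ρ c ψ τ ψ' ∘ₗ 𝒞.u c = ψ') :
    ∃ φ : Z.car →ₗ[R] Q, φ ∘ₗ η = φ₀ ∧ ∀ c ψ τ, Z.q ∘ₗ ψ = τ ∘ₗ 𝒞.u c →
      (∃ σ, ⟨c, σ⟩ ∈ D ∧ Z.fill c ψ τ = η ∘ₗ σ) ∨ φ ∘ₗ Z.fill c ψ τ = ρ c ψ τ (φ ∘ₗ ψ) := by
  let A := Z.prodWith Q ρ hρ
  let h : M →ₗ[R] A.car := LinearMap.prod η φ₀
  have hq : A.q ∘ₗ h = q := hZ.compat.base
  obtain ⟨Φ, hΦ, hΦη⟩ := hZ.univ _ _ (A.adjust_compat hD h hq)
  have hfst : IsHom (A.adjust q D h hq) Z (LinearMap.fst R Z.car Q) := by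
    refine ⟨rfl, fun c ψ τ _ => ?_⟩
    rcases A.adjust_fill q D h hq c ψ τ with ⟨σ, hσ, rfl, rfl, h1⟩ | h1
    · rw [h1]
      exact (hZ.compat.fill c σ hσ).symm
    · rw [h1]
      rfl
  have hid : LinearMap.fst R Z.car Q ∘ₗ Φ = LinearMap.id :=
    hZ.hom_ext (hfst.comp hΦ) (IsHom.id Z) (congrArg (LinearMap.fst R Z.car Q ∘ₗ ·) hΦη)
  refine ⟨LinearMap.snd R Z.car Q ∘ₗ Φ, congrArg (LinearMap.snd R Z.car Q ∘ₗ ·) hΦη,
    fun c ψ τ hc => ?_⟩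
  have h2 := hΦ.fill c ψ τ hc
  rcases A.adjust_fill q D h hq c (Φ ∘ₗ ψ) τ with ⟨σ, hσ, -, -, h1⟩ | h1
  · refine Or.inl ⟨σ, hσ, ?_⟩
    have h3 := congrArg (LinearMap.fst R Z.car Q ∘ₗ ·) (h2.trans h1)
    exact (congrArg (· ∘ₗ Z.fill c ψ τ) hid).symm.trans h3
  · refine Or.inr ?_
    have h3 := congrArg (LinearMap.snd R Z.car Q ∘ₗ ·) (h2.trans h1)
    have h4 : LinearMap.fst R Z.car Q ∘ₗ Φ ∘ₗ ψ = ψ := congrArg (· ∘ₗ ψ) hid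
    refine h3.trans ?_
    change ρ c (LinearMap.fst R Z.car Q ∘ₗ Φ ∘ₗ ψ) τ _ = _
    rw [h4]
    rfl

end Pool.Agent.MP_46786a_al
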