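import Pool.Agent.MP_46786a_al.FiniteType

open CategoryTheory CategoryTheory.Limits

universe u

namespace Pool.Agent.MP_46786a_al

variable {R : Type u} [Ring R] (T : ModuleCat.{u} R) (N : ModuleCat.{u} R)

/-- Finite modules over `N` with finitely many prescribed fillers. -/
structure Obj where
  S : FPM R
  inA : InA T S.car
  f : S.car →ₗ[R] N
  D : PD (cells T) S.car
  fin : D.Finite
  good : Good f D

variable {T N}

instance : Category.{u} (Obj T N) where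
  Hom i j := {h : i.S.car →ₗ[R] j.S.car // j.f ∘ₗ h = i.f ∧
    ∀ c σ, ⟨c, σ⟩ ∈ i.D →
      (⟨c, h ∘ₗ σ⟩ : Σ c : (cells T).C, ((cells T).V c →ₗ[R] j.S.car)) ∈ j.D}
  id i := ⟨LinearMap.id, rfl, fun _ _ h => h⟩
  comp a b := ⟨b.1 ∘ₗ a.1, by rw [← LinearMap.comp_assoc, b.2.1, a.2.1],
    fun c σ h => b.2.2 c _ (a.2.2 c σ h)⟩

variable (T N) in
/-- Maps from finitely presented modules to `N` factor through finitely presented modules
of the left class. -/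
def Fac : Prop := ∀ (P : Type u) [AddCommGroup P] [Module R P] [Module.FinitePresentation R P]
  (φ : P →ₗ[R] N), ∃ (S : FPM R) (a : P →ₗ[R] S.car) (b : S.car →ₗ[R] N),
    InA T S.car ∧ b ∘ₗ a = φ

theorem Fac.amalg (hN : Fac T N) (P : Type u) [AddCommGroup P] [Module R P]
    [Module.FinitePresentation R P] (φ : P →ₗ[R] N) (D : PD (cells T) P) (hD : D.Finite)
    (L : Submodule R P) (hL : L.FG) (hL' : L ≤ LinearMap.ker φ) :
    ∃ (k : Obj T N) (h : P →ₗ[R] k.S.car), k.f ∘ₗ h = φ ∧ L ≤ LinearMap.ker h ∧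
      ∀ c σ, ⟨c, σ⟩ ∈ D →
        (⟨c, h ∘ₗ σ⟩ : Σ c : (cells T).C, ((cells T).V c →ₗ[R] k.S.car)) ∈ k.D := by
  let B : Set (Σ c : (cells T).C, ((cells T).V c →ₗ[R] P) × ((cells T).V c →ₗ[R] P)) :=
    {s | ⟨s.1, s.2.1⟩ ∈ D ∧ ⟨s.1, s.2.2⟩ ∈ D ∧ φ ∘ₗ s.2.1 = φ ∘ₗ s.2.2}
  have hB : B.Finite := by
    refine Set.Finite.of_finite_image (f := fun s => ((⟨s.1, s.2.1⟩, ⟨s.1, s.2.2⟩) :
      (Σ c : (cells T).C, ((cells T).V c →ₗ[R] P)) × (Σ c : (cells T).C, ((cells T).V c →ₗ[R] P))))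
      ((hD.prod hD).subset ?_) ?_
    · rintro _ ⟨s, hs, rfl⟩
      exact ⟨hs.1, hs.2.1⟩
    · rintro ⟨c, σ₁, σ₂⟩ - ⟨c', σ₁', σ₂'⟩ - h
      obtain ⟨h1, h2⟩ := Prod.mk.inj h
      obtain ⟨rfl, h3⟩ := Sigma.mk.inj h1
      obtain ⟨-, h4⟩ := Sigma.mk.inj h2
      obtain rfl : σ₁ = σ₁' := eq_of_heq h3
      obtain rfl : σ₂ = σ₂' := eq_of_heq h4
      rfl
  have := hB.to_subtype
  let L' : Submodule R P := L ⊔ ⨆ s : B, LinearMap.range (s.1.2.1 - s.1.2.2)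
  have hfg : L'.FG := hL.sup (Submodule.fg_iSup _ fun s => Submodule.fg_range _)
  have hker : L' ≤ LinearMap.ker φ := sup_le hL' (iSup_le fun s => by
    rw [LinearMap.range_le_ker_iff, LinearMap.comp_sub, s.2.2.2, sub_self])
  have hfp : Module.FinitePresentation R (P ⧸ L') :=
    Module.finitePresentation_of_surjective L'.mkQ L'.mkQ_surjective
      (by rw [Submodule.ker_mkQ]; exact hfg)
  obtain ⟨S, a, b, hS, hab⟩ := hN (P ⧸ L') (L'.liftQ φ hker)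
  have h1 : b ∘ₗ a ∘ₗ L'.mkQ = φ := by
    rw [← LinearMap.comp_assoc, hab, Submodule.liftQ_mkQ]
  have h2 : L' ≤ LinearMap.ker (a ∘ₗ L'.mkQ) := fun x hx => by
    simp [(Submodule.Quotient.mk_eq_zero _).2 hx]
  refine ⟨⟨S, hS, b, (fun s => ⟨s.1, (a ∘ₗ L'.mkQ) ∘ₗ s.2⟩) '' D, hD.image _, ?_⟩,
    a ∘ₗ L'.mkQ, h1, le_sup_left.trans h2, fun c σ h => ⟨⟨c, σ⟩, h, rfl⟩⟩
  rintro c σ σ' ⟨⟨c₁, σ₁⟩, hσ₁, e₁⟩ ⟨⟨c₂, σ₂⟩, hσ₂, e₂⟩ h
  obtain ⟨rfl, e₁'⟩ := Sigma.mk.inj e₁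
  obtain ⟨rfl, e₂'⟩ := Sigma.mk.inj e₂
  obtain rfl := eq_of_heq e₁'
  obtain rfl := eq_of_heq e₂'
  have h' : φ ∘ₗ σ₁ = φ ∘ₗ σ₂ := by
    rw [← h1]
    exact h
  rw [← sub_eq_zero, ← LinearMap.comp_sub, ← LinearMap.range_le_ker_iff]
  exact (le_sup_of_le_right (le_iSup_of_le (⟨⟨_, σ₁, σ₂⟩, hσ₁, hσ₂, h'⟩ : B) le_rfl)).trans h2

theorem Fac.amalg₂ (hN : Fac T N) (i : Obj T N) (P : Type u) [AddCommGroup P] [Module R P]
    [Module.FinitePresentation R P] (φ : P →ₗ[R] N) (D : PD (cells T) P) (hD : D.Finite)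
    (L : Submodule R (i.S.car × P)) (hL : L.FG) (hL' : L ≤ LinearMap.ker (i.f.coprod φ)) :
    ∃ (k : Obj T N) (a : i ⟶ k) (h : P →ₗ[R] k.S.car), k.f ∘ₗ h = φ ∧
      L ≤ LinearMap.ker (a.1.coprod h) ∧
      ∀ c σ, ⟨c, σ⟩ ∈ D →
        (⟨c, h ∘ₗ σ⟩ : Σ c : (cells T).C, ((cells T).V c →ₗ[R] k.S.car)) ∈ k.D := by
  obtain ⟨k, h, h1, h2, h3⟩ := hN.amalg (i.S.car × P) (i.f.coprod φ)
    ((fun s : Σ c : (cells T).C, ((cells T).V c →ₗ[R] i.S.car) =>
        ⟨s.1, LinearMap.inl R _ _ ∘ₗ s.2⟩) '' i.D ∪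
      (fun s : Σ c : (cells T).C, ((cells T).V c →ₗ[R] P) =>
        ⟨s.1, LinearMap.inr R _ _ ∘ₗ s.2⟩) '' D) ((i.fin.image _).union (hD.image _))
    L hL hL'
  refine ⟨k, ⟨h ∘ₗ LinearMap.inl R _ _, ?_, fun c σ hσ => h3 c _ (Or.inl ⟨⟨c, σ⟩, hσ, rfl⟩)⟩,
    h ∘ₗ LinearMap.inr R _ _, ?_, ?_, fun c σ hσ => h3 c _ (Or.inr ⟨⟨c, σ⟩, hσ, rfl⟩)⟩
  · rw [← LinearMap.comp_assoc, h1, LinearMap.coprod_inl]
  · rw [← LinearMap.comp_assoc, h1, LinearMap.coprod_inr]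
  · rwa [LinearMap.coprod_comp_inl_inr]

theorem Fac.isFiltered (hN : Fac T N) : IsFiltered (Obj T N) where
  cocone_objs i j := by
    obtain ⟨k, a, h, h1, -, h2⟩ := hN.amalg₂ i j.S.car j.f j.D j.fin ⊥ Submodule.fg_bot bot_le
    exact ⟨k, a, ⟨h, h1, h2⟩, trivial⟩
  cocone_maps i j a b := by
    obtain ⟨k, h, h1, h2, h3⟩ := hN.amalg j.S.car j.f j.D j.fin (LinearMap.range (a.1 - b.1))
      (Submodule.fg_range _) (by
        rw [LinearMap.range_le_ker_iff, LinearMap.comp_sub, a.2.1, b.2.1, sub_self])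
    refine ⟨k, ⟨h, h1, h3⟩, Subtype.ext ?_⟩
    rw [LinearMap.range_le_ker_iff, LinearMap.comp_sub, sub_eq_zero] at h2
    exact h2
  nonempty := by
    obtain ⟨k, -⟩ := hN.amalg PUnit.{u + 1} 0 ∅ Set.finite_empty ⊥ Submodule.fg_bot bot_le
    exact ⟨k⟩

/-- The free algebra on an object. -/
noncomputable def Obj.Z (i : Obj T N) : Alg.{u} (cells T) N := (exists_free i.good).choose

/-- The unit of the free algebra. -/
noncomputable def Obj.η (i : Obj T N) : i.S.car →ₗ[R] i.Z.car :=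
  (exists_free i.good).choose_spec.choose

theorem Obj.isFree (i : Obj T N) : IsFree i.f i.D i.Z i.η :=
  (exists_free i.good).choose_spec.choose_spec

theorem Obj.exists_map {i j : Obj T N} (a : i ⟶ j) :
    ∃ φ, IsHom i.Z j.Z φ ∧ φ ∘ₗ i.η = j.η ∘ₗ a.1 := by
  refine i.isFree.univ _ _ ⟨?_, fun c σ hσ => ?_⟩
  · rw [← LinearMap.comp_assoc, j.isFree.compat.base, a.2.1]
  · have := j.isFree.compat.fill c _ (a.2.2 c σ hσ)
    rw [← LinearMap.comp_assoc σ a.1 j.f, a.2.1] at this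
    exact this

/-- The transition maps. -/
noncomputable def Obj.map {i j : Obj T N} (a : i ⟶ j) : i.Z.car →ₗ[R] j.Z.car :=
  (Obj.exists_map a).choose

theorem Obj.isHom_map {i j : Obj T N} (a : i ⟶ j) : IsHom i.Z j.Z (Obj.map a) :=
  (Obj.exists_map a).choose_spec.1

theorem Obj.map_η {i j : Obj T N} (a : i ⟶ j) : Obj.map a ∘ₗ i.η = j.η ∘ₗ a.1 :=
  (Obj.exists_map a).choose_spec.2

theorem Obj.map_id (i : Obj T N) : Obj.map (𝟙 i) = LinearMap.id :=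
  i.isFree.hom_ext (Obj.isHom_map _) (IsHom.id _) (Obj.map_η _)

theorem Obj.map_comp {i j k : Obj T N} (a : i ⟶ j) (b : j ⟶ k) :
    Obj.map (a ≫ b) = Obj.map b ∘ₗ Obj.map a :=
  i.isFree.hom_ext (Obj.isHom_map _) ((Obj.isHom_map b).comp (Obj.isHom_map a)) (by
    rw [Obj.map_η, LinearMap.comp_assoc, Obj.map_η, ← LinearMap.comp_assoc, Obj.map_η]
    rfl)

variable (T N) in
/-- The diagram of free algebras. -/
noncomputable def diag : Obj T N ⥤ ModuleCat.{u} R where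
  obj i := i.Z.car
  map a := ModuleCat.ofHom (Obj.map a)
  map_id i := ModuleCat.hom_ext (Obj.map_id i)
  map_comp a b := ModuleCat.hom_ext (Obj.map_comp a b)

variable (T N) in
/-- The cocone with vertex `N`. -/
noncomputable def diagCocone : Cocone (diag T N) where
  pt := N
  ι := { app := fun i => ModuleCat.ofHom i.Z.q
         naturality := fun _ _ a => ModuleCat.hom_ext (Obj.isHom_map a).q }

theorem Obj.abs_mono {i j k : Obj T N} (a : i ⟶ j) (b : j ⟶ k) :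
    (LinearMap.range j.η).comap (Obj.map a) ≤ (LinearMap.range k.η).comap (Obj.map (a ≫ b)) := by
  rintro z ⟨s, hs⟩
  refine ⟨b.1 s, ?_⟩
  rw [Obj.map_comp, LinearMap.comp_apply, ← hs]
  exact congr($(Obj.map_η b) s).symm

theorem Fac.absorb (hN : Fac T N) (i : Obj T N) (z : i.Z.car) :
    ∃ (j : Obj T N) (a : i ⟶ j) (s : j.S.car), j.η s = Obj.map a z := by
  have := hN.isFiltered
  let A : (Σ j : Obj T N, i ⟶ j) → Submodule R i.Z.car :=
    fun p => (LinearMap.range p.1.η).comap (Obj.map p.2)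
  have hdir : Directed (· ≤ ·) A := by
    rintro ⟨j, a⟩ ⟨j', a'⟩
    obtain ⟨k, b, b', h⟩ := IsFiltered.span a a'
    exact ⟨⟨k, a ≫ b⟩, Obj.abs_mono a b, h ▸ Obj.abs_mono a' b'⟩
  have hne : Nonempty (Σ j : Obj T N, i ⟶ j) := ⟨⟨i, 𝟙 i⟩⟩
  have htop : ⨆ p, A p = ⊤ := by
    refine i.isFree.gen _ (le_iSup_of_le ⟨i, 𝟙 i⟩ ?_) fun c ψ τ hc hψ => ?_
    · intro z hz
      change Obj.map (𝟙 i) z ∈ LinearMap.range i.η
      rw [Obj.map_id]
      exact hz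
    · obtain ⟨_, ⟨⟨j, a⟩, rfl⟩, h1⟩ :=
        (CompleteLattice.isCompactElement_iff_le_of_directed_sSup_le _ _).1
          ((Submodule.fg_iff_compact _).1 (Submodule.fg_range ψ)) (Set.range A)
          (Set.range_nonempty A) (directedOn_range.2 hdir) hψ
      let ψ' : (cells T).U c →ₗ[R] j.S.car :=
        (LinearEquiv.ofInjective j.η j.isFree.inj).symm.toLinearMap ∘ₗ
          (Obj.map a ∘ₗ ψ).codRestrict _ fun x => h1 ⟨x, rfl⟩
      have h2 : j.η ∘ₗ ψ' = Obj.map a ∘ₗ ψ := by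
        ext x
        simp [ψ']
      have h3 : j.f ∘ₗ ψ' = τ ∘ₗ (cells T).u c := by
        rw [← j.isFree.compat.base, LinearMap.comp_assoc, h2, ← LinearMap.comp_assoc,
          (Obj.isHom_map a).q, hc]
      obtain ⟨k, b, σ, h4, h5, h6⟩ := hN.amalg₂ j ((cells T).V c) τ {⟨c, LinearMap.id⟩}
        (Set.finite_singleton _) (LinearMap.range (ψ'.prod (-(cells T).u c)))
        (Submodule.fg_range _) (by
          rw [LinearMap.range_le_ker_iff, LinearMap.coprod_comp_prod, h3, LinearMap.comp_neg,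
            add_neg_cancel])
      rw [LinearMap.range_le_ker_iff, LinearMap.coprod_comp_prod, LinearMap.comp_neg,
        add_neg_eq_zero] at h5
      have h7 := k.isFree.compat.fill c σ (h6 c _ rfl)
      have h8 := (Obj.isHom_map (a ≫ b)).fill c ψ τ hc
      rw [Obj.map_comp, LinearMap.comp_assoc ψ, ← h2, ← LinearMap.comp_assoc ψ', Obj.map_η,
        LinearMap.comp_assoc ψ', h5, ← h4, h7, h4, ← Obj.map_comp] at h8
      refine le_iSup_of_le ⟨k, a ≫ b⟩ ?_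
      rintro _ ⟨v, rfl⟩
      exact ⟨σ v, congr($h8 v).symm⟩
  obtain ⟨⟨j, a⟩, s, hs⟩ := (Submodule.mem_iSup_of_directed A hdir).1
    (htop ▸ Submodule.mem_top : z ∈ ⨆ p, A p)
  exact ⟨j, a, s, hs⟩

theorem Fac.isColimit (hN : Fac T N) : Nonempty (IsColimit (diagCocone T N)) := by
  have := hN.isFiltered
  refine ⟨isColimitOfReflects (forget (ModuleCat.{u} R))
    (Types.FilteredColimit.isColimitOf' _ _ (fun x => ?_) fun i x y hxy => ?_)⟩
  · obtain ⟨k, h, h1, -⟩ := hN.amalg R (LinearMap.toSpanSingleton R N x) ∅ Set.finite_empty ⊥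
      Submodule.fg_bot bot_le
    refine ⟨k, k.η (h 1), ?_⟩
    change x = k.Z.q (k.η (h 1))
    have h2 := congr($(k.isFree.compat.base) (h 1))
    have h3 := congr($h1 1)
    simp only [LinearMap.comp_apply, LinearMap.toSpanSingleton_apply, one_smul] at h2 h3
    rw [h2, h3]
  · change i.Z.car at x y
    change i.Z.q x = i.Z.q y at hxy
    obtain ⟨j, a, s, hs⟩ := hN.absorb i (x - y)
    have h1 : j.f s = 0 := by
      have h2 := congr($(j.isFree.compat.base) s)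
      have h3 := congr($((Obj.isHom_map a).q) (x - y))
      simp only [LinearMap.comp_apply] at h2 h3
      rw [← h2, hs, h3, map_sub, hxy, sub_self]
    obtain ⟨k, h, h2, h3, h4⟩ := hN.amalg j.S.car j.f j.D j.fin (Submodule.span R {s})
      (Submodule.fg_span_singleton s) (by simpa using h1)
    let b : j ⟶ k := ⟨h, h2, h4⟩
    refine ⟨k, a ≫ b, ?_⟩
    change Obj.map (a ≫ b) x = Obj.map (a ≫ b) y
    rw [← sub_eq_zero, ← map_sub, Obj.map_comp, LinearMap.comp_apply, ← hs]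
    have h5 := congr($(Obj.map_η b) s)
    have h6 : h s = 0 := h3 (Submodule.mem_span_singleton_self s)
    simp only [LinearMap.comp_apply] at h5
    rw [h5]
    change k.η (h s) = 0
    rw [h6, map_zero]

theorem Obj.inA_Z (i : Obj T N) : InA T i.Z.car := by
  intro E _ _ hE
  obtain ⟨I, hI, f, hf⟩ := exists_injective_embedding R E
  have hs := SE.coker f hf
  refine hs.of_lift (fun χ => ?_) (EZ.of_injective _)
  let p := (LinearMap.range f).mkQ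
  obtain ⟨φ₀, hφ₀⟩ := hs.lift (i.inA E hE) (χ ∘ₗ i.η)
  have key : ∀ c (ψ : (cells T).U c →ₗ[R] i.Z.car) (τ : (cells T).V c →ₗ[R] N)
      (ψ' : (cells T).U c →ₗ[R] I), ∃ τ' : (cells T).V c →ₗ[R] I,
      τ' ∘ₗ (cells T).u c = ψ' ∧ (i.Z.q ∘ₗ ψ = τ ∘ₗ (cells T).u c → p ∘ₗ ψ' = χ ∘ₗ ψ →
        p ∘ₗ τ' = χ ∘ₗ i.Z.fill c ψ τ) := by
    intro c ψ τ ψ'
    by_cases h : i.Z.q ∘ₗ ψ = τ ∘ₗ (cells T).u c ∧ p ∘ₗ ψ' = χ ∘ₗ ψ
    · obtain ⟨τ', h1, h2⟩ := lift_along ((cells T).inj c) hs (c.cof.inA E hE) ψ'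
        (χ ∘ₗ i.Z.fill c ψ τ) (by rw [LinearMap.comp_assoc, i.Z.fill_u c ψ τ h.1]; exact h.2)
      exact ⟨τ', h1, fun _ _ => h2⟩
    · obtain ⟨τ', h1⟩ := (cells T).perp_of_injective I c ψ'
      exact ⟨τ', h1, fun a b => (h ⟨a, b⟩).elim⟩
  choose ρ hρ hρ' using key
  obtain ⟨φ, h1, h2⟩ := i.isFree.recursion i.good I φ₀ ρ fun c ψ τ ψ' _ => hρ c ψ τ ψ'
  have h3 : LinearMap.range i.η ≤ LinearMap.eqLocus (p ∘ₗ φ) χ := by
    rintro _ ⟨x, rfl⟩
    have h4 := congr($h1 x)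
    simp only [LinearMap.comp_apply] at h4
    change p (φ (i.η x)) = χ (i.η x)
    rw [h4]
    exact congr($hφ₀ x)
  refine ⟨φ, LinearMap.eqLocus_eq_top.1 (i.isFree.gen _ h3 fun c ψ τ hc hψ => ?_)⟩
  rcases h2 c ψ τ hc with ⟨σ, -, h4⟩ | h4
  · rw [h4]
    exact (LinearMap.range_comp_le_range _ _).trans h3
  · rintro _ ⟨v, rfl⟩
    have h5 := hρ' c ψ τ (φ ∘ₗ ψ) hc (LinearMap.ext fun x => hψ ⟨x, rfl⟩)
    rw [← h4] at h5
    exact congr($h5 v)

theorem Obj.perp_Z (hN : (cells T).Perp N) (i : Obj T N) : (cells T).Perp i.Z.car := by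
  intro c ψ
  obtain ⟨τ, hτ⟩ := hN c (i.Z.q ∘ₗ ψ)
  exact ⟨_, i.Z.fill_u c ψ τ hτ.symm⟩

theorem IsPureSubmodule.lift {F P : Type u} [AddCommGroup F] [Module R F] [AddCommGroup P]
    [Module R P] [Module.FinitePresentation R P] {p : F →ₗ[R] N} (hp : Function.Surjective p)
    (h : IsPureSubmodule (LinearMap.ker p)) (φ : P →ₗ[R] N) : ∃ ψ : P →ₗ[R] F, p ∘ₗ ψ = φ := by
  obtain ⟨n, m, f, g, hf, hg⟩ := Module.FinitePresentation.exists_fin' R P
  choose x hx using fun j : Fin n => hp (φ (f (Pi.single j 1)))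
  have h1 : ∀ w : Fin n → R, p (∑ j, w j • x j) = φ (f w) := fun w => by
    conv_rhs => rw [pi_eq_sum_univ' w]
    simp only [map_sum, map_smul, hx]
  obtain ⟨y, hy, hy'⟩ := h m n (fun i j => g (Pi.single i 1) j)
    (fun i => ∑ j, g (Pi.single i 1) j • x j)
    (fun i => by rw [LinearMap.mem_ker, h1, hg.apply_apply_eq_zero, map_zero]) ⟨x, fun _ => rfl⟩
  let l : (Fin n → R) →ₗ[R] F := Fintype.linearCombination R (x - y)
  have h2 : LinearMap.ker f ≤ LinearMap.ker l := by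
    rw [LinearMap.exact_iff.1 hg, LinearMap.range_le_ker_iff]
    ext i
    simp [l, Fintype.linearCombination_apply, smul_sub, hy' i]
  refine ⟨(LinearMap.ker f).liftQ l h2 ∘ₗ (f.quotKerEquivOfSurjective hf).symm.toLinearMap, ?_⟩
  ext v
  obtain ⟨w, rfl⟩ := hf v
  have h3 : ∀ j, p (y j) = 0 := hy
  have h4 := h1 w
  simp only [map_sum, map_smul] at h4
  simp [l, Fintype.linearCombination_apply, h3, h4]

theorem IsTilting.inDirectLimitAdd {n : ℕ} (hT : IsTilting n T) (h : InPureImageAdd T N) :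
    InDirectLimitAdd T N := by
  obtain ⟨X, p, hp, hp'⟩ := h
  have hfac : Fac T N := by
    intro P _ _ _ φ
    obtain ⟨ψ, rfl⟩ := hp'.lift hp φ
    obtain ⟨S, a, b, hS, rfl⟩ := hT.factor_fp (InA.self.finsupp X) ψ
    exact ⟨S, a, p ∘ₗ b, hS, rfl⟩
  have hperp : (cells T).Perp N := by
    intro c φ
    obtain ⟨ψ, rfl⟩ := hp'.lift hp φ
    obtain ⟨τ, rfl⟩ := (hT.inB_finsupp X).perp c ψ
    exact ⟨p ∘ₗ τ, rfl⟩
  have := hfac.isFiltered
  obtain ⟨I, _, _, _, G, _⟩ := IsFiltered.exists_directed (Obj T N)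
  obtain ⟨hc⟩ := hfac.isColimit
  exact ⟨I, inferInstance, inferInstance, inferInstance, G ⋙ diag T N, (diagCocone T N).whisker G,
    fun i => hT.inAdd (G.obj i).inA_Z (hT.inB_of_perp ((G.obj i).perp_Z hperp)),
    ⟨(Functor.Final.isColimitWhiskerEquiv G _).symm hc⟩, ⟨Iso.refl _⟩⟩

end Pool.Agent.MP_46786a_al
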