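import Pool.Agent.MP_46786a_al.Defs
import Pool.Agent.Mg.F46786a.G2dee07

open CategoryTheory CategoryTheory.Limits CategoryTheory.Abelian

/-! A direct summand `V` of a 1-tilting module with a pure quotient `V ⧸ K` that embeds in no direct
limit of modules from `Add V`. -/

namespace Pool.Agent.MP_46786a_al.Sharp

/-- The set of letters. -/
def Λ : Type := Set (Set ℕ × ℕ)

noncomputable instance : DecidableEq Λ := Classical.decEq _

instance : Infinite Λ := inferInstanceAs (Infinite (Set (Set ℕ × ℕ)))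

theorem free_pair (f : Λ → Set Λ) (hf : ∀ a, (f a).Countable) : ∃ a b, a ∉ f b ∧ b ∉ f a := by
  choose g hg using fun a => Set.countable_iff_exists_subset_range.1 (hf a)
  let j : Set ℕ → Set (Set ℕ × ℕ) := fun r => {(r, 0)}
  obtain ⟨b, hb⟩ := not_forall.1
    (Function.cantor_surjective (fun q : Set ℕ × ℕ => (g (j q.1) q.2 : Set (Set ℕ × ℕ))))
  let k : Set (Set ℕ × ℕ) → Set ℕ := fun S => ⋃ q ∈ S, q.1
  obtain ⟨r, hr⟩ := not_forall.1 (Function.cantor_surjective (fun n : ℕ => k (g b n)))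
  refine ⟨j r, b, fun h => ?_, fun h => ?_⟩
  · obtain ⟨n, hn⟩ := hg b h
    exact hr ⟨n, by simp only [hn]; simp [k, j]⟩
  · obtain ⟨n, hn⟩ := hg _ h
    exact hb ⟨(r, n), hn⟩

/-- At level `m`, words with the same set of letters are identified if it has `m` elements or more. -/
def rel : Setoid (ℕ × List Λ) where
  r a b := a.1 = b.1 ∧ (a.2 = b.2 ∨ (a.2.toFinset = b.2.toFinset ∧ a.1 ≤ a.2.toFinset.card))
  iseqv := by
    refine ⟨fun a => ⟨rfl, Or.inl rfl⟩, ?_, ?_⟩
    · rintro ⟨m, w⟩ ⟨k, u⟩ ⟨h1, h2 | ⟨h2, h3⟩⟩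
      · exact ⟨h1.symm, Or.inl h2.symm⟩
      · exact ⟨h1.symm, Or.inr ⟨h2.symm, by simp only at *; rw [← h1, ← h2]; exact h3⟩⟩
    · rintro ⟨m, w⟩ ⟨k, u⟩ ⟨l, t⟩ ⟨h1, h2⟩ ⟨h3, h4⟩
      simp only at *
      subst h1 h3
      refine ⟨rfl, ?_⟩
      rcases h2 with rfl | ⟨h2, h5⟩
      · exact h4
      · rcases h4 with rfl | ⟨h4, -⟩
        · exact Or.inr ⟨h2, h5⟩
        · exact Or.inr ⟨h2.trans h4, h5⟩

/-- The basis. -/
def Ω : Type := Quotient rel

/-- The class of a word at a level. -/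
def mk (m : ℕ) (w : List Λ) : Ω := Quotient.mk rel (m, w)

theorem mk_eq {m k : ℕ} {w u : List Λ} : mk m w = mk k u ↔
    m = k ∧ (w = u ∨ (w.toFinset = u.toFinset ∧ m ≤ w.toFinset.card)) :=
  Quotient.eq (r := rel)

theorem mk_surj (ω : Ω) : ∃ m w, ω = mk m w := by
  obtain ⟨⟨m, w⟩, rfl⟩ := Quotient.exists_rep ω
  exact ⟨m, w, rfl⟩

theorem mk_app {m k : ℕ} {w u : List Λ} (hk : k ≤ m) (h : mk m w = mk m u) (s z : List Λ) :
    mk k (s ++ w ++ z) = mk k (s ++ u ++ z) := by
  rcases (mk_eq.1 h).2 with rfl | ⟨h2, h3⟩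
  · rfl
  · refine mk_eq.2 ⟨rfl, Or.inr ⟨by simp [h2], hk.trans (h3.trans (Finset.card_le_card ?_))⟩⟩
    intro x hx
    simp only [List.toFinset_append, Finset.mem_union]
    exact Or.inl (Or.inr hx)

/-- The set of letters of a basis element. -/
noncomputable def supp : Ω → Finset Λ :=
  Quotient.lift (fun a => a.2.toFinset) (by
    rintro a b ⟨-, h | ⟨h, -⟩⟩
    · rw [h]
    · exact h)

@[simp] theorem supp_mk (m : ℕ) (w : List Λ) : supp (mk m w) = w.toFinset := rfl

/-- The module. -/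
abbrev V : Type := Ω →₀ ℤ

/-- Basis vectors. -/
noncomputable def bs (m : ℕ) (w : List Λ) : V := Finsupp.single (mk m w) 1

theorem V_ext {A : Type} [AddCommGroup A] {f g : V →ₗ[ℤ] A}
    (h : ∀ m w, f (bs m w) = g (bs m w)) : f = g := by
  ext ω
  obtain ⟨m, w, rfl⟩ := mk_surj ω
  exact h m w

/-- Linear maps from values on words. -/
noncomputable def lin {A : Type} [AddCommGroup A] (f : ℕ → List Λ → A)
    (hf : ∀ m w u, mk m w = mk m u → f m w = f m u) : V →ₗ[ℤ] A :=
  Finsupp.linearCombination ℤ (Quotient.lift (fun a => f a.1 a.2) (by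
    rintro ⟨m, w⟩ ⟨k, u⟩ h
    obtain rfl : m = k := h.1
    exact hf m w u (Quotient.sound h)))

@[simp] theorem lin_bs {A : Type} [AddCommGroup A] (f : ℕ → List Λ → A) (hf) (m : ℕ)
    (w : List Λ) : lin f hf (bs m w) = f m w := by
  simp only [lin, bs, Finsupp.linearCombination_single, one_smul]
  rfl

/-- Appending a word. -/
noncomputable def L (z : List Λ) : Module.End ℤ V :=
  lin (fun m w => bs m (w ++ z)) (fun m w u h => by
    have := mk_app le_rfl h [] z
    simp only [List.nil_append] at this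
    simp only [bs, this])

@[simp] theorem L_bs (z : List Λ) (m : ℕ) (w : List Λ) : L z (bs m w) = bs m (w ++ z) :=
  lin_bs _ _ _ _

theorem L_app (z y : List Λ) (v : V) : L (z ++ y) v = L y (L z v) :=
  congr($(V_ext (f := L (z ++ y)) (g := L y ∘ₗ L z) fun m w => by simp) v)

/-- The opposite ring of the commutant of the maps `L z`. -/
def S : Type := (Subring.centralizer (Set.range L))ᵐᵒᵖ

noncomputable instance : Ring S := inferInstanceAs (Ring (Subring.centralizer (Set.range L))ᵐᵒᵖ)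

/-- The commutant of the maps `L z`, as the opposite ring of `S`. -/
def R : Type := Sᵐᵒᵖ

noncomputable instance : Ring R := inferInstanceAs (Ring Sᵐᵒᵖ)

noncomputable instance : Module R V :=
  Module.compHom V (RingEquiv.opOp (Subring.centralizer (Set.range L))).symm.toRingHom

theorem smul_def (r : R) (v : V) : r • v = r.unop.unop.1 v := rfl

theorem L_smul (z : List Λ) (r : R) (v : V) : L z (r • v) = r • L z v :=
  congr($(r.unop.unop.2 (L z) ⟨z, rfl⟩) v)

/-- Appending a word, as a map of modules over the ring. -/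
noncomputable def Lr (z : List Λ) : V →ₗ[R] V where
  toFun := L z
  map_add' := map_add _
  map_smul' := L_smul z

theorem smul_bs (r : R) (m : ℕ) (w : List Λ) : r • bs m w = L w (r • bs m []) := by
  rw [L_smul, L_bs, List.nil_append]

theorem R_ext {r s : R} (h : ∀ m, r • bs m [] = s • bs m []) : r = s :=
  MulOpposite.unop_injective (MulOpposite.unop_injective (Subtype.ext (V_ext fun m w => by
    change r • bs m w = s • bs m w
    rw [smul_bs, h, ← smul_bs])))

/-- The ring element moving level `m` to level `min k m` and putting `s` in front. -/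
noncomputable def ph (m k : ℕ) (s : List Λ) : R :=
  MulOpposite.op <| MulOpposite.op ⟨lin (fun l w => if l = m then bs (min k m) (s ++ w) else 0) (fun l w u h => by
      split_ifs with hl
      · subst hl
        have := mk_app (min_le_right k l) h s []
        simp only [List.append_nil] at this
        simp only [bs, this]
      · rfl), by
    rintro _ ⟨z, rfl⟩
    refine V_ext fun l w => ?_
    simp only [Module.End.mul_apply, lin_bs, L_bs]
    split_ifs <;> simp⟩

theorem ph_bs (m k : ℕ) (s : List Λ) (l : ℕ) (w : List Λ) :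
    ph m k s • bs l w = if l = m then bs (min k m) (s ++ w) else 0 := by
  rw [smul_def, ph, MulOpposite.unop_op, MulOpposite.unop_op, lin_bs]

theorem V_ind {P : V → Prop} (h0 : P 0) (hadd : ∀ a b, P a → P b → P (a + b))
    (hb : ∀ m w (n : ℤ), P (n • bs m w)) (v : V) : P v := by
  induction v using Finsupp.induction_linear with
  | zero => exact h0
  | add a b ha hb => exact hadd a b ha hb
  | single ω n =>
    obtain ⟨m, w, rfl⟩ := mk_surj ω
    simpa [bs] using hb m w n

instance : SMulCommClass R ℤ V := ⟨fun r n v => map_smul r.unop.unop.1 n v⟩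

/-- The class of modules in which level `k` can be lifted to level `m`. -/
def Lifts (m k : ℕ) (E : Type) [AddCommGroup E] [Module R E] : Prop :=
  ∀ x : E, ∃ y : E, ph m k [] • y = ph k k [] • x

theorem lifts_V {m k : ℕ} (h : k ≤ m) : Lifts m k V := by
  refine V_ind ⟨0, by simp⟩ ?_ fun l w n => ?_
  · rintro a b ⟨y, hy⟩ ⟨y', hy'⟩
    exact ⟨y + y', by simp [hy, hy']⟩
  · by_cases hl : l = k
    · exact ⟨n • bs m w, by simp [smul_comm _ n, ph_bs, hl, h]⟩
    · exact ⟨0, by simp [smul_comm _ n, ph_bs, hl]⟩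

theorem Lifts.finsupp {m k : ℕ} {E : Type} [AddCommGroup E] [Module R E] (h : Lifts m k E)
    (X : Type) : Lifts m k (X →₀ E) := by
  intro v
  induction v using Finsupp.induction_linear with
  | zero => exact ⟨0, by simp⟩
  | add a b ha hb =>
    obtain ⟨y, hy⟩ := ha
    obtain ⟨y', hy'⟩ := hb
    exact ⟨y + y', by simp [hy, hy']⟩
  | single x e =>
    obtain ⟨y, hy⟩ := h e
    exact ⟨Finsupp.single x y, by simp [hy]⟩

theorem L_stab (v : V) : ∃ m, ∀ z y : List Λ, z.toFinset = y.toFinset → m ≤ z.toFinset.card →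
    L z v = L y v := by
  induction v using V_ind with
  | h0 => exact ⟨0, by simp⟩
  | hadd a b ha hb =>
    obtain ⟨m, hm⟩ := ha
    obtain ⟨k, hk⟩ := hb
    exact ⟨max m k, fun z y h h' => by
      rw [map_add, map_add, hm z y h (le_of_max_le_left h'), hk z y h (le_of_max_le_right h')]⟩
  | hb m w n =>
    refine ⟨m, fun z y h h' => ?_⟩
    have := mk_app le_rfl (mk_eq.2 ⟨rfl, Or.inr ⟨h, h'⟩⟩ : mk m z = mk m y) w []
    simp only [List.append_nil] at this
    simp only [map_smul, L_bs]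
    simp only [bs, this]

/-- The submodule of vectors killed by all long words. -/
def K : Submodule R V where
  carrier := {v | ∃ S : Finset Λ, ∀ z : List Λ, S ⊆ z.toFinset → L z v = 0}
  zero_mem' := ⟨∅, by simp⟩
  add_mem' := by
    rintro a b ⟨S, hS⟩ ⟨S', hS'⟩
    exact ⟨S ∪ S', fun z hz => by
      rw [map_add, hS z (Finset.union_subset_left hz), hS' z (Finset.union_subset_right hz),
        add_zero]⟩
  smul_mem' := by
    rintro r a ⟨S, hS⟩
    exact ⟨S, fun z hz => by rw [L_smul, hS z hz, smul_zero]⟩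

theorem sub_mem_K (z : List Λ) (v : V) : v - L z v ∈ K := by
  obtain ⟨m, hm⟩ := L_stab v
  obtain ⟨S, hS, hc⟩ := Infinite.exists_superset_card_eq z.toFinset (z.toFinset.card + m)
    (Nat.le_add_right _ _)
  refine ⟨S, fun y hy => ?_⟩
  rw [map_sub, ← L_app, sub_eq_zero]
  refine hm _ _ ?_ ?_
  · rw [List.toFinset_append, Finset.union_eq_right.2 (hS.trans hy)]
  · have := Finset.card_le_card hy
    omega

theorem pure_K : IsPureSubmodule K := by
  rintro m n a k hk ⟨x, hx⟩
  choose S hS using hk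
  let z := (Finset.univ.biUnion S).toList
  refine ⟨fun j => x j - Lr z (x j), fun j => sub_mem_K z (x j), fun i => ?_⟩
  have h1 : Lr z (k i) = 0 := hS i z (by
    rw [Finset.toList_toFinset]
    exact Finset.subset_biUnion_of_mem S (Finset.mem_univ i))
  rw [← hx i, map_sum] at h1
  simp only [map_smul] at h1
  simp only [smul_sub, Finset.sum_sub_distrib, hx, h1, sub_zero]

theorem ph_mul (m k : ℕ) (s : List Λ) : ph m k s * ph m m [] = ph m k s :=
  R_ext fun l => by
    rw [mul_smul, ph_bs, ph_bs]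
    split_ifs <;> simp [ph_bs]

theorem mul_ph (m : ℕ) : ph m m [] * ph (m + 1) m [] = ph (m + 1) m [] :=
  R_ext fun l => by
    rw [mul_smul, ph_bs]
    split_ifs <;> simp [ph_bs]

theorem mul_ph_eq_zero {r : R} {m : ℕ} (h : r • bs m [] = 0) (l : ℕ) (hl : m ≤ l) :
    r * ph l m [] = 0 :=
  R_ext fun k => by
    rw [mul_smul, ph_bs]
    split_ifs <;> simp [h, hl]

/-- First map of the presentation. -/
noncomputable def pf : (ℕ →₀ R) →ₗ[R] (ℕ →₀ R) :=
  Finsupp.linearCombination R fun m =>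
    Finsupp.single m 1 - Finsupp.single (m + 1) (ph (m + 1) m [])

/-- Second map of the presentation. -/
noncomputable def pg : (ℕ →₀ R) →ₗ[R] V := Finsupp.linearCombination R fun m => bs m []

theorem pf_single (m : ℕ) (r : R) : pf (Finsupp.single m r) =
    Finsupp.single m r - Finsupp.single (m + 1) (r * ph (m + 1) m []) := by
  simp [pf, smul_sub]

theorem pg_single (m : ℕ) (r : R) : pg (Finsupp.single m r) = r • bs m [] := by
  simp [pg]

theorem pf_apply (a : ℕ →₀ R) :
    pf a 0 = a 0 ∧ ∀ m, pf a (m + 1) = a (m + 1) - a m * ph (m + 1) m [] := by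
  induction a using Finsupp.induction_linear with
  | zero => simp
  | add a b ha hb =>
    refine ⟨by simp [ha.1, hb.1], fun m => ?_⟩
    simp only [map_add, Finsupp.add_apply, ha.2, hb.2, add_mul]
    abel
  | single k r =>
    refine ⟨by simp [pf_single], fun m => ?_⟩
    by_cases h : k = m
    · simp [pf_single, h]
    · simp [pf_single, h]

theorem red_ev (b : ℕ →₀ R) : ∀ᶠ n in Filter.atTop, ∃ r : R,
    b - Finsupp.single n r ∈ LinearMap.range pf ∧ r • bs n [] = pg b := by
  induction b using Finsupp.induction_linear with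
  | zero => exact Filter.Eventually.of_forall fun n => ⟨0, by simp⟩
  | add a b ha hb =>
    filter_upwards [ha, hb]
    rintro n ⟨r, hr, hr'⟩ ⟨s, hs, hs'⟩
    refine ⟨r + s, ?_, by rw [add_smul, map_add, hr', hs']⟩
    have := add_mem hr hs
    rwa [sub_add_sub_comm, ← Finsupp.single_add] at this
  | single k r =>
    refine Filter.eventually_atTop.2 ⟨k, fun n hn => ?_⟩
    induction n, hn using Nat.le_induction with
    | base => exact ⟨r, by simp, (pg_single _ _).symm⟩
    | succ n _ ih =>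
      obtain ⟨s, hs, hs'⟩ := ih
      refine ⟨s * ph (n + 1) n [], ?_, by simp [mul_smul, ph_bs, hs']⟩
      have := add_mem hs (LinearMap.mem_range_self pf (Finsupp.single n s))
      rwa [pf_single, sub_add_sub_cancel] at this

theorem pres : SE pf pg := by
  refine ⟨(injective_iff_map_eq_zero _).2 fun a ha => ?_, fun a => ⟨fun ha => ?_, ?_⟩,
    V_ind ⟨0, map_zero _⟩ ?_ fun m w n => ?_⟩
  · ext m
    have h := pf_apply a
    rw [ha] at h
    induction m with
    | zero => exact h.1.symm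
    | succ m ih =>
      have h2 := h.2 m
      rw [ih] at h2
      simpa using h2.symm
  · obtain ⟨n, r, hr, hr'⟩ := (red_ev a).exists
    have := add_mem hr (LinearMap.mem_range_self pf (Finsupp.single n r))
    rw [pf_single, mul_ph_eq_zero (hr'.trans ha) _ n.le_succ] at this
    simpa using this
  · rintro ⟨b, rfl⟩
    have : pg ∘ₗ pf = 0 := by
      ext m : 2
      simp [pf_single, pg_single, ph_bs]
    exact congr($this b)
  · rintro a b ⟨x, rfl⟩ ⟨y, rfl⟩
    exact ⟨x + y, map_add _ _ _⟩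
  · exact ⟨n • Finsupp.single m (ph m m w), by rw [map_zsmul, pg_single, ph_bs]; simp⟩

theorem pure_pres : IsPureSubmodule (LinearMap.ker pg) := by
  rintro m n a k hk ⟨x, hx⟩
  obtain ⟨l, hl⟩ := (Filter.eventually_all.2 fun j => red_ev (x j)).exists
  choose r _ hr using hl
  refine ⟨fun j => x j - Finsupp.single (l + 1) (r j * ph (l + 1) l []), fun j => ?_, fun i => ?_⟩
  · rw [LinearMap.mem_ker, map_sub, pg_single, mul_smul, ph_bs]
    simp [hr]
  · have h1 : (∑ j, a i j * r j) • bs l [] = 0 := by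
      have := hk i
      rw [← hx i, LinearMap.mem_ker, map_sum] at this
      simpa only [Finset.sum_smul, mul_smul, hr, map_smul] using this
    have h2 := congrArg (Finsupp.single (l + 1)) (mul_ph_eq_zero h1 _ l.le_succ)
    rw [Finset.sum_mul, Finsupp.single_finsetSum, Finsupp.single_zero] at h2
    simp only [smul_sub, Finset.sum_sub_distrib, hx, Finsupp.smul_single, smul_eq_mul,
      ← mul_assoc]
    rw [h2, sub_zero]

/-- The tilting class. -/
def Bc (E : Type) [AddCommGroup E] [Module R E] : Prop := ∀ m, Lifts (m + 1) m E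

theorem ez_V {E : Type} [AddCommGroup E] [Module R E] (h : Bc E) : EZ R V E 1 := by
  refine pres.of_extend (fun φ => ?_) (EZ.of_projective _)
  choose s hs using h
  let a : ℕ → E := fun m => φ (Finsupp.single m 1)
  let d : ℕ → E := fun m => Nat.rec 0 (fun k x => s k x - a (k + 1)) m
  refine ⟨Finsupp.linearCombination R fun m => a m + ph m m [] • d m, ?_⟩
  ext m
  have hd : d (m + 1) = s m (d m) - a (m + 1) := rfl
  simp only [LinearMap.comp_apply, Finsupp.lsingle_apply, pf_single, map_sub,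
    Finsupp.linearCombination_single, one_smul, one_mul, smul_add, ← mul_smul, ph_mul, hd,
    smul_sub, hs]
  abel

theorem Bc.of_surj {E E' : Type} [AddCommGroup E] [Module R E] [AddCommGroup E'] [Module R E']
    (h : Bc E) (p : E →ₗ[R] E') (hp : Function.Surjective p) : Bc E' := fun m x => by
  obtain ⟨x, rfl⟩ := hp x
  obtain ⟨y, hy⟩ := h m x
  exact ⟨p y, by rw [← map_smul, hy, map_smul]⟩

theorem Bc.prod {E E' : Type} [AddCommGroup E] [Module R E] [AddCommGroup E'] [Module R E']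
    (h : Bc E) (h' : Bc E') : Bc (E × E') := fun m x => by
  obtain ⟨y, hy⟩ := h m x.1
  obtain ⟨y', hy'⟩ := h' m x.2
  exact ⟨(y, y'), Prod.ext hy hy'⟩

/-- The cells that define the tilting class. -/
noncomputable def cells : CellFam R where
  C := ℕ
  U _ := ModuleCat.of R R
  V _ := ModuleCat.of R (R × R)
  u m := LinearMap.toSpanSingleton R (R × R) (ph (m + 1) m [], 1 - ph m m [])
  inj m := (injective_iff_map_eq_zero _).2 fun r hr => by
    have h1 : r * ph (m + 1) m [] = 0 := congrArg Prod.fst hr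
    have h2 : r * (1 - ph m m []) = 0 := congrArg Prod.snd hr
    have h3 : r • bs m [] = 0 := by simpa [mul_smul, ph_bs] using congr($h1 • bs (m + 1) [])
    rwa [mul_sub, mul_ph_eq_zero h3 m le_rfl, mul_one, sub_zero] at h2
  fpU _ := inferInstanceAs (Module.FinitePresentation R R)
  fpV _ := inferInstanceAs (Module.FinitePresentation R (R × R))

theorem perp_iff {E : Type} [AddCommGroup E] [Module R E] : cells.Perp E ↔ Bc E := by
  refine ⟨fun h m x => ?_, fun h m ψ => ?_⟩
  · obtain ⟨τ, hτ⟩ := h m (LinearMap.toSpanSingleton R E x)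
    let τ' : (R × R) →ₗ[R] E := τ
    have h1 : τ' ((1 : R) • (ph (m + 1) m [], 1 - ph m m [])) = (1 : R) • x := congr($hτ (1 : R))
    refine ⟨τ' (1, 0), ?_⟩
    rw [one_smul, one_smul] at h1
    rw [← h1, ← map_smul, ← map_smul]
    simp [mul_ph, mul_sub, ph_mul]
  · let ψ' : R →ₗ[R] E := ψ
    obtain ⟨y, hy⟩ := h m (ψ' 1)
    refine ⟨((LinearMap.toSpanSingleton R E y).coprod (LinearMap.toSpanSingleton R E (ψ' 1)) :
      (R × R) →ₗ[R] E), LinearMap.ext_ring (R := R) ?_⟩
    change ((1 : R) * ph _ _ []) • y + ((1 : R) * (1 - ph m m [])) • ψ' 1 = ψ' 1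
    rw [one_mul, one_mul, hy, sub_smul, one_smul, add_sub_cancel]

theorem exists_env : ∃ (Z : ModuleCat.{0} R) (η : R →ₗ[R] Z), Function.Injective η ∧ Bc Z ∧
    ∀ (E : Type) [AddCommGroup E] [Module R E], Bc E → EZ R (Z ⧸ LinearMap.range η) E 1 := by
  classical
  have hD : Good (0 : R →ₗ[R] PUnit.{1}) (∅ : PD cells R) := fun _ _ _ h => h.elim
  obtain ⟨Z, η, hZ⟩ := exists_free hD
  refine ⟨ModuleCat.of R Z.car, η, hZ.inj, perp_iff.1 fun c ψ =>
    ⟨_, Z.fill_u c ψ 0 (Subsingleton.elim _ _)⟩, fun E _ _ hE => ?_⟩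
  obtain ⟨I, hI, f, hf⟩ := exists_injective_embedding R E
  have hs := SE.coker f hf
  refine hs.of_lift (fun φ₁ => ?_) (EZ.of_injective _)
  let p := (LinearMap.range f).mkQ
  let χ := φ₁ ∘ₗ (LinearMap.range η).mkQ
  have hc : ∀ c, EZ R (cells.V c ⧸ LinearMap.range (cells.u c)) E 1 := fun c => by
    have : Module.Projective R (cells.V c) := inferInstanceAs (Module.Projective R (R × R))
    exact (SE.coker _ (cells.inj c)).of_extend (perp_iff.2 hE c) (EZ.of_projective _)
  have key : ∀ c (ψ : cells.U c →ₗ[R] Z.car) (τ : cells.V c →ₗ[R] PUnit.{1})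
      (ψ' : cells.U c →ₗ[R] I), ∃ σ : cells.V c →ₗ[R] I, σ ∘ₗ cells.u c = ψ' ∧
        (p ∘ₗ ψ' = χ ∘ₗ ψ → p ∘ₗ σ = χ ∘ₗ Z.fill c ψ τ) := by
    intro c ψ τ ψ'
    by_cases h : p ∘ₗ ψ' = χ ∘ₗ ψ
    · obtain ⟨σ, h1, h2⟩ := lift_along (cells.inj c) hs (hc c) ψ' (χ ∘ₗ Z.fill c ψ τ) (by
        rw [LinearMap.comp_assoc, Z.fill_u c ψ τ (Subsingleton.elim _ _)]
        exact h)
      exact ⟨σ, h1, fun _ => h2⟩
    · obtain ⟨σ, hσ⟩ := cells.perp_of_injective I c ψ'
      exact ⟨σ, hσ, fun h' => (h h').elim⟩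
  choose ρ hρ hρ' using key
  obtain ⟨φ, hφ0, hφ⟩ := hZ.recursion hD I 0 ρ (fun c ψ τ ψ' _ => hρ c ψ τ ψ')
  have htop := hZ.gen (LinearMap.eqLocus (p ∘ₗ φ) χ) (by
    rintro _ ⟨x, rfl⟩
    have h1 : φ (η x) = 0 := congr($hφ0 x)
    have h2 : (LinearMap.range η).mkQ (η x) = 0 := (Submodule.Quotient.mk_eq_zero _).2 ⟨x, rfl⟩
    change p (φ (η x)) = φ₁ ((LinearMap.range η).mkQ (η x))
    rw [h1, h2, map_zero, map_zero]) (by
    intro c ψ τ h hψ
    rcases hφ c ψ τ h with ⟨σ, hσ, -⟩ | h1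
    · exact hσ.elim
    have h2 := hρ' c ψ τ (φ ∘ₗ ψ) (LinearMap.ext fun x => hψ ⟨x, rfl⟩)
    rw [← h1] at h2
    rintro _ ⟨x, rfl⟩
    exact congr($h2 x))
  refine ⟨(LinearMap.range η).liftQ φ (by
    rintro _ ⟨x, rfl⟩
    exact congr($hφ0 x)), ?_⟩
  ext x
  exact congr($(LinearMap.eqLocus_eq_top.1 htop) x)

theorem ez_two {U : Type} [AddCommGroup U] [Module R U]
    (h : ∀ (E : Type) [AddCommGroup E] [Module R E], Bc E → EZ R U E 1) (i : ℕ) :
    ∀ (E : Type) [AddCommGroup E] [Module R E], EZ R U E (i + 2) := by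
  induction i with
  | zero =>
    intro E _ _
    obtain ⟨I, hI, f, hf⟩ := exists_injective_embedding R E
    exact (EZ.cosyz_iff (SE.coker f hf) 0).1 (h _
      ((perp_iff.1 (cells.perp_of_injective I)).of_surj _ (Submodule.mkQ_surjective _)))
  | succ i ih =>
    intro E _ _
    obtain ⟨I, hI, f, hf⟩ := exists_injective_embedding R E
    exact (EZ.cosyz_iff (SE.coker f hf) (i + 1)).1 (ih _)

theorem se_prod (A B : Type) [AddCommGroup A] [Module R A] [AddCommGroup B] [Module R B] :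
    SE (LinearMap.inl R A B) (LinearMap.snd R A B) :=
  ⟨LinearMap.inl_injective, Function.Exact.inl_snd, LinearMap.snd_surjective⟩

theorem inAdd_of {T A : Type} [AddCommGroup T] [Module R T] [AddCommGroup A] [Module R A]
    (i : A →ₗ[R] T) (p : T →ₗ[R] A) (h : ∀ a, p (i a) = a) :
    InAdd (ModuleCat.of R T) (ModuleCat.of R A) :=
  ⟨Unit, Finsupp.lsingle () ∘ₗ i, p ∘ₗ Finsupp.lapply (), LinearMap.ext fun a => by simpa using h a⟩

theorem exists_tilting : ∃ T : ModuleCat.{0} R, IsTilting 1 T ∧ InAdd T (ModuleCat.of R V) := by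
  obtain ⟨Z, η, hη, hZ, hQ⟩ := exists_env
  let Q := Z ⧸ LinearMap.range η
  have hB : Bc (V × Z × Q) := Bc.prod (fun m => lifts_V m.le_succ)
    (hZ.prod (hZ.of_surj _ (Submodule.mkQ_surjective _)))
  have hT : ∀ (E : Type) [AddCommGroup E] [Module R E], Bc E → EZ R (V × Z × Q) E 1 :=
    fun E _ _ hE => (se_prod _ _).con₂ (ez_V hE) ((se_prod _ _).con₂
      ((SE.coker η hη).con₂ (EZ.of_projective _) (hQ E hE)) (hQ E hE))
  refine ⟨ModuleCat.of R (V × Z × Q), ⟨?_, fun X i hi => ?_, ?_⟩,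
    inAdd_of (LinearMap.inl _ _ _) (LinearMap.fst _ _ _) fun _ => rfl⟩
  · refine HasProjectiveDimensionLT.mk fun i hi Y e => ?_
    obtain ⟨j, rfl⟩ := Nat.exists_eq_add_of_le' hi
    exact ez_two hT j Y e
  · refine subsingleton_of_forall_eq 0 ?_
    rcases i with _ | _ | i
    · omega
    · exact hT _ fun m => (hB m).finsupp X
    · exact ez_two hT i _
  · let C : ℕ → ModuleCat.{0} R := fun n => match n with
      | 0 => Z
      | 1 => ModuleCat.of R Q
      | _ + 2 => ModuleCat.of R PUnit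
    let d : ∀ i, C i →ₗ[R] C (i + 1) := fun n => match n with
      | 0 => (LinearMap.range η).mkQ
      | _ + 1 => 0
    refine ⟨C, η, d, fun i hi => ?_, fun i hi => ?_, hη, (SE.coker η hη).ex, fun i => ?_⟩
    · rcases i with _ | _ | i
      · exact inAdd_of (LinearMap.inr _ _ _ ∘ₗ LinearMap.inl _ _ _)
          (LinearMap.fst _ _ _ ∘ₗ LinearMap.snd _ _ _) fun _ => rfl
      · exact inAdd_of (LinearMap.inr _ _ _ ∘ₗ LinearMap.inr _ _ _)
          (LinearMap.snd _ _ _ ∘ₗ LinearMap.snd _ _ _) fun _ => rfl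
      · omega
    · rcases i with _ | _ | i
      · omega
      · omega
      · exact inferInstanceAs (Subsingleton PUnit)
    · rcases i with _ | i
      · exact fun y => ⟨fun _ => Submodule.mkQ_surjective _ y, fun _ => rfl⟩
      · have : Subsingleton (C (i + 1 + 1)) := inferInstanceAs (Subsingleton PUnit)
        exact fun y => ⟨fun _ => ⟨0, Subsingleton.elim _ _⟩, fun _ => rfl⟩

open Classical in
/-- Test functionals at a level above the size of `J`. -/
noncomputable def chi (m : ℕ) (J : Finset Λ) (hm : J.card < m) (χ : List Λ → Prop) :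
    V →ₗ[ℤ] ℤ :=
  lin (fun l t => if l = m ∧ t.toFinset = J ∧ χ t then 1 else 0) (fun l w u h => by
    rcases (mk_eq.1 h).2 with rfl | ⟨h1, h2⟩
    · rfl
    · rw [if_neg, if_neg]
      · rintro ⟨rfl, h3, -⟩
        rw [h1, h3] at h2
        omega
      · rintro ⟨rfl, h3, -⟩
        rw [h3] at h2
        omega)

theorem chi_ph {m : ℕ} {J : Finset Λ} (hm : J.card < m) {χ : List Λ → Prop} {l : ℕ}
    {w : List Λ} (h : l ≠ m ∨ ∀ t, ¬ χ (w ++ t)) (x : V) : chi m J hm χ (ph l l w • x) = 0 := by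
  induction x using V_ind with
  | h0 => simp
  | hadd a b ha hb => simp [ha, hb]
  | hb k t n =>
    rw [smul_comm, map_smul, ph_bs]
    split_ifs
    · rw [chi, lin_bs, if_neg, smul_zero]
      rintro ⟨h1, -, h2⟩
      exact h.elim (fun h => h (by simpa using h1)) fun h => h t h2
    · simp

theorem chi_ph_eq {m : ℕ} {J : Finset Λ} (hm : J.card < m) {χ : List Λ → Prop}
    {w u : List Λ} (h : w.toFinset = u.toFinset) (h' : ∀ t, χ (w ++ t) ↔ χ (u ++ t)) (x : V) :
    chi m J hm χ (ph m m w • x) = chi m J hm χ (ph m m u • x) := by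
  induction x using V_ind with
  | h0 => simp
  | hadd a b ha hb => simp [ha, hb]
  | hb k t n =>
    rw [smul_comm _ n, smul_comm _ n, map_zsmul, map_zsmul, ph_bs, ph_bs]
    split_ifs
    · have h2 : (w ++ t).toFinset = (u ++ t).toFinset := by simp [h]
      rw [chi, lin_bs, lin_bs]
      have h3 := h' t
      split_ifs <;> simp_all
    · rfl

theorem chi_map {m : ℕ} {J : Finset Λ} (hm : J.card < m) {χ : List Λ → Prop} {γ δ : Λ}
    (hχ : ∀ w t, δ ∉ w → (γ ∈ w → ¬ χ (w ++ t)) ∧ (γ ∉ w → (χ (w ++ t) ↔ χ t)))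
    (g : V →ₗ[R] V) (v : V) (hv : ∀ ω ∈ v.support, δ ∉ supp ω)
    (hρ : ph 0 0 [γ] • ph m 0 [] • v = ph m 0 [] • v) : chi m J hm χ (g v) = 0 := by
  let Φ : V →ₗ[ℤ] ℤ := lin (fun _ w => if γ ∈ w.toFinset then 0 else
    chi m J hm χ (ph m m w.toFinset.toList • g (bs m []))) (fun l w u h => by
      rw [show w.toFinset = u.toFinset from congrArg supp h])
  have h1 : ∀ y : V, Φ (ph 0 0 [γ] • y) = 0 := by
    refine V_ind (by simp) (fun a b ha hb => by simp [ha, hb]) fun k t n => ?_
    rw [smul_comm, map_smul, ph_bs]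
    split_ifs <;> simp [Φ]
  have h2 : ∀ l w, δ ∉ w → chi m J hm χ (g (bs l w)) = Φ (ph m 0 [] • bs l w) := by
    intro l w hw
    have h3 : g (bs l w) = ph l l w • g (bs l []) := by
      rw [← map_smul, ph_bs]
      simp
    rw [h3, ph_bs]
    split_ifs with hl
    · subst hl
      simp only [Φ, lin_bs, List.nil_append]
      split_ifs with hγ
      · exact chi_ph hm (Or.inr fun t => (hχ w t hw).1 (by simpa using hγ)) _
      · refine chi_ph_eq hm (by simp) (fun t => ?_) _
        rw [(hχ w t hw).2 (by simpa using hγ), (hχ _ t (by simpa using hw)).2 (by simpa using hγ)]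
    · rw [chi_ph hm (Or.inl hl), map_zero]
  have h4 : chi m J hm χ (g v) = Φ (ph m 0 [] • v) := by
    conv_lhs => rw [← v.sum_single]
    conv_rhs => rw [← v.sum_single]
    simp only [Finsupp.sum, map_sum, Finset.smul_sum]
    refine Finset.sum_congr rfl fun ω hω => ?_
    obtain ⟨l, w, rfl⟩ := mk_surj ω
    have h5 : Finsupp.single (mk l w) (v (mk l w)) = v (mk l w) • bs l w := by simp [bs]
    rw [h5, map_zsmul, map_smul, smul_comm, map_smul, h2 l w (by simpa using hv _ hω)]
  rw [h4, ← hρ, h1]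

theorem chi_map' {m : ℕ} {J : Finset Λ} (hm : J.card < m) {χ : List Λ → Prop} {γ δ : Λ}
    (hχ : ∀ w t, δ ∉ w → (γ ∈ w → ¬ χ (w ++ t)) ∧ (γ ∉ w → (χ (w ++ t) ↔ χ t)))
    {X : Type} (g : (X →₀ V) →ₗ[R] V) (v : X →₀ V) (hv : ∀ x, ∀ ω ∈ (v x).support, δ ∉ supp ω)
    (hρ : ph 0 0 [γ] • ph m 0 [] • v = ph m 0 [] • v) : chi m J hm χ (g v) = 0 := by
  rw [← v.sum_single, Finsupp.sum, map_sum, map_sum]
  exact Finset.sum_eq_zero fun x _ =>
    chi_map hm hχ (g ∘ₗ Finsupp.lsingle x) (v x) (hv x) congr($hρ x)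

theorem find_app {γ δ : Λ} {q : Λ → Bool} (hq : ∀ x, q x ↔ x = γ ∨ x = δ) (w t : List Λ)
    (hw : δ ∉ w) :
    (γ ∈ w → (w ++ t).find? q = some γ) ∧ (γ ∉ w → (w ++ t).find? q = t.find? q) := by
  rw [List.find?_append]
  rcases h : w.find? q with _ | x
  · exact ⟨fun hγ => (List.find?_eq_none.1 h γ hγ ((hq γ).2 (Or.inl rfl))).elim, fun _ => by simp⟩
  · have h1 := List.mem_of_find?_eq_some h
    rcases (hq x).1 (List.find?_some h) with rfl | rfl
    · exact ⟨fun _ => by simp, fun hγ => (hγ h1).elim⟩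
    · exact (hw h1).elim

theorem coeff_eq {m : ℕ} (ω : Ω) (hm : (supp ω).card < m) (χ : List Λ → Prop) :
    ∃ n : ℤ, ∀ y : V, (ph m 0 [] • y) ω =
      n * (chi m _ hm χ y + chi m _ hm (fun t => ¬ χ t) y) := by
  classical
  obtain ⟨k, u, rfl⟩ := mk_surj ω
  refine ⟨if k = 0 then 1 else 0, V_ind (by simp) (fun a b ha hb => ?_) fun l t n => ?_⟩
  · simp only [smul_add, Finsupp.add_apply, ha, hb, map_add]
    ring
  · rw [smul_comm, map_smul, map_smul, ph_bs, chi, chi, lin_bs, lin_bs]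
    by_cases hl : l = m
    · by_cases hk : k = 0
      · by_cases ht : t.toFinset = u.toFinset
        · have : mk 0 t = mk 0 u := mk_eq.2 ⟨rfl, Or.inr ⟨ht, Nat.zero_le _⟩⟩
          by_cases hc : χ t <;> simp [hl, hk, ht, hc, bs, this]
        · have : mk 0 t ≠ mk 0 u := fun h => ht (congrArg supp h)
          simp [hl, hk, ht, bs, this]
      · have : mk 0 t ≠ mk k u := fun h => hk (mk_eq.1 h).1.symm
        simp [hl, hk, bs, this]
    · simp [hl]

theorem key {X X' : Type} (g : (X →₀ V) →ₗ[R] V) (g' : (X' →₀ V) →ₗ[R] V) (v : X →₀ V)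
    (v' : X' →₀ V) (h : g v = g' v') {α β : Λ} {m : ℕ}
    (hv : ∀ x, ∀ ω ∈ (v x).support, β ∉ supp ω) (hv' : ∀ x, ∀ ω ∈ (v' x).support, α ∉ supp ω)
    (hρ : ph 0 0 [α] • ph m 0 [] • v = ph m 0 [] • v)
    (hρ' : ph 0 0 [β] • ph m 0 [] • v' = ph m 0 [] • v') (ω : Ω) (hm : (supp ω).card < m) :
    (ph m 0 [] • g v) ω = 0 := by
  let q : Λ → Bool := fun x => decide (x = α ∨ x = β)
  obtain ⟨n, hn⟩ := coeff_eq ω hm (fun t => t.find? q = some α)
  have h1 := chi_map' hm (χ := fun t => ¬ t.find? q = some α) (fun w t hw => by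
    have := find_app (γ := α) (q := q) (by simp [q]) w t hw
    exact ⟨fun h h' => h' (this.1 h), fun h => by rw [this.2 h]⟩) g v hv hρ
  have h2 := chi_map' hm (χ := fun t => t.find? q = some α) (fun w t hw => by
    have := find_app (γ := β) (q := q) (by simp [q, or_comm]) w t hw
    refine ⟨fun h h' => hw ?_, fun h => by rw [this.2 h]⟩
    rw [this.1 h] at h'
    exact Option.some.inj h' ▸ h) g' v' hv' hρ'
  rw [hn, h1, h, h2, add_zero, mul_zero]

theorem fixed_eq_zero {N : ModuleCat.{0} R} (hN : InDirectLimitAdd (ModuleCat.of R V) N) (n : N)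
    (hn₀ : ph 0 0 [] • n = n) (hn : ∀ α, ph 0 0 [α] • n = n) : n = 0 := by
  obtain ⟨I, _, _, _, F, c, hF, ⟨hc⟩, ⟨e⟩⟩ := hN
  choose X i p hip using hF
  have hpi : ∀ a x, p a (i a x) = x := fun a x => congr($(hip a) x)
  let g : ∀ a, F.obj a →ₗ[R] N := fun a => e.hom.hom ∘ₗ (c.ι.app a).hom
  let T : ∀ {a b}, a ≤ b → F.obj a →ₗ[R] F.obj b := fun h => (F.map (homOfLE h)).hom
  have hT : ∀ {a b d} (h : a ≤ b) (h' : b ≤ d) (x : F.obj a), T h' (T h x) = T (h.trans h') x :=
    fun h h' x => (ConcreteCategory.congr_hom (F.map_comp (homOfLE h) (homOfLE h')) x).symm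
  have hg : ∀ {a b} (h : a ≤ b) (x : F.obj a), g b (T h x) = g a x :=
    fun h x => congrArg e.hom.hom (ConcreteCategory.congr_hom (c.w (homOfLE h)) x)
  have hinj : ∀ a (x : F.obj a), g a x = 0 → ∃ b, ∃ h : a ≤ b, T h x = 0 := by
    intro a x hx
    have h1 : c.ι.app a x = c.ι.app a (0 : F.obj a) := by
      rw [map_zero]
      exact e.toLinearEquiv.injective (hx.trans (map_zero _).symm)
    obtain ⟨b, f, f', h2⟩ := Concrete.isColimit_exists_of_rep_eq F hc x 0 h1
    exact ⟨b, leOfHom f, by rw [map_zero] at h2; exact h2⟩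
  obtain ⟨a, u, hu⟩ := Concrete.isColimit_exists_rep F hc (e.inv n)
  have hu' : g a (ph 0 0 [] • u) = n := by
    have : g a u = n := by
      change e.hom (c.ι.app a u) = _
      rw [hu]
      simp
    rw [map_smul, this, hn₀]
  choose U hU using fun m : ℕ => (lifts_V m.zero_le).finsupp (X a) (i a u)
  have hU' : ∀ m, ph m 0 [] • p a (U m) = ph 0 0 [] • u := fun m => by
    rw [← map_smul, hU, map_smul, hpi]
  choose b hab hb using fun α => hinj a (ph 0 0 [] • u - ph 0 0 [α] • ph 0 0 [] • u) (by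
    rw [map_sub, map_smul _ (ph 0 0 [α]), hu', hn, sub_self])
  let w : ∀ α, ℕ → (X (b α) →₀ V) := fun α m => i _ (T (hab α) (p a (U m)))
  have hw : ∀ α m, ph 0 0 [α] • ph m 0 [] • w α m = ph m 0 [] • w α m := fun α m => by
    have h1 := congrArg (i _) (hb α)
    rw [map_sub, map_sub, map_zero, sub_eq_zero, ← hU' m] at h1
    simp only [map_smul] at h1
    exact h1.symm
  obtain ⟨α, β, hα, hβ⟩ := free_pair
    (fun α => ⋃ m, ⋃ x ∈ (w α m).support, ⋃ ω ∈ (w α m x).support, supp ω) fun α =>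
      Set.countable_iUnion fun m => (Finset.countable_toSet _).biUnion fun x _ =>
        (Finset.countable_toSet _).biUnion fun ω _ => Finset.countable_toSet _
  have hav : ∀ {α β : Λ}, β ∉ (⋃ m, ⋃ x ∈ (w α m).support, ⋃ ω ∈ (w α m x).support,
      (supp ω : Set Λ)) → ∀ m x, ∀ ω ∈ (w α m x).support, β ∉ supp ω := by
    intro α β h m x ω hω hβ
    refine h (Set.mem_iUnion.2 ⟨m, Set.mem_biUnion (x := x) ?_ (Set.mem_biUnion hω hβ)⟩)
    refine Finsupp.mem_support_iff.2 fun h0 => ?_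
    simp [h0] at hω
  obtain ⟨d, h1, h2⟩ := exists_ge_ge (b α) (b β)
  have h0 : i d (T ((hab α).trans h1) (ph 0 0 [] • u)) = 0 := by
    ext y ω
    have := key (Finsupp.lapply y ∘ₗ i d ∘ₗ T h1 ∘ₗ p _) (Finsupp.lapply y ∘ₗ i d ∘ₗ T h2 ∘ₗ p _)
      (w α _) (w β _) (by simp only [LinearMap.comp_apply, w, hpi, hT]) (hav hβ _) (hav hα _)
      (hw α _) (hw β _) ω (Nat.lt_succ_self _)
    rw [← map_smul] at this
    simp only [LinearMap.comp_apply, w, ← map_smul, hpi, hT, hU'] at this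
    exact this
  have h3 := congrArg (g d ∘ p d) h0
  simpa only [Function.comp, hpi, hg, hu', map_zero] using h3

theorem not_embed (N : ModuleCat.{0} R) (hN : InDirectLimitAdd (ModuleCat.of R V) N)
    (φ : (V ⧸ K) →ₗ[R] N) : ¬ Function.Injective φ := by
  intro hφ
  have h := fixed_eq_zero hN (φ (K.mkQ (bs 0 []))) (by
    rw [← map_smul, ← map_smul, ph_bs]
    simp) (fun α => by
    rw [← map_smul, ← map_smul, eq_comm]
    refine congrArg φ ((Submodule.Quotient.eq _).2 ?_)
    simpa [ph_bs] using sub_mem_K [α] (bs 0 []))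
  obtain ⟨S, hS⟩ := (Submodule.Quotient.mk_eq_zero _).1 (hφ (h.trans (map_zero φ).symm))
  have := hS S.toList (by simp)
  rw [L_bs] at this
  exact one_ne_zero (Finsupp.single_eq_zero.1 this)

end Pool.Agent.MP_46786a_al.Sharp
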