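import Pool.Agent.MP_46786a_al.Defs
import Pool.Agent.MP_46786a_al.ExtBasic

open CategoryTheory CategoryTheory.Limits CategoryTheory.Abelian

universe u

namespace Pool.Agent.MP_46786a_al

variable {R : Type u} [Ring R] (T : ModuleCat.{u} R)

/-- Ext from `T` vanishes in degrees above `k`. -/
def InB (k : ℕ) (E : Type u) [AddCommGroup E] [Module R E] : Prop :=
  ∀ i, k ≤ i → EZ R T E (i + 1)

/-- The left class of the cotorsion pair generated by `T`. -/
def InA (U : Type u) [AddCommGroup U] [Module R U] : Prop :=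
  ∀ (E : Type u) [AddCommGroup E] [Module R E], InB T 0 E → EZ R U E 1

variable {T}

section

variable {A B C U E : Type u} [AddCommGroup A] [Module R A] [AddCommGroup B] [Module R B]
    [AddCommGroup C] [Module R C] [AddCommGroup U] [Module R U] [AddCommGroup E] [Module R E]
    {f : A →ₗ[R] B} {g : B →ₗ[R] C}

theorem InB.of_injective [Module.Injective R E] (k : ℕ) : InB T k E :=
  fun i _ => EZ.of_injective i

theorem InB.mono {k l : ℕ} (h : InB T k E) (hkl : k ≤ l) : InB T l E :=
  fun i hi => h i (hkl.trans hi)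

theorem InB.equiv {k : ℕ} (h : InB T k B) (e : A ≃ₗ[R] B) : InB T k A :=
  fun i hi => (h i hi).equiv_right e

theorem InB.retract {k : ℕ} (h : InB T k B) (a : A →ₗ[R] B) (b : B →ₗ[R] A)
    (hab : b ∘ₗ a = LinearMap.id) : InB T k A :=
  fun i hi => (h i hi).retract_right a b hab

theorem SE.inB₃ (h : SE f g) {k : ℕ} (hB : InB T 0 B) (hA : InB T (k + 1) A) : InB T k C :=
  fun i hi => h.cov₃ (hB i (Nat.zero_le _)) (hA (i + 1) (by omega))

theorem SE.inB₁ (h : SE f g) {k : ℕ} (hB : InB T 0 B) (hC : InB T k C) : InB T (k + 1) A := by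
  intro i hi
  obtain ⟨j, rfl⟩ : ∃ j, i = j + 1 := ⟨i - 1, by omega⟩
  exact h.cov₁ (hC j (by omega)) (hB _ (Nat.zero_le _))

theorem InA.higher (hU : InA T U) (i : ℕ) :
    ∀ (E : Type u) [AddCommGroup E] [Module R E], InB T 0 E → EZ R U E (i + 1) := by
  induction i with
  | zero => exact hU
  | succ i ih =>
    intro E _ _ hE
    obtain ⟨I, _, f, hf⟩ := exists_injective_embedding R E
    have hs := SE.coker f hf
    exact (EZ.cosyz_iff hs i).1 (ih _ (hs.inB₃ (InB.of_injective 0) (hE.mono (by omega))))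

theorem SE.inA₁ (h : SE f g) (hB : InA T B) (hC : InA T C) : InA T A :=
  fun E _ _ hE => h.con₁ (hB E hE) (hC.higher 1 E hE)

theorem SE.inA₂ (h : SE f g) (hA : InA T A) (hC : InA T C) : InA T B :=
  fun E _ _ hE => h.con₂ (hA E hE) (hC E hE)

theorem InA.retract (h : InA T B) (a : A →ₗ[R] B) (b : B →ₗ[R] A)
    (hab : b ∘ₗ a = LinearMap.id) : InA T A :=
  fun E _ _ hE => (h E hE).retract_left a b hab

theorem InA.equiv (h : InA T B) (e : A ≃ₗ[R] B) : InA T A :=
  fun E _ _ hE => (h E hE).equiv_left e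

theorem InA.of_projective [Module.Projective R U] : InA T U :=
  fun _ _ _ _ => EZ.of_projective 0

theorem InA.of_subsingleton [Subsingleton U] : InA T U :=
  fun _ _ _ _ => EZ.of_subsingleton_left _

theorem InA.self : InA T T := fun _ _ _ hE => hE 0 le_rfl

theorem InA.finsupp (h : InA T U) (X : Type u) : InA T (X →₀ U) :=
  fun E _ _ hE => (h E hE).finsupp_left X

theorem InA.prod (hA : InA T A) (hB : InA T B) : InA T (A × B) :=
  (SE.mk LinearMap.inl_injective Function.Exact.inl_snd LinearMap.snd_surjective :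
    SE (LinearMap.inl R A B) (LinearMap.snd R A B)).inA₂ hA hB

end

theorem InAdd.inA {N : ModuleCat.{u} R} (h : InAdd T N) : InA T N := by
  obtain ⟨X, i, p, hip⟩ := h
  exact (InA.self.finsupp X).retract i p hip

theorem InB.pi {ι : Type u} {E : ι → Type u} [∀ a, AddCommGroup (E a)] [∀ a, Module R (E a)]
    {k : ℕ} (h : ∀ a, InB T k (E a)) : InB T k (∀ a, E a) :=
  fun i hi => EZ.pi i _ fun a => h a i hi

theorem SE.dfinsupp {ι : Type u} {A B C : ι → Type u}
    [∀ a, AddCommGroup (A a)] [∀ a, Module R (A a)] [∀ a, AddCommGroup (B a)] [∀ a, Module R (B a)]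
    [∀ a, AddCommGroup (C a)] [∀ a, Module R (C a)] {f : ∀ a, A a →ₗ[R] B a}
    {g : ∀ a, B a →ₗ[R] C a} (h : ∀ a, SE (f a) (g a)) :
    SE (DFinsupp.mapRange.linearMap f) (DFinsupp.mapRange.linearMap g) := by
  classical
  refine ⟨(DFinsupp.mapRange_injective _ fun a => map_zero (f a)).2 fun a => (h a).inj, ?_,
    (DFinsupp.mapRange_surjective _ fun a => map_zero (g a)).2 fun a => (h a).surj⟩
  rw [LinearMap.exact_iff, DFinsupp.ker_mapRangeLinearMap, DFinsupp.range_mapRangeLinearMap]
  congr 2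
  funext a
  exact LinearMap.exact_iff.1 (h a).ex

/-- The canonical map from a direct sum of copies of `T`. -/
noncomputable abbrev evT (T : ModuleCat.{u} R) (E : Type u) [AddCommGroup E] [Module R E] :
    ((T →ₗ[R] E) →₀ T) →ₗ[R] E := Finsupp.lsum ℕ fun f => f

variable {n : ℕ}

theorem IsTilting.inB_finsupp (hT : IsTilting n T) (X : Type u) : InB T 0 (X →₀ T) :=
  fun i _ e => (hT.selfOrthogonal X (i + 1) (by omega)).elim e 0

theorem IsTilting.inB_top (hT : IsTilting n T) (E : Type u) [AddCommGroup E] [Module R E] :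
    InB T n E := by
  intro i hi e
  have := hT.projDim
  exact Ext.eq_zero_of_hasProjectiveDimensionLT e (n + 1) (by omega)

theorem IsTilting.exists_env (hT : IsTilting n T) :
    ∃ (C : ModuleCat.{u} R) (ι : R →ₗ[R] C), InAdd T C ∧ Function.Injective ι ∧
      InA T (C ⧸ LinearMap.range ι) := by
  obtain ⟨C, ι, d, hC, hC', hι, hιd, hd⟩ := hT.coresolution
  have hA : ∀ i, InA T (C i) := fun i => by
    by_cases hi : i ≤ n
    · exact (hC i hi).inA
    · have := hC' i (by omega)
      exact InA.of_subsingleton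
  have key : ∀ j i, n ≤ i + j → InA T (LinearMap.range (d i)) := by
    intro j
    induction j with
    | zero =>
      intro i hi
      have := hC' (i + 1) (by omega)
      exact InA.of_subsingleton
    | succ j ih =>
      intro i hi
      have hs : SE (LinearMap.range (d i)).subtype (d (i + 1)).rangeRestrict := by
        refine ⟨(LinearMap.range (d i)).injective_subtype, ?_, (d (i + 1)).surjective_rangeRestrict⟩
        rw [LinearMap.exact_iff, LinearMap.ker_rangeRestrict, Submodule.range_subtype]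
        exact LinearMap.exact_iff.1 (hd i)
      exact hs.inA₁ (hA _) (ih (i + 1) (by omega))
  refine ⟨C 0, ι, hC 0 (Nat.zero_le _), hι, ?_⟩
  refine (key n 0 (by omega)).equiv ?_
  exact (Submodule.quotEquivOfEq _ _ (LinearMap.exact_iff.1 hιd).symm).trans
    (d 0).quotKerEquivRange

theorem IsTilting.evT_surjective (hT : IsTilting n T) {E : Type u} [AddCommGroup E] [Module R E]
    (hE : InB T 0 E) : Function.Surjective (evT T E) := by
  obtain ⟨C, ι, ⟨X, i, p, hip⟩, hι, hA⟩ := hT.exists_env
  intro m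
  obtain ⟨ψ, hψ⟩ := (SE.coker ι hι).extend (hA E hE) (LinearMap.toSpanSingleton R E m)
  have h1 : ∀ w : X →₀ T, ψ (p w) ∈ LinearMap.range (evT T E) := by
    intro w
    induction w using Finsupp.induction_linear with
    | zero => simp
    | add a b ha hb => simpa only [map_add] using add_mem ha hb
    | single x t =>
      exact ⟨Finsupp.single (ψ ∘ₗ p ∘ₗ Finsupp.lsingle x) t, by simp⟩
  have h2 : ψ (p (i (ι 1))) = m := by
    have h3 : p (i (ι 1)) = ι 1 := congr($hip (ι 1))
    rw [h3]
    simpa using congr($hψ 1)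
  exact h2 ▸ h1 _

theorem IsTilting.inB_ker_evT (hT : IsTilting n T) {E : Type u} [AddCommGroup E] [Module R E]
    (hE : InB T 0 E) : InB T 0 (LinearMap.ker (evT T E)) := by
  have hs := SE.ker _ (hT.evT_surjective hE)
  intro i _
  cases i with
  | zero =>
    refine hs.of_lift (fun φ => ⟨Finsupp.lsingle φ, ?_⟩) (hT.inB_finsupp _ 0 le_rfl)
    ext t
    simp
  | succ i => exact hs.inB₁ (hT.inB_finsupp _) hE _ (by omega)

theorem IsTilting.inAdd (hT : IsTilting n T) {Z : ModuleCat.{u} R} (hA : InA T Z)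
    (hB : InB T 0 Z) : InAdd T Z := by
  obtain ⟨s, hs⟩ := (SE.ker _ (hT.evT_surjective hB)).lift (hA _ (hT.inB_ker_evT hB))
    LinearMap.id
  exact ⟨_, s, evT T Z, hs⟩

theorem IsTilting.inB_dfinsupp_zero (hT : IsTilting n T) {ι : Type u} (m : ℕ) :
    ∀ k, n ≤ k + m → ∀ (E : ι → Type u) [∀ a, AddCommGroup (E a)] [∀ a, Module R (E a)],
      (∀ a, InB T 0 (E a)) → InB T k (Π₀ a, E a) := by
  classical
  induction m with
  | zero => intro k hk E _ _ _; exact (hT.inB_top _).mono (by omega)
  | succ m ih =>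
    intro k hk E _ _ hE
    have hs := SE.dfinsupp fun a => SE.ker _ (hT.evT_surjective (hE a))
    refine hs.inB₃ ?_ (ih (k + 1) (by omega) _ fun a => hT.inB_ker_evT (hE a))
    exact (hT.inB_finsupp _).equiv (sigmaFinsuppLequivDFinsupp R).symm

theorem IsTilting.inB_dfinsupp (hT : IsTilting n T) {ι : Type u} (k : ℕ) :
    ∀ (E : ι → Type u) [∀ a, AddCommGroup (E a)] [∀ a, Module R (E a)],
      (∀ a, InB T k (E a)) → InB T k (Π₀ a, E a) := by
  induction k with
  | zero => exact hT.inB_dfinsupp_zero n 0 (by omega)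
  | succ k ih =>
    intro E _ _ hE
    choose I hI f hf using fun a => exists_injective_embedding R (E a)
    have hs := SE.dfinsupp fun a => SE.coker _ (hf a)
    refine hs.inB₁ (hT.inB_dfinsupp_zero n 0 (by omega) _ fun a => InB.of_injective 0)
      (ih _ fun a => (SE.coker _ (hf a)).inB₃ (InB.of_injective 0) (hE a))

theorem exists_syzygy (T : ModuleCat.{u} R) (k : ℕ) :
    ∃ U : ModuleCat.{u} R, InA T U ∧ ∀ (E : Type u) [AddCommGroup E] [Module R E] (i : ℕ),
      EZ R U E (i + 1) ↔ EZ R T E (i + k + 1) := by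
  induction k with
  | zero => exact ⟨T, InA.self, fun _ _ _ _ => Iff.rfl⟩
  | succ k ih =>
    obtain ⟨U, hU, h⟩ := ih
    have hs := SE.ker (cover R U) cover_surjective
    refine ⟨ModuleCat.of R (LinearMap.ker (cover R U)), hs.inA₁ InA.of_projective hU, ?_⟩
    intro E _ _ i
    rw [show i + (k + 1) + 1 = (i + 1) + k + 1 by omega, ← h E (i + 1)]
    exact EZ.syz_iff hs i

end Pool.Agent.MP_46786a_al
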